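import Mathlib

/-!
# Definitions for MP_36627d_co (levelness of natural 3-spheres)

`V` is the (finite) vertex set, `p : V → ℝ⁴` gives the positions.
-/

namespace Pool.Agent.TH47.Lev

open MvPolynomial Finset

/-- Euclidean 4-space, as functions `Fin 4 → ℝ`. -/
abbrev E : Type := Fin 4 → ℝ

variable {V : Type} [Fintype V] [DecidableEq V]

/-- `σ` is (the vertex set of) a proper face of the convex hull of the points `p a`:
some linear functional takes its maximum over the points exactly on `σ`, and `σ` is not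
everything. -/
def IsFace (p : V → E) (σ : Finset V) : Prop :=
  σ ≠ Finset.univ ∧ ∃ (f : E →ₗ[ℝ] ℝ) (b : ℝ),
    (∀ a ∈ σ, f (p a) = b) ∧ ∀ a, a ∉ σ → f (p a) < b

/-- The points `p a` are the vertices of a simplicial 4-polytope (their convex hull). -/
structure IsSimplicialPolytope (p : V → E) : Prop where
  spans : affineSpan ℝ (Set.range p) = ⊤
  vertex : ∀ a, IsFace p {a}
  simplicial : ∀ σ, IsFace p σ → AffineIndependent ℝ (fun a : {x // x ∈ σ} => p a)

/-- A missing face of the boundary complex. -/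
def IsMissingFace (p : V → E) (S : Finset V) : Prop :=
  ¬ IsFace p S ∧ ∀ T, T ⊂ S → IsFace p T

/-- The linear form with coefficient vector `f`. -/
noncomputable def L : (V → ℝ) →ₗ[ℝ] MvPolynomial V ℝ where
  toFun f := ∑ a, C (f a) * X a
  map_add' f g := by
    simp [add_mul, Finset.sum_add_distrib]
  map_smul' c f := by
    simp [Finset.smul_sum, MvPolynomial.smul_eq_C_mul, mul_assoc]

omit [DecidableEq V] in
theorem L_apply (f : V → ℝ) : L f = ∑ a, C (f a) * X a := rfl

/-- The Stanley-Reisner ideal of the boundary complex. -/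
noncomputable def SR (p : V → E) : Ideal (MvPolynomial V ℝ) :=
  Ideal.span {m | ∃ σ : Finset V, ¬ IsFace p σ ∧ m = ∏ a ∈ σ, X a}

/-- The ideal `I_Δ + (θ_1, ..., θ_4) + (c)`, so `A(Δ)` is the quotient by it. -/
noncomputable def natIdeal (p : V → E) : Ideal (MvPolynomial V ℝ) :=
  SR p ⊔ Ideal.span (Set.range (fun j : Fin 4 => L (fun a => p a j)) ∪ {L (fun _ => 1)})

/-- Linear functional of the position, as a vector of values at the vertices. -/
def ev (p : V → E) (l : E →ₗ[ℝ] ℝ) : V → ℝ := fun a => l (p a)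

/-- Unit vector of a vertex. -/
def dl (u : V) : V → ℝ := Pi.single u 1

theorem L_dl (u : V) : L (dl u) = (X u : MvPolynomial V ℝ) := by
  rw [L_apply]
  rw [Finset.sum_eq_single u]
  · simp [dl]
  · intro b _ hb
    simp [dl, hb]
  · intro h
    exact absurd (Finset.mem_univ u) h

/-- The cone generated by the points. -/
def cone (p : V → E) : Set E :=
  {x | ∃ m : V → ℝ, (∀ a, 0 ≤ m a) ∧ x = ∑ a, m a • p a}

/-- A degree functional at the vertex `v` (the origin). -/
structure DegFun (p : V → E) (v : V) where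
  deg : MvPolynomial V ℝ →ₗ[ℝ] ℝ
  d1 : ∀ m, deg (X v * m) = 0
  d2 : ∀ m ∈ SR p, deg m = 0
  d3 : ∀ α β, α ≠ β → α ≠ v → β ≠ v → IsFace p {α, β} → ¬ IsFace p {v, α, β} →
    ∀ (l : E →ₗ[ℝ] ℝ) (a : V → ℝ), deg (L (ev p l) * X α * X β * L a) = 0
  d4 : ∀ w, w ≠ v → ¬ IsFace p {v, w} →
    ∀ (l : E →ₗ[ℝ] ℝ) (a b : V → ℝ), deg (L (ev p l) * X w * L a * L b) = 0
  d5 : ∀ F : Finset V, IsFace p F → v ∉ F → F.card = 4 → 0 < deg (∏ a ∈ F, X a)

end Pool.Agent.TH47.Lev
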