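import Pool.Agent.TH47.Lev.Defs

/-!
# LEV-A (job 1204, helper47, MP_36627d_co): faces of a simplicial 4-polytope, basics
-/

namespace Pool.Agent.TH47.Lev

open MvPolynomial Finset

variable {V : Type} [Fintype V] [DecidableEq V]

omit [Fintype V] [DecidableEq V] in
/-- prescribed values of a linear functional on a linearly independent family -/
theorem exists_functional {ι : Type*} [Finite ι] {v : ι → E} (hv : LinearIndependent ℝ v)
    (c : ι → ℝ) : ∃ l : E →ₗ[ℝ] ℝ, ∀ i, l (v i) = c i := by
  classical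
  have := Fintype.ofFinite ι
  have hinj : LinearMap.ker (Fintype.linearCombination ℝ v) = ⊥ := by
    rw [LinearMap.ker_eq_bot]
    exact hv.fintypeLinearCombination_injective
  obtain ⟨g, hg⟩ := LinearMap.exists_leftInverse_of_injective _ hinj
  refine ⟨(Fintype.linearCombination ℝ c).comp g, fun i => ?_⟩
  have h1 : g (v i) = Pi.single i 1 := by
    have h2 := LinearMap.congr_fun hg (Pi.single i 1)
    simpa [Fintype.linearCombination_apply_single] using h2
  rw [LinearMap.comp_apply, h1, Fintype.linearCombination_apply_single]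
  simp

theorem face_mono {p : V → E} (hP : IsSimplicialPolytope p) {σ τ : Finset V}
    (h : IsFace p σ) (hτ : τ ⊆ σ) : IsFace p τ := by
  obtain ⟨hσ, f, b, hf1, hf2⟩ := id h
  refine ⟨fun h0 => hσ (Finset.univ_subset_iff.mp (h0 ▸ hτ)), ?_⟩
  -- a functional `g` and a constant `c`
  have hg : ∃ (g : E →ₗ[ℝ] ℝ) (c : ℝ), (∀ a ∈ τ, g (p a) = c) ∧ ∀ a ∈ σ, a ∉ τ → g (p a) < c := by
    rcases τ.eq_empty_or_nonempty with rfl | ⟨a0, ha0⟩
    · exact ⟨0, 1, by simp, by simp⟩
    · have hai := hP.simplicial σ h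
      rw [affineIndependent_iff_linearIndependent_vsub ℝ _ (⟨a0, hτ ha0⟩ : {x // x ∈ σ})] at hai
      obtain ⟨l, hl⟩ := exists_functional hai (fun i => if (i : {x // x ∈ σ}).1 ∈ τ then 0 else -1)
      have hl' : ∀ a (ha : a ∈ σ), l (p a) = l (p a0) + if a ∈ τ then 0 else -1 := by
        intro a ha
        by_cases haa : a = a0
        · subst haa
          simp [ha0]
        · have h1 := hl ⟨⟨a, ha⟩, fun h2 => haa (congrArg Subtype.val h2)⟩
          simp only [vsub_eq_sub, map_sub] at h1
          linarith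
      refine ⟨l, l (p a0), fun a ha => ?_, fun a ha haτ => ?_⟩
      · rw [hl' a (hτ ha), if_pos ha, add_zero]
      · rw [hl' a ha, if_neg haτ]
        linarith
  obtain ⟨g, c, hg1, hg2⟩ := hg
  -- a small `ε`
  have hε : ∃ ε : ℝ, 0 < ε ∧ ∀ a, a ∉ σ → ε * (g (p a) - c) < b - f (p a) := by
    have h1 : ∀ᶠ ε : ℝ in nhdsWithin 0 (Set.Ioi 0), ∀ a, a ∉ σ → ε * (g (p a) - c) < b - f (p a) := by
      rw [Filter.eventually_all]
      intro a
      by_cases ha : a ∈ σ
      · exact Filter.Eventually.of_forall fun _ h2 => absurd ha h2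
      · have h3 : ContinuousAt (fun ε : ℝ => ε * (g (p a) - c)) 0 :=
          (continuous_id.mul continuous_const).continuousAt
        have h4 : (0 : ℝ) * (g (p a) - c) < b - f (p a) := by
          rw [zero_mul]; linarith [hf2 a ha]
        exact ((h3.eventually_lt continuousAt_const h4).filter_mono nhdsWithin_le_nhds).mono
          fun _ h5 _ => h5
    obtain ⟨ε, h2, h3⟩ := (h1.and self_mem_nhdsWithin).exists
    exact ⟨ε, h3, h2⟩
  obtain ⟨ε, hε0, hε1⟩ := hε
  refine ⟨f + ε • g, b + ε * c, fun a ha => ?_, fun a ha => ?_⟩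
  · simp only [LinearMap.add_apply, LinearMap.smul_apply, smul_eq_mul]
    rw [hf1 a (hτ ha), hg1 a ha]
  · simp only [LinearMap.add_apply, LinearMap.smul_apply, smul_eq_mul]
    by_cases haσ : a ∈ σ
    · rw [hf1 a haσ]
      have := mul_lt_mul_of_pos_left (hg2 a haσ ha) hε0
      linarith
    · have := hε1 a haσ
      rw [mul_sub] at this
      linarith

theorem isFace_translate {p : V → E} (t : E) (σ : Finset V) :
    IsFace (fun a => p a - t) σ ↔ IsFace p σ := by
  unfold IsFace
  refine and_congr_right fun _ => ⟨?_, ?_⟩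
  · rintro ⟨f, b, h1, h2⟩
    refine ⟨f, b + f t, fun a ha => ?_, fun a ha => ?_⟩
    · have := h1 a ha
      rw [map_sub] at this
      linarith
    · have := h2 a ha
      rw [map_sub] at this
      linarith
  · rintro ⟨f, b, h1, h2⟩
    refine ⟨f, b - f t, fun a ha => ?_, fun a ha => ?_⟩
    · rw [map_sub, h1 a ha]
    · rw [map_sub]
      linarith [h2 a ha]

theorem isSimplicialPolytope_translate {p : V → E} (t : E) (hP : IsSimplicialPolytope p) :
    IsSimplicialPolytope (fun a => p a - t) := by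
  refine ⟨?_, fun a => (isFace_translate t _).mpr (hP.vertex a), fun σ hσ => ?_⟩
  · have h1 : Set.range (fun a => p a - t) = (AffineEquiv.constVAdd ℝ E (-t)) '' Set.range p := by
      rw [← Set.range_comp]
      congr 1
      funext a
      simp [sub_eq_neg_add]
    rw [h1]
    exact (AffineEquiv.span_eq_top_iff (AffineEquiv.constVAdd ℝ E (-t))).mp hP.spans
  · have h1 := hP.simplicial σ ((isFace_translate t σ).mp hσ)
    rw [← AffineEquiv.affineIndependent_iff (AffineEquiv.constVAdd ℝ E (-t))] at h1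
    convert h1 using 1
    funext a
    simp [sub_eq_neg_add]

theorem supp_functional {p : V → E} {v : V} (hv : p v = 0) {σ : Finset V}
    (h : IsFace p σ) (hvσ : v ∉ σ) :
    ∃ l : E →ₗ[ℝ] ℝ, (∀ a ∈ σ, l (p a) = 1) ∧ ∀ a, a ∉ σ → l (p a) < 1 := by
  obtain ⟨_, f, b, h1, h2⟩ := h
  have hb : 0 < b := by
    have := h2 v hvσ
    rwa [hv, map_zero] at this
  refine ⟨b⁻¹ • f, fun a ha => ?_, fun a ha => ?_⟩
  · rw [LinearMap.smul_apply, h1 a ha, smul_eq_mul, inv_mul_cancel₀ hb.ne']
  · rw [LinearMap.smul_apply, smul_eq_mul, inv_mul_lt_iff₀ hb, mul_one]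
    exact h2 a ha

theorem vertex_functional {p : V → E} (hP : IsSimplicialPolytope p) {v : V} (hv : p v = 0) :
    ∃ l : E →ₗ[ℝ] ℝ, ∀ a, a ≠ v → 0 < l (p a) := by
  obtain ⟨_, f, b, h1, h2⟩ := hP.vertex v
  have hb : b = 0 := by
    have := h1 v (Finset.mem_singleton_self v)
    rw [hv, map_zero] at this
    exact this.symm
  refine ⟨-f, fun a ha => ?_⟩
  have := h2 a (by simpa using ha)
  rw [hb] at this
  rw [LinearMap.neg_apply]
  linarith

end Pool.Agent.TH47.Lev
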