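import Pool.Agent.TH47.Lev.Defs
import Pool.Agent.TH47.Lev.J_A

/-!
# LEV-O (job 1218, helper47, MP_36627d_co): the degree-one part of the ideal
-/

namespace Pool.Agent.TH47.Lev

open MvPolynomial Finset

variable {V : Type} [Fintype V] [DecidableEq V]

/-- degree-one coefficients of `r * L w` -/
theorem lo_coeff_mul_L (r : MvPolynomial V ℝ) (w : V → ℝ) (u : V) :
    coeff (Finsupp.single u 1) (r * L w) = coeff 0 r * w u := by
  rw [L_apply, Finset.mul_sum, coeff_sum]
  rw [Finset.sum_eq_single u]
  · rw [← mul_assoc, coeff_mul_X', if_pos (by simp), mul_comm r, coeff_C_mul, tsub_self, mul_comm]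
  · intro a _ ha
    rw [← mul_assoc, coeff_mul_X', if_neg]
    intro h
    rw [Finsupp.mem_support_iff] at h
    exact h (Finsupp.single_eq_of_ne ha)
  · intro h
    exact absurd (Finset.mem_univ u) h

/-- degree-one coefficients of a multiple of a product of at least two variables -/
theorem lo_coeff_mul_prod (r : MvPolynomial V ℝ) {σ : Finset V} {a b : V} (ha : a ∈ σ) (hb : b ∈ σ)
    (hab : a ≠ b) (u : V) :
    coeff (Finsupp.single u 1) (r * ∏ c ∈ σ, X c) = 0 := by
  rw [← Finset.mul_prod_erase σ _ ha, ← Finset.mul_prod_erase (σ.erase a) _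
    (Finset.mem_erase.mpr ⟨hab.symm, hb⟩)]
  rw [show r * (X a * (X b * ∏ c ∈ (σ.erase a).erase b, X c)) =
    (r * (∏ c ∈ (σ.erase a).erase b, X c) * X b) * X a by ring]
  rw [coeff_mul_X']
  split_ifs with h
  · have h1 : a = u := by
      by_contra h2
      rw [Finsupp.mem_support_iff] at h
      exact h (Finsupp.single_eq_of_ne h2)
    rw [h1, tsub_self, coeff_mul_X', if_neg (by simp)]
  · rfl

theorem natIdeal_lin {p : V → E} (hP : IsSimplicialPolytope p) (f : V → ℝ)
    (hf : L f ∈ natIdeal p) : ∃ (l : E →ₗ[ℝ] ℝ) (b : ℝ), ∀ u, f u = l (p u) + b := by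
  classical
  set Q : MvPolynomial V ℝ → Prop := fun y => ∃ (l : E →ₗ[ℝ] ℝ) (b : ℝ),
    ∀ u, coeff (Finsupp.single u 1) y = l (p u) + b with hQ
  have hlin : ∀ (w : V → ℝ) (l : E →ₗ[ℝ] ℝ) (b : ℝ), (∀ u, w u = l (p u) + b) →
      ∀ r, Q (r * L w) := by
    intro w l b hw r
    refine ⟨coeff 0 r • l, coeff 0 r * b, fun u => ?_⟩
    rw [lo_coeff_mul_L, hw, LinearMap.smul_apply, smul_eq_mul, mul_add]
  have key : ∀ y ∈ natIdeal p, ∀ r, Q (r * y) := by
    intro y hy
    unfold natIdeal SR at hy
    rw [← Ideal.span_union] at hy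
    induction hy using Submodule.span_induction with
    | mem x hx =>
      intro r
      rcases hx with ⟨σ, hσ, rfl⟩ | hx
      · have h2 : ∃ a ∈ σ, ∃ b ∈ σ, a ≠ b := by
          by_contra hcon
          push Not at hcon
          have hsing : ∃ a, σ ⊆ {a} := by
            rcases σ.eq_empty_or_nonempty with rfl | ⟨a, ha⟩
            · have hne : Nonempty V := by
                by_contra hV
                rw [not_nonempty_iff] at hV
                have h3 := hP.spans
                rw [Set.range_eq_empty, AffineSubspace.span_empty] at h3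
                exact AffineSubspace.bot_ne_top ℝ E E h3
              exact ⟨hne.some, Finset.empty_subset _⟩
            · exact ⟨a, fun b hb => by rw [Finset.mem_singleton]; exact hcon b hb a ha⟩
          obtain ⟨a, ha⟩ := hsing
          exact hσ (face_mono hP (hP.vertex a) ha)
        obtain ⟨a, ha, b, hb, hab⟩ := h2
        refine ⟨0, 0, fun u => ?_⟩
        rw [lo_coeff_mul_prod r ha hb hab]
        simp
      · rcases hx with ⟨j, rfl⟩ | hx
        · refine hlin _ (LinearMap.proj j) 0 (fun u => ?_) r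
          simp
        · rw [Set.mem_singleton_iff] at hx
          subst hx
          refine hlin _ 0 1 (fun u => ?_) r
          simp
    | zero =>
      intro r
      exact ⟨0, 0, fun u => by simp⟩
    | add x y _ _ hx hy =>
      intro r
      obtain ⟨l1, b1, h1⟩ := hx r
      obtain ⟨l2, b2, h2⟩ := hy r
      refine ⟨l1 + l2, b1 + b2, fun u => ?_⟩
      rw [mul_add, coeff_add, h1, h2, LinearMap.add_apply]
      ring
    | smul s x _ hx =>
      intro r
      rw [smul_eq_mul, ← mul_assoc]
      exact hx (r * s)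
  obtain ⟨l, b, h⟩ := key _ hf 1
  refine ⟨l, b, fun u => ?_⟩
  rw [← h u, lo_coeff_mul_L]
  simp

end Pool.Agent.TH47.Lev
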