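import Pool.Agent.TH47.Lev.Defs
import Pool.Agent.TH47.Lev.J_A

/-!
# Linear independence of faces not containing the origin vertex (job LEV-B)
-/

namespace Pool.Agent.TH47.Lev

open MvPolynomial Finset

variable {V : Type} [Fintype V] [DecidableEq V]

theorem lin_indep {p : V → E} (hP : IsSimplicialPolytope p) {v : V} (hv : p v = 0)
    {σ : Finset V} (h : IsFace p σ) (hvσ : v ∉ σ) (c : V → ℝ) (hc : ∀ a, a ∉ σ → c a = 0)
    (h0 : ∑ a, c a • p a = 0) : c = 0 := by
  obtain ⟨l, hl1, _⟩ := supp_functional hv h hvσ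
  have hσ : ∑ a ∈ σ, c a • p a = 0 := by
    rw [← h0]
    refine Finset.sum_subset (Finset.subset_univ σ) (fun a _ ha => ?_)
    rw [hc a ha, zero_smul]
  have hs : ∑ a ∈ σ, c a = 0 := by
    have h1 := congrArg l hσ
    rw [map_sum, map_zero] at h1
    rw [← h1]
    refine Finset.sum_congr rfl (fun a ha => ?_)
    rw [map_smul, hl1 a ha, smul_eq_mul, mul_one]
  have haff := hP.simplicial σ h
  rw [affineIndependent_iff] at haff
  have h2 := haff Finset.univ (fun x => c x.1) (by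
    rw [← hs, ← Finset.sum_coe_sort σ]) (by
    rw [← hσ, ← Finset.sum_coe_sort σ])
  funext a
  by_cases ha : a ∈ σ
  · exact h2 ⟨a, ha⟩ (Finset.mem_univ _)
  · exact hc a ha

/-- the family over the face is linearly independent -/
theorem B_linInd {p : V → E} (hP : IsSimplicialPolytope p) {v : V} (hv : p v = 0)
    {σ : Finset V} (h : IsFace p σ) (hvσ : v ∉ σ) :
    LinearIndependent ℝ (fun a : {x // x ∈ σ} => p a.1) := by
  rw [Fintype.linearIndependent_iff]
  intro g hg i
  have h1 := lin_indep hP hv h hvσ (fun a => if ha : a ∈ σ then g ⟨a, ha⟩ else 0)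
    (fun a ha => by simp [ha]) (by
      rw [← hg, ← Finset.sum_subset (Finset.subset_univ σ), ← Finset.sum_coe_sort σ]
      · refine Finset.sum_congr rfl (fun a _ => ?_)
        simp
      · intro a _ ha
        simp [ha])
  have h2 := congrFun h1 i.1
  simpa using h2

theorem interp {p : V → E} (hP : IsSimplicialPolytope p) {v : V} (hv : p v = 0)
    {σ : Finset V} (h : IsFace p σ) (hvσ : v ∉ σ) (f : V → ℝ) :
    ∃ l : E →ₗ[ℝ] ℝ, ∀ a ∈ σ, l (p a) = f a := by
  have hli := B_linInd hP hv h hvσ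
  obtain ⟨l, hl⟩ := LinearMap.exists_extend (p := Submodule.span ℝ (Set.range
    (fun a : {x // x ∈ σ} => p a.1))) ((Module.Basis.span hli).constr ℝ
      (fun a : {x // x ∈ σ} => f a.1))
  refine ⟨l, fun a ha => ?_⟩
  have h1 := LinearMap.congr_fun hl (Module.Basis.span hli ⟨a, ha⟩)
  rw [LinearMap.comp_apply, Module.Basis.constr_basis, Submodule.subtype_apply,
    Module.Basis.span_apply] at h1
  exact h1

theorem face_card_le {p : V → E} (hP : IsSimplicialPolytope p) {v : V} (hv : p v = 0)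
    {σ : Finset V} (h : IsFace p σ) (hvσ : v ∉ σ) : σ.card ≤ 4 := by
  have h1 := (B_linInd hP hv h hvσ).fintype_card_le_finrank
  simpa using h1

theorem coords {p : V → E} (hP : IsSimplicialPolytope p) {v : V} (hv : p v = 0)
    {σ : Finset V} (h : IsFace p σ) (hvσ : v ∉ σ) (h4 : σ.card = 4) (x : E) :
    ∃ c : V → ℝ, (∀ a, a ∉ σ → c a = 0) ∧ x = ∑ a, c a • p a := by
  have hli := B_linInd hP hv h hvσ
  have htop : Submodule.span ℝ (Set.range (fun a : {x // x ∈ σ} => p a.1)) = ⊤ := by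
    apply hli.span_eq_top_of_card_eq_finrank'
    simp [h4]
  have hx : x ∈ Submodule.span ℝ (Set.range (fun a : {x // x ∈ σ} => p a.1)) := by
    rw [htop]; trivial
  rw [Submodule.mem_span_range_iff_exists_fun] at hx
  obtain ⟨g, hg⟩ := hx
  refine ⟨fun a => if ha : a ∈ σ then g ⟨a, ha⟩ else 0, fun a ha => by simp [ha], ?_⟩
  rw [← hg, ← Finset.sum_subset (Finset.subset_univ σ), ← Finset.sum_coe_sort σ]
  · refine Finset.sum_congr rfl (fun a _ => ?_)
    simp
  · intro a _ ha
    simp [ha]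

theorem cone_unique {p : V → E} {v : V} (hv : p v = 0) {σ σ' : Finset V}
    (h : IsFace p σ) (hvσ : v ∉ σ) (h' : IsFace p σ') (hvσ' : v ∉ σ')
    (m m' : V → ℝ) (hm : ∀ a ∈ σ, 0 < m a) (hm0 : ∀ a, a ∉ σ → m a = 0)
    (hm' : ∀ a ∈ σ', 0 < m' a) (hm0' : ∀ a, a ∉ σ' → m' a = 0)
    (he : ∑ a, m a • p a = ∑ a, m' a • p a) : σ = σ' := by
  obtain ⟨l, hl1, hl2⟩ := supp_functional hv h hvσ
  obtain ⟨l', hl1', hl2'⟩ := supp_functional hv h' hvσ'
  have hval : ∀ (k : E →ₗ[ℝ] ℝ) (q : V → ℝ), k (∑ a, q a • p a) = ∑ a, q a * k (p a) := by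
    intro k q
    rw [map_sum]
    exact Finset.sum_congr rfl (fun a _ => by rw [map_smul, smul_eq_mul])
  have hnn : ∀ a, 0 ≤ m a := fun a => by
    by_cases ha : a ∈ σ
    · exact (hm a ha).le
    · exact (hm0 a ha).ge
  have hnn' : ∀ a, 0 ≤ m' a := fun a => by
    by_cases ha : a ∈ σ'
    · exact (hm' a ha).le
    · exact (hm0' a ha).ge
  have hle : ∀ a, l (p a) ≤ 1 := fun a => by
    by_cases ha : a ∈ σ
    · exact (hl1 a ha).le
    · exact (hl2 a ha).le
  have hle' : ∀ a, l' (p a) ≤ 1 := fun a => by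
    by_cases ha : a ∈ σ'
    · exact (hl1' a ha).le
    · exact (hl2' a ha).le
  have e1 : ∑ a, m a * l (p a) = ∑ a, m a := by
    refine Finset.sum_congr rfl (fun a _ => ?_)
    by_cases ha : a ∈ σ
    · rw [hl1 a ha, mul_one]
    · rw [hm0 a ha, zero_mul]
  have e2 : ∑ a, m' a * l' (p a) = ∑ a, m' a := by
    refine Finset.sum_congr rfl (fun a _ => ?_)
    by_cases ha : a ∈ σ'
    · rw [hl1' a ha, mul_one]
    · rw [hm0' a ha, zero_mul]
  have e3 : ∑ a, m a * l (p a) = ∑ a, m' a * l (p a) := by rw [← hval, ← hval, he]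
  have e4 : ∑ a, m a * l' (p a) = ∑ a, m' a * l' (p a) := by rw [← hval, ← hval, he]
  have b1 : ∑ a, m' a * l (p a) ≤ ∑ a, m' a :=
    Finset.sum_le_sum (fun a _ => mul_le_of_le_one_right (hnn' a) (hle a))
  have b2 : ∑ a, m a * l' (p a) ≤ ∑ a, m a :=
    Finset.sum_le_sum (fun a _ => mul_le_of_le_one_right (hnn a) (hle' a))
  apply Finset.Subset.antisymm
  · intro a ha
    by_contra hna
    have : ∑ a, m a * l' (p a) < ∑ a, m a := by
      refine Finset.sum_lt_sum (fun a _ => mul_le_of_le_one_right (hnn a) (hle' a))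
        ⟨a, Finset.mem_univ a, ?_⟩
      have := mul_lt_mul_of_pos_left (hl2' a hna) (hm a ha)
      linarith
    linarith
  · intro a ha
    by_contra hna
    have : ∑ a, m' a * l (p a) < ∑ a, m' a := by
      refine Finset.sum_lt_sum (fun a _ => mul_le_of_le_one_right (hnn' a) (hle a))
        ⟨a, Finset.mem_univ a, ?_⟩
      have := mul_lt_mul_of_pos_left (hl2 a hna) (hm' a ha)
      linarith
    linarith

end Pool.Agent.TH47.Lev
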