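import Pool.Agent.TH47.Lev.J_D

set_option autoImplicit false
set_option linter.unusedSectionVars false
set_option linter.unusedVariables false

namespace Pool.Agent.TH47.Lev

open Finset Filter Topology

variable {V : Type} [Fintype V] [DecidableEq V]

open J_D in
/-- a representation with minimal sum of coefficients -/
theorem J_C.exists_min {p : V → E} {x : E} (hx : x ∈ cone p) :
    ∃ m : V → ℝ, (∀ a, 0 ≤ m a) ∧ x = ∑ a, m a • p a ∧
      ∀ m' : V → ℝ, (∀ a, 0 ≤ m' a) → x = ∑ a, m' a • p a → ∑ a, m a ≤ ∑ a, m' a := by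
  obtain ⟨m0, hm0, hx0⟩ := hx
  set K : Set (V → ℝ) := Set.Icc 0 (fun _ => ∑ a, m0 a) ∩ {m | x = ∑ a, m a • p a} with hK
  have hKc : IsCompact K := by
    apply isCompact_Icc.inter_right
    exact isClosed_eq continuous_const (by fun_prop)
  have hle : ∀ m : V → ℝ, (∀ a, 0 ≤ m a) → ∑ a, m a ≤ ∑ a, m0 a →
      m ∈ Set.Icc (0 : V → ℝ) (fun _ => ∑ a, m0 a) := by
    intro m hm hs
    refine ⟨hm, fun a => ?_⟩
    exact (Finset.single_le_sum (fun b _ => hm b) (Finset.mem_univ a)).trans hs
  have hne : K.Nonempty := ⟨m0, hle m0 hm0 le_rfl, hx0⟩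
  obtain ⟨m, hm, hmin⟩ := hKc.exists_isMinOn hne
    (f := fun m : V → ℝ => ∑ a, m a) (by fun_prop)
  refine ⟨m, hm.1.1, hm.2, ?_⟩
  intro m' hm' hx'
  by_cases hs : ∑ a, m' a ≤ ∑ a, m0 a
  · exact hmin ⟨hle m' hm' hs, hx'⟩
  · push Not at hs
    exact (hmin (⟨hle m0 hm0 le_rfl, hx0⟩ : m0 ∈ K)).trans hs.le

/-- points of the convex hull -/
theorem J_C.hull_rep {p : V → E} {y : E} (hy : y ∈ convexHull ℝ (Set.range p)) :
    ∃ w : V → ℝ, (∀ a, 0 ≤ w a) ∧ ∑ a, w a = 1 ∧ y = ∑ a, w a • p a := by
  have hsub : convexHull ℝ (Set.range p) ⊆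
      {y | ∃ w : V → ℝ, (∀ a, 0 ≤ w a) ∧ ∑ a, w a = 1 ∧ y = ∑ a, w a • p a} := by
    apply convexHull_min
    · rintro _ ⟨b, rfl⟩
      refine ⟨Pi.single b 1, fun a => ?_, ?_, ?_⟩
      · by_cases h : a = b
        · subst h; simp
        · simp [Pi.single_eq_of_ne h]
      · simp
      · rw [Finset.sum_eq_single b]
        · simp
        · intro a _ ha
          simp [Pi.single_eq_of_ne ha]
        · intro h
          exact absurd (Finset.mem_univ b) h
    · rintro _ ⟨w, hw, hw1, rfl⟩ _ ⟨w', hw', hw1', rfl⟩ s t hs ht hst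
      refine ⟨fun a => s * w a + t * w' a, fun a => ?_, ?_, ?_⟩
      · have := mul_nonneg hs (hw a)
        have := mul_nonneg ht (hw' a)
        positivity
      · rw [Finset.sum_add_distrib, ← Finset.mul_sum, ← Finset.mul_sum, hw1, hw1']
        linarith
      · rw [Finset.smul_sum, Finset.smul_sum, ← Finset.sum_add_distrib]
        exact Finset.sum_congr rfl fun i _ => by rw [add_smul, mul_smul, mul_smul]
  exact hsub hy

open J_D in
theorem cone_cover {p : V → E} (hP : IsSimplicialPolytope p) {v : V} (hv : p v = 0)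
    {x : E} (hx : x ∈ interior (cone p)) :
    ∃ (σ : Finset V) (m : V → ℝ), IsFace p σ ∧ v ∉ σ ∧ (∀ a ∈ σ, 0 < m a) ∧
      (∀ a, a ∉ σ → m a = 0) ∧ x = ∑ a, m a • p a := by
  obtain ⟨m, hm, hxm, hmin⟩ := J_C.exists_min (interior_subset hx)
  set M := ∑ a, m a with hM
  -- the coefficient of the origin vanishes
  have hmv : m v = 0 := by
    have h1 := hmin (Function.update m v 0) ?_ ?_
    · rw [hM, ← Finset.add_sum_erase _ m (Finset.mem_univ v),
        ← Finset.add_sum_erase _ (Function.update m v 0) (Finset.mem_univ v)] at h1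
      have h2 : ∑ a ∈ Finset.univ.erase v, Function.update m v 0 a
          = ∑ a ∈ Finset.univ.erase v, m a := by
        refine Finset.sum_congr rfl fun a ha => ?_
        rw [Function.update_of_ne (Finset.ne_of_mem_erase ha)]
      rw [h2, Function.update_self] at h1
      have := hm v
      linarith
    · intro a
      by_cases ha : a = v
      · subst ha; simp
      · rw [Function.update_of_ne ha]; exact hm a
    · rw [hxm]
      refine Finset.sum_congr rfl fun a _ => ?_
      by_cases ha : a = v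
      · subst ha; rw [hv]; simp
      · rw [Function.update_of_ne ha]
  -- the candidate
  suffices hk : ∃ k : E →ₗ[ℝ] ℝ, (∀ a, k (p a) ≤ 1) ∧ k x = M ∨ M = 0 by
    obtain ⟨k, hk⟩ := hk
    rcases hk with ⟨hk1, hk2⟩ | hM0
    · have hF : IsFace p (Finset.univ.filter (fun a => k (p a) = 1)) := by
        refine ⟨?_, k, 1, ?_, ?_⟩
        · intro hu
          have h1 := Finset.mem_univ v
          rw [← hu, Finset.mem_filter, hv, map_zero] at h1
          exact absurd h1.2 (by norm_num)
        · intro a ha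
          exact (Finset.mem_filter.1 ha).2
        · intro a ha
          refine lt_of_le_of_ne (hk1 a) fun h => ha (Finset.mem_filter.2 ⟨Finset.mem_univ a, h⟩)
      have h1 : ∑ a, m a * (1 - k (p a)) = 0 := by
        have h2 : k x = ∑ a, m a * k (p a) := by
          conv_lhs => rw [hxm]
          exact apply_sum k p m
        have h3 : ∑ a, m a * (1 - k (p a)) = M - ∑ a, m a * k (p a) := by
          rw [hM, ← Finset.sum_sub_distrib]
          exact Finset.sum_congr rfl fun a _ => by ring
        rw [h3, ← h2, hk2]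
        ring
      have h2 := (Finset.sum_eq_zero_iff_of_nonneg
        (fun a _ => mul_nonneg (hm a) (sub_nonneg.2 (hk1 a)))).1 h1
      refine ⟨Finset.univ.filter (fun a => 0 < m a), m, ?_, ?_, ?_, ?_, hxm⟩
      · refine face_mono hP hF fun a ha => ?_
        rw [Finset.mem_filter] at ha ⊢
        refine ⟨ha.1, ?_⟩
        have h3 := h2 a (Finset.mem_univ a)
        rcases mul_eq_zero.1 h3 with h4 | h4
        · exact absurd h4 ha.2.ne'
        · linarith
      · rw [Finset.mem_filter, hmv]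
        simp
      · intro a ha
        exact (Finset.mem_filter.1 ha).2
      · intro a ha
        by_contra h3
        exact ha (Finset.mem_filter.2 ⟨Finset.mem_univ a, lt_of_le_of_ne (hm a) (Ne.symm h3)⟩)
    · have h0 : ∀ a, m a = 0 := fun a =>
        (Finset.sum_eq_zero_iff_of_nonneg (fun a _ => hm a)).1 (hM ▸ hM0) a (Finset.mem_univ a)
      refine ⟨∅, m, ?_, by simp, by simp, fun a _ => h0 a, hxm⟩
      refine ⟨?_, 0, 1, by simp, by simp⟩
      intro he
      have := Finset.mem_univ v
      rw [← he] at this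
      simp at this
  by_cases hM0 : M = 0
  · exact ⟨0, Or.inr hM0⟩
  have hMpos : 0 < M := lt_of_le_of_ne (Finset.sum_nonneg fun a _ => hm a) (Ne.symm hM0)
  set P := convexHull ℝ (Set.range p) with hPdef
  have h0P : (0 : E) ∈ P := subset_convexHull ℝ _ ⟨v, hv⟩
  have hxs : M⁻¹ • x ∉ interior P := by
    intro hi
    -- a slightly larger multiple lies in `P`
    have h1 : Tendsto (fun ε : ℝ => (1 + ε) • (M⁻¹ • x)) (𝓝[>] 0) (𝓝 (M⁻¹ • x)) := by
      have h2 : Continuous (fun ε : ℝ => (1 + ε) • (M⁻¹ • x)) := by fun_prop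
      have h3 := h2.tendsto 0
      rw [add_zero, one_smul] at h3
      exact h3.mono_left nhdsWithin_le_nhds
    have h4 := h1.eventually (mem_interior_iff_mem_nhds.1 hi)
    obtain ⟨ε, h5, h6⟩ := (h4.and self_mem_nhdsWithin).exists
    have h6' : 0 < ε := h6
    obtain ⟨w, hw, hw1, hwx⟩ := J_C.hull_rep (p := p) (y := (1 + ε) • (M⁻¹ • x)) h5
    have hε : (1 + ε) ≠ 0 := by positivity
    have h7 : x = ∑ a, (M / (1 + ε) * w a) • p a := by
      have h8 : x = (M / (1 + ε)) • ((1 + ε) • (M⁻¹ • x)) := by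
        rw [smul_smul, smul_smul]
        have : M / (1 + ε) * (1 + ε) * M⁻¹ = 1 := by field_simp
        rw [this, one_smul]
      rw [hwx, Finset.smul_sum] at h8
      rw [h8]
      exact Finset.sum_congr rfl fun a _ => by rw [smul_smul]
    have h9 := hmin _ (fun a => mul_nonneg (by positivity) (hw a)) h7
    rw [← Finset.mul_sum, hw1, mul_one, le_div_iff₀ (by positivity)] at h9
    nlinarith
  obtain ⟨k, hk⟩ := geometric_hahn_banach_open_point (convex_convexHull ℝ _).interior
    isOpen_interior hxs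
  obtain ⟨z, hz⟩ := hull_interior_nonempty hP
  have h1 : ∀ y ∈ P, k y ≤ k (M⁻¹ • x) := by
    intro y hy
    have h2 : Tendsto (fun t : ℝ => k ((1 - t) • y + t • z)) (𝓝[>] 0) (𝓝 (k y)) := by
      have h3 : Continuous (fun t : ℝ => k ((1 - t) • y + t • z)) := by fun_prop
      have h4 := h3.tendsto 0
      rw [sub_zero, one_smul, zero_smul, add_zero] at h4
      exact h4.mono_left nhdsWithin_le_nhds
    refine le_of_tendsto h2 ?_
    have h5 : ∀ᶠ t : ℝ in 𝓝[>] 0, t < 1 :=
      nhdsWithin_le_nhds (gt_mem_nhds one_pos)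
    filter_upwards [h5, self_mem_nhdsWithin] with t ht1 ht0
    have ht0' : 0 < t := ht0
    exact (hk _ ((convex_convexHull ℝ _).combo_self_interior_mem_interior hy hz
      (by linarith) ht0' (by ring))).le
  set c := k (M⁻¹ • x) with hc
  have hkx : k x = M * c := by
    rw [hc, map_smul, smul_eq_mul]
    field_simp
  have hc0 : 0 ≤ c := by
    have := h1 0 h0P
    rwa [map_zero] at this
  have hpa : ∀ a, k (p a) ≤ c := fun a => h1 _ (subset_convexHull ℝ _ ⟨a, rfl⟩)
  have hcne : c ≠ 0 := by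
    intro h0
    have h2 : (k : E →L[ℝ] ℝ).toLinearMap = 0 := by
      refine eq_zero_of_interior hx ?_ ?_
      · change k x = 0
        rw [hkx, h0, mul_zero]
      · rintro _ ⟨m', hm', rfl⟩
        rw [apply_sum]
        refine Finset.sum_nonpos fun a _ => mul_nonpos_of_nonneg_of_nonpos (hm' a) ?_
        have := hpa a
        rw [h0] at this
        exact this
    have h3 := hk z hz
    rw [h0] at h3
    have h4 : k z = 0 := congrArg (fun f : E →ₗ[ℝ] ℝ => f z) h2
    rw [h4] at h3
    exact lt_irrefl _ h3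
  have hcpos : 0 < c := lt_of_le_of_ne hc0 (Ne.symm hcne)
  refine ⟨c⁻¹ • (k : E →L[ℝ] ℝ).toLinearMap, Or.inl ⟨fun a => ?_, ?_⟩⟩
  · change c⁻¹ * k (p a) ≤ 1
    rw [inv_mul_le_iff₀ hcpos, mul_one]
    exact hpa a
  · change c⁻¹ * k x = M
    rw [hkx]
    field_simp

end Pool.Agent.TH47.Lev
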