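import Pool.Agent.TH47.Lev.Defs
import Pool.Agent.TH47.Lev.J_A

set_option autoImplicit false
set_option linter.unusedSectionVars false
set_option linter.unusedVariables false

namespace Pool.Agent.TH47.Lev

open Finset Filter Topology

variable {V : Type} [Fintype V] [DecidableEq V]

/-! ### cones -/

omit [DecidableEq V] in
theorem J_D.mem_cone {p : V → E} {m : V → ℝ} (hm : ∀ a, 0 ≤ m a) : ∑ a, m a • p a ∈ cone p :=
  ⟨m, hm, rfl⟩

omit [DecidableEq V] in
theorem J_D.cone_convex (p : V → E) : Convex ℝ (cone p) := by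
  rintro x ⟨m, hm, rfl⟩ y ⟨m', hm', rfl⟩ a b ha hb _
  refine ⟨fun i => a * m i + b * m' i, fun i => ?_, ?_⟩
  · have := mul_nonneg ha (hm i)
    have := mul_nonneg hb (hm' i)
    positivity
  · rw [Finset.smul_sum, Finset.smul_sum, ← Finset.sum_add_distrib]
    exact Finset.sum_congr rfl fun i _ => by rw [add_smul, mul_smul, mul_smul]

omit [DecidableEq V] in
theorem J_D.zero_mem_cone (p : V → E) : (0 : E) ∈ cone p :=
  ⟨0, fun _ => le_refl _, by simp⟩

omit [DecidableEq V] in
theorem J_D.smul_mem_cone {p : V → E} {x : E} (hx : x ∈ cone p) {t : ℝ} (ht : 0 ≤ t) :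
    t • x ∈ cone p := by
  obtain ⟨m, hm, rfl⟩ := hx
  refine ⟨fun a => t * m a, fun a => mul_nonneg ht (hm a), ?_⟩
  rw [Finset.smul_sum]
  exact Finset.sum_congr rfl fun i _ => by rw [mul_smul]

theorem J_D.pt_mem_cone (p : V → E) (a : V) : p a ∈ cone p := by
  refine ⟨Pi.single a 1, fun b => ?_, ?_⟩
  · by_cases h : b = a
    · subst h; simp
    · simp [Pi.single_eq_of_ne h]
  · rw [Finset.sum_eq_single a]
    · simp
    · intro b _ hb
      simp [Pi.single_eq_of_ne hb]
    · intro h
      exact absurd (Finset.mem_univ a) h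

theorem J_D.hull_subset_cone (p : V → E) : convexHull ℝ (Set.range p) ⊆ cone p := by
  apply convexHull_min _ (cone_convex p)
  rintro _ ⟨a, rfl⟩
  exact pt_mem_cone p a

theorem J_D.hull_interior_nonempty {p : V → E} (hP : IsSimplicialPolytope p) :
    (interior (convexHull ℝ (Set.range p))).Nonempty :=
  interior_convexHull_nonempty_iff_affineSpan_eq_top.2 hP.spans

theorem J_D.cone_interior_nonempty {p : V → E} (hP : IsSimplicialPolytope p) :
    (interior (cone p)).Nonempty :=
  (hull_interior_nonempty hP).mono (interior_mono (hull_subset_cone p))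

/-- a linear functional which is nonpositive near a zero vanishes -/
theorem J_D.eq_zero_of_interior {S : Set E} {f : E →ₗ[ℝ] ℝ} {x : E} (hx : x ∈ interior S)
    (hfx : f x = 0) (hf : ∀ y ∈ S, f y ≤ 0) : f = 0 := by
  have key : ∀ y : E, f y ≤ 0 := by
    intro y
    have h1 : Tendsto (fun ε : ℝ => x + ε • y) (𝓝[>] 0) (𝓝 x) := by
      have h2 : Continuous (fun ε : ℝ => x + ε • y) := by fun_prop
      have h3 := h2.tendsto 0
      rw [zero_smul, add_zero] at h3
      exact h3.mono_left nhdsWithin_le_nhds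
    have h4 := h1.eventually (mem_interior_iff_mem_nhds.1 hx)
    obtain ⟨ε, h5, h6⟩ := (h4.and self_mem_nhdsWithin).exists
    have h7 := hf _ h5
    rw [map_add, hfx, map_smul, zero_add, smul_eq_mul] at h7
    have h8 : 0 < ε := h6
    by_contra hc
    push Not at hc
    have := mul_pos h8 hc
    linarith
  refine LinearMap.ext fun y => le_antisymm (key y) ?_
  have h := key (-y)
  rw [map_neg] at h
  rw [LinearMap.zero_apply]
  linarith

omit [DecidableEq V] in
theorem J_D.apply_sum (f : E →ₗ[ℝ] ℝ) (p : V → E) (m : V → ℝ) :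
    f (∑ a, m a • p a) = ∑ a, m a * f (p a) := by
  rw [map_sum]
  exact Finset.sum_congr rfl fun a _ => by rw [map_smul, smul_eq_mul]

open J_D in
theorem interior_face {p : V → E} (hP : IsSimplicialPolytope p) {v : V} (hv : p v = 0)
    {σ : Finset V} (h : IsFace p σ) (hvσ : v ∉ σ) (hi : ¬ IsFace p (insert v σ)) :
    ∑ a ∈ σ, p a ∈ interior (cone p) := by
  by_contra hq
  obtain ⟨f, hf⟩ := geometric_hahn_banach_open_point (cone_convex p).interior isOpen_interior hq
  obtain ⟨z, hz⟩ := cone_interior_nonempty hP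
  set q := ∑ a ∈ σ, p a with hqdef
  have hqc : q ∈ cone p := by
    refine ⟨fun a => if a ∈ σ then 1 else 0, fun a => ?_, ?_⟩
    · change (0 : ℝ) ≤ if a ∈ σ then 1 else 0
      split_ifs <;> norm_num
    · rw [hqdef]
      simp
  -- `f ≤ 0` on the cone
  have h1 : ∀ y ∈ cone p, f y ≤ 0 := by
    intro y hy
    by_contra hc
    push Not at hc
    set t : ℝ := max 0 ((2 * f q - f z) / f y) with ht
    have ht0 : 0 ≤ t := le_max_left _ _
    have h2 : (1 / 2 : ℝ) • (t • y) + (1 / 2 : ℝ) • z ∈ interior (cone p) :=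
      (cone_convex p).combo_self_interior_mem_interior (smul_mem_cone hy ht0) hz
        (by norm_num) (by norm_num) (by norm_num)
    have h3 := hf _ h2
    rw [map_add, map_smul, map_smul, map_smul, smul_eq_mul, smul_eq_mul, smul_eq_mul] at h3
    have h4 : (2 * f q - f z) / f y ≤ t := le_max_right _ _
    rw [div_le_iff₀ hc] at h4
    linarith
  have h2 : 0 ≤ f q := by
    by_contra hc
    push Not at hc
    have hz0 : f z ≤ 0 := h1 z (interior_subset hz)
    -- choose small t
    set t : ℝ := min 1 (f q / (2 * (f z - 1))) with ht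
    have hd : 2 * (f z - 1) < 0 := by linarith
    have hpos : 0 < f q / (2 * (f z - 1)) := div_pos_of_neg_of_neg hc hd
    have ht0 : 0 < t := lt_min one_pos hpos
    have ht1 : t ≤ 1 := min_le_left _ _
    have h3 : (1 - t) • (0 : E) + t • z ∈ interior (cone p) :=
      (cone_convex p).combo_self_interior_mem_interior (zero_mem_cone p) hz
        (by linarith) ht0 (by ring)
    have h4 := hf _ h3
    rw [smul_zero, zero_add, map_smul, smul_eq_mul] at h4
    have h5 : t ≤ f q / (2 * (f z - 1)) := min_le_right _ _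
    have h6 : t * (2 * (f z - 1)) ≥ f q := by
      have := mul_le_mul_of_nonpos_right h5 hd.le
      rwa [div_mul_cancel₀ _ hd.ne] at this
    nlinarith
  have h3 : f q = 0 := le_antisymm (h1 q hqc) h2
  have h4 : ∀ a ∈ σ, f (p a) = 0 := by
    have h5 : ∑ a ∈ σ, f (p a) = 0 := by rw [← map_sum]; exact h3
    exact (Finset.sum_eq_zero_iff_of_nonpos (fun a _ => h1 _ (pt_mem_cone p a))).1 h5
  have hF : IsFace p (Finset.univ.filter (fun a => f (p a) = 0)) := by
    refine ⟨?_, (f : E →L[ℝ] ℝ).toLinearMap, 0, ?_, ?_⟩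
    · intro hu
      have h6 : ∀ a, f (p a) = 0 := fun a => by
        have := Finset.mem_univ a
        rw [← hu, Finset.mem_filter] at this
        exact this.2
      obtain ⟨m, hm, hzm⟩ := interior_subset hz
      have h7 : f z = 0 := by
        rw [hzm]
        have := apply_sum (f : E →L[ℝ] ℝ).toLinearMap p m
        refine this.trans ?_
        exact Finset.sum_eq_zero fun a _ => by
          change m a * f (p a) = 0
          rw [h6 a, mul_zero]
      have h8 := hf z hz
      rw [h7, h3] at h8
      exact lt_irrefl _ h8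
    · intro a ha
      exact (Finset.mem_filter.1 ha).2
    · intro a ha
      have h5 : f (p a) ≠ 0 := fun h6 => ha (Finset.mem_filter.2 ⟨Finset.mem_univ a, h6⟩)
      exact lt_of_le_of_ne (h1 _ (pt_mem_cone p a)) h5
  refine hi (face_mono hP hF ?_)
  intro a ha
  rw [Finset.mem_insert] at ha
  rw [Finset.mem_filter]
  refine ⟨Finset.mem_univ a, ?_⟩
  rcases ha with rfl | ha
  · rw [hv, map_zero]
  · exact h4 a ha

open J_D in
theorem not_face_of_interior {p : V → E} (hP : IsSimplicialPolytope p) {v : V} (hv : p v = 0)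
    {σ : Finset V} (m : V → ℝ) (hm : ∀ a ∈ σ, 0 < m a) (hm0 : ∀ a, a ∉ σ → m a = 0)
    (hx : ∑ a, m a • p a ∈ interior (cone p)) : ¬ IsFace p (insert v σ) := by
  rintro ⟨hne, f, b, h1, h2⟩
  have hb : b = 0 := by
    have := h1 v (Finset.mem_insert_self v σ)
    rw [hv, map_zero] at this
    exact this.symm
  subst hb
  have h3 : ∀ a, f (p a) ≤ 0 := by
    intro a
    by_cases ha : a ∈ insert v σ
    · exact (h1 a ha).le
    · exact (h2 a ha).le
  have hf : f = 0 := by
    refine eq_zero_of_interior hx ?_ ?_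
    · rw [apply_sum]
      refine Finset.sum_eq_zero fun a _ => ?_
      by_cases ha : a ∈ σ
      · rw [h1 a (Finset.mem_insert_of_mem ha), mul_zero]
      · rw [hm0 a ha, zero_mul]
    · rintro _ ⟨m', hm', rfl⟩
      rw [apply_sum]
      exact Finset.sum_nonpos fun a _ => mul_nonpos_of_nonneg_of_nonpos (hm' a) (h3 a)
  obtain ⟨a, ha⟩ : ∃ a, a ∉ insert v σ := by
    by_contra hc
    push Not at hc
    exact hne (Finset.eq_univ_iff_forall.2 hc)
  have := h2 a ha
  rw [hf] at this
  simp at this

end Pool.Agent.TH47.Lev
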