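import Pool.Agent.TH47.Lev.Defs
import Pool.Agent.TH47.Lev.J_A
import Pool.Agent.TH47.Lev.J_C
import Pool.Agent.TH47.Lev.J_D

set_option autoImplicit false

/-!
# LEV-E: link_cover and link_cover' (job 1208)
-/

namespace Pool.Agent.TH47.Lev

open MvPolynomial Finset

variable {V : Type} [Fintype V] [DecidableEq V]

/-- link cover -/
theorem link_cover {p : V → E} (hP : IsSimplicialPolytope p) {v : V} (hv : p v = 0)
    {σ : Finset V} (h : IsFace p σ) (hvσ : v ∉ σ) (t : E)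
    (ht : ∃ ε₀ : ℝ, 0 < ε₀ ∧ ∀ ε : ℝ, 0 < ε → ε < ε₀ →
      (∑ a ∈ σ, p a) + ε • t ∈ interior (cone p)) :
    ∃ (F : Finset V) (m : V → ℝ), IsFace p F ∧ v ∉ F ∧ σ ⊆ F ∧ (∀ a ∈ F, a ∉ σ → 0 < m a) ∧
      (∀ a, a ∉ F → m a = 0) ∧ t = ∑ a, m a • p a := by
  obtain ⟨ε₀, hε₀, hint⟩ := ht
  obtain ⟨l, hl1, hl2⟩ := supp_functional hv h hvσ
  set q : E := ∑ a ∈ σ, p a with hq
  have hlq : l q = (σ.card : ℝ) := by
    rw [hq, map_sum, Finset.sum_congr rfl hl1]
    simp
  -- the key property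
  have hkey : ∀ F : Finset V, ∀ᶠ ε in nhdsWithin (0 : ℝ) (Set.Ioi 0),
      ∀ m : V → ℝ, IsFace p F → v ∉ F → (∀ a ∈ F, 0 < m a) → (∀ a, a ∉ F → m a = 0) →
        q + ε • t = ∑ a, m a • p a → σ ⊆ F := by
    intro F
    by_cases hF : IsFace p F ∧ v ∉ F ∧ ¬ σ ⊆ F
    · obtain ⟨hF1, hF2, hF3⟩ := hF
      obtain ⟨l', hl1', hl2'⟩ := supp_functional hv hF1 hF2
      have hle' : ∀ a, l' (p a) ≤ 1 := by
        intro a
        by_cases ha : a ∈ F
        · exact (hl1' a ha).le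
        · exact (hl2' a ha).le
      have hle : ∀ a, l (p a) ≤ 1 := by
        intro a
        by_cases ha : a ∈ σ
        · exact (hl1 a ha).le
        · exact (hl2 a ha).le
      have hlt : l' q < l q := by
        rw [hlq, hq, map_sum]
        obtain ⟨a, haσ, haF⟩ := Finset.not_subset.1 hF3
        calc ∑ a ∈ σ, l' (p a) < ∑ _a ∈ σ, (1 : ℝ) :=
              Finset.sum_lt_sum (fun a _ => hle' a) ⟨a, haσ, hl2' a haF⟩
          _ = σ.card := by simp
      have hcont : Continuous (fun ε : ℝ => l (q + ε • t) - l' (q + ε • t)) := by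
        have e : (fun ε : ℝ => l (q + ε • t) - l' (q + ε • t)) =
            fun ε : ℝ => (l q + ε * l t) - (l' q + ε * l' t) := by
          funext ε
          rw [map_add, map_add, map_smul, map_smul, smul_eq_mul, smul_eq_mul]
        rw [e]
        fun_prop
      have h0 : 0 < l (q + (0 : ℝ) • t) - l' (q + (0 : ℝ) • t) := by
        rw [zero_smul, add_zero]; linarith
      have hev : ∀ᶠ ε in nhds (0 : ℝ), 0 < l (q + ε • t) - l' (q + ε • t) :=
        hcont.continuousAt.eventually_const_lt h0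
      filter_upwards [hev.filter_mono nhdsWithin_le_nhds] with ε hε m _ _ hm hm0 hx
      exfalso
      have h1 : l (q + ε • t) ≤ l' (q + ε • t) := by
        rw [hx, map_sum, map_sum]
        apply Finset.sum_le_sum
        intro a _
        rw [map_smul, map_smul, smul_eq_mul, smul_eq_mul]
        by_cases ha : a ∈ F
        · rw [hl1' a ha]
          exact mul_le_mul_of_nonneg_left (hle a) (hm a ha).le
        · rw [hm0 a ha, zero_mul, zero_mul]
      linarith
    · filter_upwards with ε m h1 h2 _ _ _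
      by_contra h3
      exact hF ⟨h1, h2, h3⟩
  have hall : ∀ᶠ ε in nhdsWithin (0 : ℝ) (Set.Ioi 0), ∀ F : Finset V,
      ∀ m : V → ℝ, IsFace p F → v ∉ F → (∀ a ∈ F, 0 < m a) → (∀ a, a ∉ F → m a = 0) →
        q + ε • t = ∑ a, m a • p a → σ ⊆ F := Filter.eventually_all.2 hkey
  have hsmall : ∀ᶠ ε in nhdsWithin (0 : ℝ) (Set.Ioi 0), ε ∈ Set.Ioo (0 : ℝ) ε₀ :=
    Ioo_mem_nhdsGT hε₀
  obtain ⟨ε, hε1, hε2⟩ := (hall.and hsmall).exists
  obtain ⟨F, m, hF, hvF, hm, hm0, hx⟩ := cone_cover hP hv (hint ε hε2.1 hε2.2)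
  have hσF := hε1 F m hF hvF hm hm0 hx
  have hεne : ε ≠ 0 := hε2.1.ne'
  refine ⟨F, fun a => (m a - if a ∈ σ then 1 else 0) / ε, hF, hvF, hσF, ?_, ?_, ?_⟩
  · intro a ha haσ
    show 0 < (m a - if a ∈ σ then 1 else 0) / ε
    rw [if_neg haσ, sub_zero]
    exact div_pos (hm a ha) hε2.1
  · intro a ha
    have : a ∉ σ := fun h => ha (hσF h)
    show (m a - if a ∈ σ then 1 else 0) / ε = 0
    rw [hm0 a ha, if_neg this, sub_zero, zero_div]
  · have hq' : q = ∑ a, (if a ∈ σ then (1 : ℝ) else 0) • p a := by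
      rw [hq]
      simp only [ite_smul, one_smul, zero_smul]
      rw [Finset.sum_ite_mem, Finset.univ_inter]
    have h1 : ε • t = ∑ a, (m a - if a ∈ σ then 1 else 0) • p a := by
      simp only [sub_smul, Finset.sum_sub_distrib]
      rw [← hq', ← hx]
      exact (add_sub_cancel_left _ _).symm
    have h2 : t = ε⁻¹ • (ε • t) := by rw [smul_smul, inv_mul_cancel₀ hεne, one_smul]
    rw [h2, h1, Finset.smul_sum]
    apply Finset.sum_congr rfl
    intro a _
    rw [smul_smul]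
    show _ = ((m a - if a ∈ σ then 1 else 0) / ε) • p a
    rw [div_eq_inv_mul]

/-- link cover for interior faces -/
theorem link_cover' {p : V → E} (hP : IsSimplicialPolytope p) {v : V} (hv : p v = 0)
    {σ : Finset V} (h : IsFace p σ) (hvσ : v ∉ σ) (hi : ¬ IsFace p (insert v σ)) (t : E) :
    ∃ (F : Finset V) (m : V → ℝ), IsFace p F ∧ v ∉ F ∧ σ ⊆ F ∧ (∀ a ∈ F, a ∉ σ → 0 < m a) ∧
      (∀ a, a ∉ F → m a = 0) ∧ t = ∑ a, m a • p a := by
  apply link_cover hP hv h hvσ t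
  have hq := interior_face hP hv h hvσ hi
  have hcont : Continuous (fun ε : ℝ => (∑ a ∈ σ, p a) + ε • t) := by fun_prop
  have hopen : IsOpen ((fun ε : ℝ => (∑ a ∈ σ, p a) + ε • t) ⁻¹' interior (cone p)) :=
    isOpen_interior.preimage hcont
  have h0 : (0 : ℝ) ∈ ((fun ε : ℝ => (∑ a ∈ σ, p a) + ε • t) ⁻¹' interior (cone p)) := by
    show (∑ a ∈ σ, p a) + (0 : ℝ) • t ∈ interior (cone p)
    rw [zero_smul, add_zero]; exact hq
  obtain ⟨δ, hδ, hball⟩ := Metric.isOpen_iff.1 hopen 0 h0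
  refine ⟨δ, hδ, fun ε h1 h2 => ?_⟩
  have : ε ∈ Metric.ball (0 : ℝ) δ := by
    rw [Metric.mem_ball, Real.dist_eq, sub_zero, abs_of_pos h1]; exact h2
  exact hball this

end Pool.Agent.TH47.Lev
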