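import Pool.Agent.TH47.Lev.Defs
import Pool.Agent.TH47.Lev.J_B
import Pool.Agent.TH47.Lev.J_E

/-!
# Generic points and extension of a face to a facet
-/

namespace Pool.Agent.TH47.Lev

open MvPolynomial Finset

variable {V : Type} [Fintype V] [DecidableEq V]

/-- a point of a given nonempty open set outside all spans of three points -/
theorem J_F_generic (p : V → E) (U : Set E) (hU : IsOpen U) (hne : U.Nonempty) :
    ∃ ξ ∈ U, ∀ S : Finset V, S.card ≤ 3 → ∀ c : V → ℝ, (∀ a, a ∉ S → c a = 0) →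
      ξ ≠ ∑ a, c a • p a := by
  classical
  let μ : MeasureTheory.Measure E := MeasureTheory.volume
  let T : Finset (Finset V) := univ.filter fun S => S.card ≤ 3
  let W : Finset V → Submodule ℝ E := fun S => Submodule.span ℝ (p '' (S : Set V))
  have hW : ∀ S ∈ T, μ (W S : Set E) = 0 := by
    intro S hS
    refine MeasureTheory.Measure.addHaar_submodule μ (W S) ?_
    intro htop
    have h1 : Module.finrank ℝ (W S) ≤ S.card := by
      have h2 : (W S) = Submodule.span ℝ ((S.image p : Finset E) : Set E) := by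
        simp only [W, Finset.coe_image]
      rw [h2]
      exact (finrank_span_finset_le_card (S.image p)).trans Finset.card_image_le
    have h3 : Module.finrank ℝ (W S) = 4 := by
      rw [htop, finrank_top]
      simp [E]
    have h4 : S.card ≤ 3 := (Finset.mem_filter.1 hS).2
    omega
  have hzero : μ (⋃ S ∈ T, (W S : Set E)) = 0 :=
    (MeasureTheory.measure_biUnion_null_iff (s := fun S => (W S : Set E))
      T.countable_toSet).2 hW
  have hpos : 0 < μ U := hU.measure_pos μ hne
  have hex : ∃ ξ ∈ U, ξ ∉ ⋃ S ∈ T, (W S : Set E) := by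
    by_contra hcon
    have hsub : U ⊆ ⋃ S ∈ T, (W S : Set E) := by
      intro ξ hξ
      by_contra h
      exact hcon ⟨ξ, hξ, h⟩
    have h1 := MeasureTheory.measure_mono (μ := μ) hsub
    rw [hzero] at h1
    exact absurd hpos (not_lt.2 h1)
  obtain ⟨ξ, hξU, hξ⟩ := hex
  refine ⟨ξ, hξU, fun S hS c hc he => hξ ?_⟩
  refine Set.mem_biUnion (x := S) (Finset.mem_coe.2 (Finset.mem_filter.2 ⟨mem_univ _, hS⟩)) ?_
  rw [he]
  refine Submodule.sum_mem _ fun a _ => ?_
  by_cases ha : a ∈ S
  · exact Submodule.smul_mem _ _ (Submodule.subset_span ⟨a, ha, rfl⟩)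
  · rw [hc a ha, zero_smul]
    exact Submodule.zero_mem _

theorem generic_point (p : V → E) :
    ∃ ξ : E, ∀ S : Finset V, S.card ≤ 3 → ∀ c : V → ℝ, (∀ a, a ∉ S → c a = 0) →
      ξ ≠ ∑ a, c a • p a := by
  obtain ⟨ξ, -, h⟩ := J_F_generic p Set.univ isOpen_univ ⟨0, trivial⟩
  exact ⟨ξ, h⟩

omit [DecidableEq V] in
theorem J_F_add {p : V → E} {x y : E} (hx : x ∈ cone p) (hy : y ∈ cone p) : x + y ∈ cone p := by
  obtain ⟨m, hm, rfl⟩ := hx
  obtain ⟨n, hn, rfl⟩ := hy
  refine ⟨fun a => m a + n a, fun a => add_nonneg (hm a) (hn a), ?_⟩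
  rw [← Finset.sum_add_distrib]
  exact Finset.sum_congr rfl fun a _ => by rw [add_smul]

omit [DecidableEq V] in
theorem J_F_smul {p : V → E} {x : E} (hx : x ∈ cone p) {r : ℝ} (hr : 0 ≤ r) :
    r • x ∈ cone p := by
  obtain ⟨m, hm, rfl⟩ := hx
  refine ⟨fun a => r * m a, fun a => mul_nonneg hr (hm a), ?_⟩
  rw [Finset.smul_sum]
  exact Finset.sum_congr rfl fun a _ => by rw [mul_smul]

theorem J_F_mem (p : V → E) (a : V) : p a ∈ cone p := by
  refine ⟨Pi.single a 1, fun b => ?_, ?_⟩
  · by_cases h : b = a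
    · subst h; simp
    · simp [Pi.single_eq_of_ne h]
  · rw [Finset.sum_eq_single a]
    · simp
    · intro b _ hb
      rw [Pi.single_eq_of_ne hb, zero_smul]
    · intro h
      exact absurd (mem_univ _) h

theorem J_F_sum (p : V → E) (σ : Finset V) : ∑ a ∈ σ, p a ∈ cone p := by
  induction σ using Finset.induction_on with
  | empty => exact ⟨0, fun _ => le_rfl, by simp⟩
  | insert a s ha ih =>
    rw [Finset.sum_insert ha]
    exact J_F_add (J_F_mem p a) ih

theorem J_F_interior {p : V → E} (hs : affineSpan ℝ (Set.range p) = ⊤) :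
    (interior (cone p)).Nonempty := by
  have h1 : (interior (convexHull ℝ (Set.range p))).Nonempty :=
    interior_convexHull_nonempty_iff_affineSpan_eq_top.2 hs
  refine h1.mono (interior_mono ?_)
  refine convexHull_min ?_ ?_
  · rintro x ⟨a, rfl⟩
    exact J_F_mem p a
  · intro x hx y hy r s hr hs _
    exact J_F_add (J_F_smul hx hr) (J_F_smul hy hs)

omit [DecidableEq V] in
theorem J_F_add_interior {p : V → E} {q t : E} (hq : q ∈ cone p) (ht : t ∈ interior (cone p))
    {ε : ℝ} (hε : 0 < ε) : q + ε • t ∈ interior (cone p) := by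
  rw [mem_interior]
  refine ⟨{z | ε⁻¹ • (z - q) ∈ interior (cone p)}, ?_, ?_, ?_⟩
  · intro z hz
    have h1 : ε⁻¹ • (z - q) ∈ cone p := interior_subset hz
    have h2 := J_F_add hq (J_F_smul h1 hε.le)
    rw [smul_inv_smul₀ hε.ne'] at h2
    rwa [add_sub_cancel] at h2
  · exact isOpen_interior.preimage (by fun_prop)
  · show ε⁻¹ • (q + ε • t - q) ∈ interior (cone p)
    rw [add_sub_cancel_left, inv_smul_smul₀ hε.ne']
    exact ht

theorem extend_face {p : V → E} (hP : IsSimplicialPolytope p) {v : V} (hv : p v = 0)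
    {σ : Finset V} (h : IsFace p σ) (hvσ : v ∉ σ) :
    ∃ F : Finset V, IsFace p F ∧ v ∉ F ∧ σ ⊆ F ∧ F.card = 4 := by
  obtain ⟨t, htU, ht⟩ := J_F_generic p (interior (cone p)) isOpen_interior
    (J_F_interior hP.spans)
  obtain ⟨F, m, hF, hvF, hσF, -, hm0, htm⟩ := link_cover hP hv h hvσ t
    ⟨1, one_pos, fun ε hε _ => J_F_add_interior (J_F_sum p σ) htU hε⟩
  refine ⟨F, hF, hvF, hσF, ?_⟩
  have h4 := face_card_le hP hv hF hvF
  by_contra hne
  exact ht F (by omega) m hm0 htm

end Pool.Agent.TH47.Lev
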