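import Pool.Agent.TH47.Lev.Defs
import Pool.Agent.TH47.Lev.J_A
import Pool.Agent.TH47.Lev.J_B
import Pool.Agent.TH47.Lev.J_F
import Pool.Agent.TH47.Lev.J_H

set_option autoImplicit false

/-!
# LEV-P: affine_of_local (job 1219)
-/

namespace Pool.Agent.TH47.Lev

open MvPolynomial Finset

variable {V : Type} [Fintype V] [DecidableEq V]

/-- `extend_face` with an arbitrary vertex in place of the origin. -/
theorem extend_face_at {p : V → E} (hP : IsSimplicialPolytope p) (v : V)
    {σ : Finset V} (h : IsFace p σ) (hvσ : v ∉ σ) :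
    ∃ F : Finset V, IsFace p F ∧ v ∉ F ∧ σ ⊆ F ∧ F.card = 4 := by
  obtain ⟨F, hF, h1, h2, h3⟩ := extend_face (isSimplicialPolytope_translate (p v) hP) (v := v)
    (sub_self _) ((isFace_translate (p v) σ).2 h) hvσ
  exact ⟨F, (isFace_translate (p v) F).1 hF, h1, h2, h3⟩

theorem local_unique {p : V → E} (hP : IsSimplicialPolytope p) {u v : V} (huv : u ≠ v)
    (h : IsFace p {u, v}) (d : E →ₗ[ℝ] ℝ) (c : ℝ)
    (h0 : ∀ w, (w = u ∨ IsFace p {u, w}) → (w = v ∨ IsFace p {v, w}) → d (p w) + c = 0) :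
    d = 0 ∧ c = 0 := by
  obtain ⟨a, ha⟩ : ∃ a, a ∉ ({u, v} : Finset V) := by
    by_contra hcon
    push Not at hcon
    exact h.1 (Finset.eq_univ_iff_forall.2 hcon)
  obtain ⟨F, hF, haF, hsub, hcard⟩ := extend_face_at hP a h ha
  have huF : u ∈ F := hsub (by simp)
  have hvF : v ∈ F := hsub (by simp)
  obtain ⟨a', ha'F, ha'⟩ : ∃ a' ∈ F, a' ∉ ({u, v} : Finset V) := by
    by_contra hcon
    push Not at hcon
    have h1 : F ⊆ {u, v} := hcon
    have h2 := Finset.card_le_card h1
    have h3 : ({u, v} : Finset V).card ≤ 2 := Finset.card_le_two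
    omega
  rw [Finset.mem_insert, Finset.mem_singleton, not_or] at ha'
  have hFe : IsFace p (F.erase a') := face_mono hP hF (Finset.erase_subset _ _)
  obtain ⟨F', hF', ha'F', hsub', hcard'⟩ := extend_face_at hP a' hFe (Finset.notMem_erase _ _)
  obtain ⟨s, hsF', hs⟩ : ∃ s ∈ F', s ∉ F.erase a' := by
    by_contra hcon
    push Not at hcon
    have h1 : F' ⊆ F.erase a' := hcon
    have h2 := Finset.card_le_card h1
    rw [Finset.card_erase_of_mem ha'F] at h2
    omega
  have hsF : s ∉ F := by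
    intro h1
    apply hs
    rw [Finset.mem_erase]
    exact ⟨fun h2 => ha'F' (h2 ▸ hsF'), h1⟩
  have huF' : u ∈ F' := hsub' (Finset.mem_erase.2 ⟨fun h1 => ha'.1 h1.symm, huF⟩)
  have hvF' : v ∈ F' := hsub' (Finset.mem_erase.2 ⟨fun h1 => ha'.2 h1.symm, hvF⟩)
  have hadj : ∀ G : Finset V, IsFace p G → ∀ x ∈ G, ∀ w ∈ G, w = x ∨ IsFace p {x, w} := by
    intro G hG x hx w hw
    right
    apply face_mono hP hG
    intro y hy
    rw [Finset.mem_insert, Finset.mem_singleton] at hy
    rcases hy with rfl | rfl <;> assumption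
  have hzF : ∀ w ∈ F, d (p w) + c = 0 := fun w hw =>
    h0 w (hadj F hF u huF w hw) (hadj F hF v hvF w hw)
  have hzs : d (p s) + c = 0 :=
    h0 s (hadj F' hF' u huF' s hsF') (hadj F' hF' v hvF' s hsF')
  have hd : d = 0 := by
    apply LinearMap.ext
    intro x
    obtain ⟨m, hm, hx⟩ := coords (isSimplicialPolytope_translate (p s) hP) (v := s)
      (sub_self _) ((isFace_translate (p s) F).2 hF) hsF hcard x
    rw [hx, map_sum, LinearMap.zero_apply]
    apply Finset.sum_eq_zero
    intro w _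
    by_cases hw : w ∈ F
    · rw [map_smul, map_sub]
      have := hzF w hw
      have h1 : d (p w) - d (p s) = 0 := by linarith
      rw [h1, smul_zero]
    · rw [hm w hw, zero_smul, map_zero]
  refine ⟨hd, ?_⟩
  rw [hd, LinearMap.zero_apply, zero_add] at hzs
  exact hzs

theorem affine_of_local {p : V → E} (hP : IsSimplicialPolytope p) (y : V → ℝ)
    (h : ∀ v, ∃ (l : E →ₗ[ℝ] ℝ) (b : ℝ), y v = l (p v) + b ∧
      ∀ u, u ≠ v → IsFace p {v, u} → y u = l (p u) + b) :
    ∃ (l : E →ₗ[ℝ] ℝ) (b : ℝ), ∀ u, y u = l (p u) + b := by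
  classical
  choose l b h1 h2 using h
  rcases isEmpty_or_nonempty V with hV | ⟨⟨v₀⟩⟩
  · exact ⟨0, 0, fun u => (hV.false u).elim⟩
  have hadj : ∀ u w, u ≠ w → IsFace p {u, w} → l w = l u ∧ b w = b u := by
    intro u w huw hf
    have key := local_unique hP huw hf (l w - l u) (b w - b u) (by
      intro x hx hx'
      have e1 : y x = l u (p x) + b u := by
        by_cases hxu : x = u
        · rw [hxu]; exact h1 u
        · exact h2 u x hxu (hx.resolve_left hxu)
      have e2 : y x = l w (p x) + b w := by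
        by_cases hxw : x = w
        · rw [hxw]; exact h1 w
        · exact h2 w x hxw (hx'.resolve_left hxw)
      rw [LinearMap.sub_apply]
      linarith)
    exact ⟨sub_eq_zero.1 key.1, sub_eq_zero.1 key.2⟩
  have hS := graph_connected hP (Finset.univ.filter (fun u => l u = l v₀ ∧ b u = b v₀))
    ⟨v₀, by simp⟩ (by
      intro u hu w huw hf
      rw [Finset.mem_filter] at hu ⊢
      obtain ⟨e1, e2⟩ := hadj u w huw hf
      exact ⟨Finset.mem_univ _, e1.trans hu.2.1, e2.trans hu.2.2⟩)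
  refine ⟨l v₀, b v₀, fun u => ?_⟩
  have hu : u ∈ Finset.univ.filter (fun u => l u = l v₀ ∧ b u = b v₀) := by
    rw [hS]; exact Finset.mem_univ _
  rw [Finset.mem_filter] at hu
  rw [← hu.2.1, ← hu.2.2]
  exact h1 u

end Pool.Agent.TH47.Lev
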