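import Pool.Agent.TH47.Lev.Core
import Pool.Agent.TH47.Lev.J_O
import Pool.Agent.TH47.Lev.J_P

namespace Pool.Agent.TH47.Lev

open MvPolynomial Finset

variable {V : Type} [Fintype V] [DecidableEq V]

/-- The degree-one coefficients of an element of the ideal are an affine function of the
positions. -/
theorem natIdeal_coeff {p : V → E} (hP : IsSimplicialPolytope p) {f : MvPolynomial V ℝ}
    (hf : f ∈ natIdeal p) :
    ∃ (l : E →ₗ[ℝ] ℝ) (b : ℝ), ∀ u, coeff (Finsupp.single u 1) f = l (p u) + b := by
  classical
  set Q : MvPolynomial V ℝ → Prop := fun y => ∃ (l : E →ₗ[ℝ] ℝ) (b : ℝ),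
    ∀ u, coeff (Finsupp.single u 1) y = l (p u) + b with hQ
  have hlin : ∀ (w : V → ℝ) (l : E →ₗ[ℝ] ℝ) (b : ℝ), (∀ u, w u = l (p u) + b) →
      ∀ r, Q (r * L w) := by
    intro w l b hw r
    refine ⟨coeff 0 r • l, coeff 0 r * b, fun u => ?_⟩
    rw [lo_coeff_mul_L, hw, LinearMap.smul_apply, smul_eq_mul, mul_add]
  have key : ∀ y ∈ natIdeal p, ∀ r, Q (r * y) := by
    intro y hy
    unfold natIdeal SR at hy
    rw [← Ideal.span_union] at hy
    induction hy using Submodule.span_induction with
    | mem x hx =>
      intro r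
      rcases hx with ⟨σ, hσ, rfl⟩ | hx
      · have h2 : ∃ a ∈ σ, ∃ b ∈ σ, a ≠ b := by
          by_contra hcon
          push Not at hcon
          have hsing : ∃ a, σ ⊆ {a} := by
            rcases σ.eq_empty_or_nonempty with rfl | ⟨a, ha⟩
            · have hne : Nonempty V := by
                by_contra hV
                rw [not_nonempty_iff] at hV
                have h3 := hP.spans
                rw [Set.range_eq_empty, AffineSubspace.span_empty] at h3
                exact AffineSubspace.bot_ne_top ℝ E E h3
              exact ⟨hne.some, Finset.empty_subset _⟩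
            · exact ⟨a, fun b hb => by rw [Finset.mem_singleton]; exact hcon b hb a ha⟩
          obtain ⟨a, ha⟩ := hsing
          exact hσ (face_mono hP (hP.vertex a) ha)
        obtain ⟨a, ha, b, hb, hab⟩ := h2
        refine ⟨0, 0, fun u => ?_⟩
        rw [lo_coeff_mul_prod r ha hb hab]
        simp
      · rcases hx with ⟨j, rfl⟩ | hx
        · refine hlin _ (LinearMap.proj j) 0 (fun u => ?_) r
          simp
        · rw [Set.mem_singleton_iff] at hx
          subst hx
          refine hlin _ 0 1 (fun u => ?_) r
          simp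
    | zero =>
      intro r
      exact ⟨0, 0, fun u => by simp⟩
    | add x y _ _ hx hy =>
      intro r
      obtain ⟨l1, b1, h1⟩ := hx r
      obtain ⟨l2, b2, h2⟩ := hy r
      refine ⟨l1 + l2, b1 + b2, fun u => ?_⟩
      rw [mul_add, coeff_add, h1, h2, LinearMap.add_apply]
      ring
    | smul s x _ hx =>
      intro r
      rw [smul_eq_mul, ← mul_assoc]
      exact hx (r * s)
  obtain ⟨l, b, h⟩ := key _ hf 1
  refine ⟨l, b, fun u => ?_⟩
  rw [← h u, one_mul]

theorem SR_translate (p : V → E) (t : E) : SR (fun a => p a - t) = SR p := by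
  unfold SR
  congr 1
  ext m
  simp only [Set.mem_ofPred_eq, isFace_translate]

theorem rel_translate {p : V → E} {y : V → ℝ} (hy : Rel p y) (t : E) :
    Rel (fun a => p a - t) y := by
  intro u
  obtain ⟨q, w, h⟩ := hy u
  refine ⟨q + ∑ j, t j • w j, w, ?_⟩
  rw [SR_translate]
  have e1 : ∀ j : Fin 4, L (fun a => (p a - t) j)
      = (L (fun a => p a j) : MvPolynomial V ℝ) - C (t j) * L (fun _ => 1) := by
    intro j
    have : (fun a => (p a - t) j) = (fun a => p a j) - t j • (fun _ : V => (1 : ℝ)) := by
      funext a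
      simp
    rw [this, map_sub, map_smul, MvPolynomial.smul_eq_C_mul]
  have e : L y * X u - L (fun _ => 1) * L (q + ∑ j, t j • w j)
      - ∑ j, L (fun a => (p a - t) j) * L (w j)
      = L y * X u - L (fun _ => 1) * L q - ∑ j, L (fun a => p a j) * L (w j) := by
    simp only [e1, map_add, map_sum, map_smul, MvPolynomial.smul_eq_C_mul, sub_mul,
      Finset.sum_sub_distrib, mul_add, Finset.mul_sum]
    have : ∑ j, C (t j) * L (fun _ => 1) * L (w j)
        = ∑ j, L (fun _ : V => (1 : ℝ)) * (C (t j) * L (w j)) :=
      Finset.sum_congr rfl fun j _ => by ring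
    rw [this]
    ring
  rw [e]
  exact h

theorem affine_mem (p : V → E) (l : E →ₗ[ℝ] ℝ) (b : ℝ) :
    (L (fun u => l (p u) + b) : MvPolynomial V ℝ) ∈ natIdeal p := by
  have h1 : (fun u => l (p u) + b) = ev p l + b • (fun _ : V => (1 : ℝ)) := by
    funext u
    simp [ev]
  have hs : Ideal.span (Set.range (fun j : Fin 4 => (L (fun a => p a j) : MvPolynomial V ℝ)) ∪
      {L (fun _ => 1)}) ≤ natIdeal p := le_sup_right
  rw [h1, map_add, map_smul, MvPolynomial.smul_eq_C_mul, L_ev_eq]
  refine Ideal.add_mem _ (Ideal.sum_mem _ fun j _ => Ideal.mul_mem_left _ _ (hs ?_))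
    (Ideal.mul_mem_left _ _ (hs ?_))
  · exact Ideal.subset_span (Or.inl ⟨j, rfl⟩)
  · exact Ideal.subset_span (Or.inr rfl)

/-- If every function on the vertices were affine, the whole vertex set would be a missing
face. -/
theorem not_all_affine {p : V → E} (hP : IsSimplicialPolytope p)
    (hmiss : ∀ S, IsMissingFace p S → S.card ≤ 3)
    (h : ∀ u : V, ∃ (l : E →ₗ[ℝ] ℝ) (b : ℝ), ∀ a, dl u a = l (p a) + b) : False := by
  choose l b h using h
  have hall : ∀ f : V → ℝ, ∃ (l : E →ₗ[ℝ] ℝ) (b : ℝ), ∀ a, f a = l (p a) + b := by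
    intro f
    refine ⟨∑ u, f u • l u, ∑ u, f u * b u, fun a => ?_⟩
    rw [LinearMap.sum_apply, ← Finset.sum_add_distrib]
    have e : ∀ u, (f u • l u) (p a) + f u * b u = f u * dl u a := by
      intro u
      rw [h u a, LinearMap.smul_apply, smul_eq_mul]
      ring
    simp only [e]
    rw [Finset.sum_eq_single a]
    · simp [dl]
    · intro c _ hc
      simp [dl, Ne.symm hc]
    · intro hh
      exact absurd (Finset.mem_univ a) hh
  have hm : IsMissingFace p (Finset.univ) := by
    refine ⟨fun hf => hf.1 rfl, fun T hT => ?_⟩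
    refine ⟨hT.ne, ?_⟩
    obtain ⟨l, b, hl⟩ := hall (fun a => if a ∈ T then 0 else -1)
    refine ⟨l, -b, ?_, ?_⟩
    · intro a ha
      have := hl a
      simp only [ha, if_true] at this
      linarith
    · intro a ha
      have := hl a
      simp only [ha, if_false] at this
      linarith
  have h3 := hmiss _ hm
  rw [Finset.card_univ] at h3
  have h4 : Module.finrank ℝ (vectorSpan ℝ (Set.range p)) = 4 := by
    rw [← direction_affineSpan, hP.spans, AffineSubspace.direction_top, finrank_top]
    simp
  rcases Nat.eq_zero_or_pos (Fintype.card V) with h0 | h0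
  · have : IsEmpty V := Fintype.card_eq_zero_iff.mp h0
    have h5 := hP.spans
    rw [Set.range_eq_empty, AffineSubspace.span_empty] at h5
    exact AffineSubspace.bot_ne_top ℝ E E h5
  · have h6 := finrank_vectorSpan_range_le ℝ p (n := Fintype.card V - 1) (by omega)
    omega

theorem level_main {p : V → E} (hP : IsSimplicialPolytope p)
    (hmiss : ∀ S, IsMissingFace p S → S.card ≤ 3) (y : MvPolynomial V ℝ)
    (hy : ∀ v, X v * y ∈ natIdeal p) :
    homogeneousComponent 0 y ∈ natIdeal p ∧ homogeneousComponent 1 y ∈ natIdeal p := by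
  constructor
  · rw [homogeneousComponent_zero]
    by_cases h0 : coeff 0 y = 0
    · rw [h0, map_zero]
      exact Ideal.zero_mem _
    · exfalso
      apply not_all_affine hP hmiss
      intro u
      obtain ⟨l, b, h⟩ := natIdeal_coeff hP (hy u)
      refine ⟨(coeff 0 y)⁻¹ • l, (coeff 0 y)⁻¹ * b, fun a => ?_⟩
      have h1 := h a
      rw [coeff_X_mul'] at h1
      have h2 : coeff 0 y * dl u a = l (p a) + b := by
        rw [← h1]
        by_cases hau : a = u
        · subst hau
          simp [dl]
        · have : u ∉ (Finsupp.single a 1 : V →₀ ℕ).support := by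
            simp only [Finsupp.mem_support_iff, Finsupp.single_apply, ne_eq, not_not]
            exact if_neg hau
          rw [if_neg this]
          simp [dl, hau]
      rw [LinearMap.smul_apply, smul_eq_mul, ← mul_add, ← h2]
      field_simp
  · rw [JN.hc_one]
    have hrel := rel_of_mem y hy
    obtain ⟨l, b, h⟩ := affine_of_local hP (fun a => coeff (Finsupp.single a 1) y) (by
      intro v
      obtain ⟨l, b, h1, h2⟩ := steps' (isSimplicialPolytope_translate (p v) hP)
        (v := v) (by simp) (by
          intro S hS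
          apply hmiss
          unfold IsMissingFace at hS ⊢
          simpa only [isFace_translate] using hS) (rel_translate hrel (p v))
      refine ⟨l, b - l (p v), ?_, ?_⟩
      · rw [h1, map_sub]; ring
      · intro u huv hu
        rw [h2 u huv ((isFace_translate _ _).mpr hu), map_sub]
        ring)
    have e : (fun a => coeff (Finsupp.single a 1) y) = fun u => l (p u) + b := funext h
    rw [e]
    exact affine_mem p l b

theorem quadric_main {p : V → E} (hP : IsSimplicialPolytope p)
    (hmiss : ∀ S, IsMissingFace p S → S.card ≤ 3) :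
    ∃ q : MvPolynomial V ℝ, q.IsHomogeneous 2 ∧ q ∉ natIdeal p := by
  by_contra hcon
  push Not at hcon
  apply not_all_affine hP hmiss
  intro u
  apply natIdeal_lin hP
  have h1 := (level_main hP hmiss (X u) (fun v => hcon _ (by
    simpa using (isHomogeneous_X ℝ v).mul (isHomogeneous_X ℝ u)))).2
  rw [L_dl]
  rwa [homogeneousComponent_of_mem ((mem_homogeneousSubmodule 1 _).mpr
    (isHomogeneous_X ℝ u)), if_pos rfl] at h1

end Pool.Agent.TH47.Lev
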