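import Pool.Agent.TH47.Lev.Defs
import Pool.Agent.TH47.Lev.J_B
import Pool.Agent.TH47.Lev.J_E

/-!
# An interior triangle lies in exactly two facets, on opposite sides
-/

namespace Pool.Agent.TH47.Lev

open MvPolynomial Finset

variable {V : Type} [Fintype V] [DecidableEq V]

theorem J_G_side {p : V → E} (hP : IsSimplicialPolytope p) {v : V} (hv : p v = 0)
    {τ : Finset V} (hc : τ.card = 3) (h : IsFace p τ) (hvτ : v ∉ τ)
    (hi : ¬ IsFace p (insert v τ)) (g : E →ₗ[ℝ] ℝ) (hg : g ≠ 0) (hgτ : ∀ a ∈ τ, g (p a) = 0) :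
    ∃ s : V, s ≠ v ∧ s ∉ τ ∧ 0 < g (p s) ∧ IsFace p (insert s τ) := by
  classical
  obtain ⟨t0, ht0⟩ : ∃ t, g t = 1 := by
    have h1 : ∃ t, g t ≠ 0 := by
      by_contra hcon
      apply hg
      refine LinearMap.ext fun t => ?_
      by_contra h2
      exact hcon ⟨_, h2⟩
    obtain ⟨t, ht⟩ := h1
    refine ⟨(g t)⁻¹ • t, ?_⟩
    rw [map_smul, smul_eq_mul, inv_mul_cancel₀ ht]
  obtain ⟨F, m, hF, hvF, hτF, hm, hm0, ht⟩ := link_cover' hP hv h hvτ hi t0
  have hcard := face_card_le hP hv hF hvF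
  have hgt : g t0 = ∑ a, m a * g (p a) := by
    rw [ht, map_sum]
    exact Finset.sum_congr rfl fun a _ => by rw [map_smul, smul_eq_mul]
  have hFne : F ≠ τ := by
    intro hFτ
    have h1 : g t0 = 0 := by
      rw [hgt]
      refine Finset.sum_eq_zero fun a _ => ?_
      by_cases ha : a ∈ τ
      · rw [hgτ a ha, mul_zero]
      · rw [hm0 a (by rw [hFτ]; exact ha), zero_mul]
    rw [ht0] at h1
    exact one_ne_zero h1
  have hsub : τ ⊂ F := Finset.ssubset_iff_subset_ne.2 ⟨hτF, fun h1 => hFne h1.symm⟩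
  obtain ⟨s, hsτ, hsF⟩ := Finset.ssubset_iff.1 hsub
  have hFs : insert s τ = F := by
    refine Finset.eq_of_subset_of_card_le hsF ?_
    rw [Finset.card_insert_of_notMem hsτ, hc]
    exact hcard
  have hsF' : s ∈ F := hsF (Finset.mem_insert_self _ _)
  refine ⟨s, ?_, hsτ, ?_, by rw [hFs]; exact hF⟩
  · rintro rfl
    exact hvF hsF'
  · have h1 : g t0 = m s * g (p s) := by
      rw [hgt]
      refine Finset.sum_eq_single s (fun a _ has => ?_) (fun hs => absurd (mem_univ _) hs)
      by_cases ha : a ∈ τ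
      · rw [hgτ a ha, mul_zero]
      · rw [hm0 a (by rw [← hFs, Finset.mem_insert]; exact fun h1 => h1.elim has ha), zero_mul]
    rw [ht0] at h1
    have h2 := hm s hsF' hsτ
    by_contra h3
    have h4 : m s * g (p s) ≤ 0 := mul_nonpos_of_nonneg_of_nonpos h2.le (not_lt.1 h3)
    linarith

theorem J_G_uniq {p : V → E} (hP : IsSimplicialPolytope p) {v : V} (hv : p v = 0)
    {τ : Finset V} (hc : τ.card = 3) (hvτ : v ∉ τ)
    (g : E →ₗ[ℝ] ℝ) (hgτ : ∀ a ∈ τ, g (p a) = 0) {s u : V} (hsv : s ≠ v) (huv : u ≠ v)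
    (hs : s ∉ τ) (hu : u ∉ τ) (hgs : 0 < g (p s)) (hgu : 0 < g (p u))
    (hfs : IsFace p (insert s τ)) (hfu : IsFace p (insert u τ)) : u = s := by
  classical
  have hvs : v ∉ insert s τ := by
    rw [Finset.mem_insert]
    exact fun h => h.elim (fun h => hsv h.symm) hvτ
  have hvu : v ∉ insert u τ := by
    rw [Finset.mem_insert]
    exact fun h => h.elim (fun h => huv h.symm) hvτ
  obtain ⟨c, hc0, hcx⟩ := coords hP hv hfs hvs (by rw [Finset.card_insert_of_notMem hs, hc]) (p u)
  have h1 : g (p u) = c s * g (p s) := by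
    have h2 : g (p u) = ∑ a, c a * g (p a) := by
      conv_lhs => rw [hcx]
      rw [map_sum]
      exact Finset.sum_congr rfl fun a _ => by rw [map_smul, smul_eq_mul]
    rw [h2]
    refine Finset.sum_eq_single s (fun a _ has => ?_) (fun hs => absurd (mem_univ _) hs)
    by_cases ha : a ∈ τ
    · rw [hgτ a ha, mul_zero]
    · rw [hc0 a (by rw [Finset.mem_insert]; exact fun h1 => h1.elim has ha), zero_mul]
  have hcs : 0 < c s := by
    by_contra h3
    have h4 : c s * g (p s) ≤ 0 := mul_nonpos_of_nonpos_of_nonneg (not_lt.1 h3) hgs.le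
    linarith
  set N : ℝ := 1 + ∑ a, |c a| with hN
  have hNa : ∀ a, 0 < N + c a := by
    intro a
    have h2 : |c a| ≤ ∑ a, |c a| :=
      Finset.single_le_sum (f := fun a => |c a|) (fun b _ => abs_nonneg _) (mem_univ a)
    have h3 := neg_abs_le (c a)
    linarith
  have hN0 : 0 < N := by
    have : 0 ≤ ∑ a, |c a| := Finset.sum_nonneg fun a _ => abs_nonneg _
    linarith
  have key := cone_unique hv hfs hvs hfu hvu
    (fun a => (if a ∈ τ then N else 0) + c a) (fun a => (if a ∈ τ then N else 0) + if a = u then 1 else 0)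
    ?_ ?_ ?_ ?_ ?_
  · have h2 : u ∈ insert s τ := by rw [key]; exact Finset.mem_insert_self _ _
    rw [Finset.mem_insert] at h2
    exact h2.resolve_right hu
  · intro a ha
    rw [Finset.mem_insert] at ha
    rcases ha with rfl | ha
    · simp only [if_neg hs, zero_add]
      exact hcs
    · simp only [if_pos ha]
      exact hNa a
  · intro a ha
    have h2 := ha
    rw [Finset.mem_insert, not_or] at h2
    simp only [if_neg h2.2, zero_add]
    exact hc0 a ha
  · intro a ha
    rw [Finset.mem_insert] at ha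
    rcases ha with rfl | ha
    · simp only [if_neg hu, zero_add, if_true]
      exact one_pos
    · have h3 : a ≠ u := fun h4 => hu (h4 ▸ ha)
      simp only [if_pos ha, if_neg h3, add_zero]
      exact hN0
  · intro a ha
    rw [Finset.mem_insert, not_or] at ha
    simp only [if_neg ha.2, if_neg ha.1, add_zero]
  · simp only [add_smul, Finset.sum_add_distrib]
    rw [← hcx]
    congr 1
    simp

/-- an interior triangle is in exactly two facets, on opposite sides -/
theorem two_facets {p : V → E} (hP : IsSimplicialPolytope p) {v : V} (hv : p v = 0)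
    {τ : Finset V} (hc : τ.card = 3) (h : IsFace p τ) (hvτ : v ∉ τ)
    (hi : ¬ IsFace p (insert v τ)) (g : E →ₗ[ℝ] ℝ) (hg : g ≠ 0) (hgτ : ∀ a ∈ τ, g (p a) = 0) :
    ∃ s s' : V, s ≠ v ∧ s' ≠ v ∧ s ∉ τ ∧ s' ∉ τ ∧ 0 < g (p s) ∧ g (p s') < 0 ∧
      IsFace p (insert s τ) ∧ IsFace p (insert s' τ) ∧
      ∀ u, u ∉ τ → u ≠ v → IsFace p (insert u τ) → u = s ∨ u = s' := by
  classical
  have hgτ' : ∀ a ∈ τ, (-g) (p a) = 0 := fun a ha => by
    rw [LinearMap.neg_apply, hgτ a ha, neg_zero]
  obtain ⟨s, hsv, hsτ, hgs, hfs⟩ := J_G_side hP hv hc h hvτ hi g hg hgτ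
  obtain ⟨s', hsv', hsτ', hgs', hfs'⟩ :=
    J_G_side hP hv hc h hvτ hi (-g) (neg_ne_zero.2 hg) hgτ'
  refine ⟨s, s', hsv, hsv', hsτ, hsτ', hgs, ?_, hfs, hfs', ?_⟩
  · rw [LinearMap.neg_apply] at hgs'
    linarith
  · intro u hu huv hfu
    have hvu : v ∉ insert u τ := by
      rw [Finset.mem_insert]
      exact fun h => h.elim (fun h => huv h.symm) hvτ
    have hne : g (p u) ≠ 0 := by
      intro h0
      apply hg
      refine LinearMap.ext fun x => ?_
      obtain ⟨c, hc0, hcx⟩ :=
        coords hP hv hfu hvu (by rw [Finset.card_insert_of_notMem hu, hc]) x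
      rw [LinearMap.zero_apply, hcx, map_sum]
      refine Finset.sum_eq_zero fun a _ => ?_
      rw [map_smul, smul_eq_mul]
      by_cases ha : a ∈ insert u τ
      · rw [Finset.mem_insert] at ha
        rcases ha with rfl | ha
        · rw [h0, mul_zero]
        · rw [hgτ a ha, mul_zero]
      · rw [hc0 a ha, zero_mul]
    rcases lt_or_gt_of_ne hne with h1 | h1
    · right
      refine J_G_uniq hP hv hc hvτ (-g) hgτ' hsv' huv hsτ' hu hgs' ?_ hfs' hfu
      rw [LinearMap.neg_apply]
      linarith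
    · left
      exact J_G_uniq hP hv hc hvτ g hgτ hsv huv hsτ hu hgs h1 hfs hfu

end Pool.Agent.TH47.Lev
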