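import Pool.Agent.TH47.Lev.J_A
import Pool.Agent.TH47.Lev.J_B
import Pool.Agent.TH47.Lev.J_C
import Pool.Agent.TH47.Lev.J_D
import Pool.Agent.TH47.Lev.J_F

namespace Pool.Agent.TH47.Lev

open Finset

variable {V : Type} [Fintype V] [DecidableEq V]

theorem perturb {ι : Type} [Fintype ι] (q : ι → E) (ξ : E)
    (hξ : ∀ S : Finset ι, S.card ≤ 3 → ∀ c : ι → ℝ, (∀ a, a ∉ S → c a = 0) →
      ξ ≠ ∑ a, c a • q a) (x0 : E) (ε0 : ℝ) (h0 : 0 < ε0) :
    ∃ ε : ℝ, 0 < ε ∧ ε < ε0 ∧ ∀ S : Finset ι, S.card ≤ 3 → ∀ c : ι → ℝ,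
      (∀ a, a ∉ S → c a = 0) → x0 + ε • ξ ≠ ∑ a, c a • q a := by
  classical
  set Bd : Set ℝ := ⋃ S : {S : Finset ι // S.card ≤ 3},
    {ε | ∃ c : ι → ℝ, (∀ a, a ∉ S.1 → c a = 0) ∧ x0 + ε • ξ = ∑ a, c a • q a} with hBd
  have hfin : Bd.Finite := by
    apply Set.finite_iUnion
    intro S
    apply Set.Subsingleton.finite
    rintro e ⟨c, hc, h⟩ e' ⟨c', hc', h'⟩
    by_contra hne
    have hee : e - e' ≠ 0 := sub_ne_zero.mpr hne
    apply hξ S.1 S.2 (fun a => (e - e')⁻¹ * (c a - c' a))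
    · intro a ha
      rw [hc a ha, hc' a ha]; ring
    · have h1 : (e - e') • ξ = ∑ a, (c a - c' a) • q a := by
        simp_rw [sub_smul]
        rw [Finset.sum_sub_distrib, ← h, ← h']
        abel
      have h2 : ∑ a, ((e - e')⁻¹ * (c a - c' a)) • q a
          = (e - e')⁻¹ • ∑ a, (c a - c' a) • q a := by
        rw [Finset.smul_sum]
        apply Finset.sum_congr rfl
        intro a _
        rw [smul_smul]
      rw [h2, ← h1, smul_smul, inv_mul_cancel₀ hee, one_smul]
  obtain ⟨ε, h1, h2⟩ := ((Set.Ioo_infinite h0).sdiff hfin).nonempty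
  refine ⟨ε, h1.1, h1.2, ?_⟩
  intro S hS c hc he
  apply h2
  rw [hBd, Set.mem_iUnion]
  exact ⟨⟨S, hS⟩, c, hc, he⟩

/-- closed cone of a set of vertices -/
def InC (p : V → E) (G : Finset V) (x : E) : Prop :=
  ∃ m : V → ℝ, (∀ a, 0 ≤ m a) ∧ (∀ a, a ∉ G → m a = 0) ∧ x = ∑ a, m a • p a

theorem inC_closed {p : V → E} (hP : IsSimplicialPolytope p) {v : V} (hv : p v = 0)
    {G : Finset V} (h : IsFace p G) (hvG : v ∉ G) (h4 : G.card = 4) :
    IsClosed {x | InC p G x} := by
  have hκ : ∀ a : V, ∃ l : E →ₗ[ℝ] ℝ, ∀ b ∈ G, l (p b) = if b = a then 1 else 0 :=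
    fun a => interp hP hv h hvG (fun b => if b = a then 1 else 0)
  choose κ hκ using hκ
  have hval : ∀ (c : V → ℝ), (∀ a, a ∉ G → c a = 0) → ∀ a ∈ G, κ a (∑ b, c b • p b) = c a := by
    intro c hc a ha
    rw [map_sum, Finset.sum_eq_single a]
    · rw [map_smul, hκ a a ha, if_pos rfl, smul_eq_mul, mul_one]
    · intro b _ hba
      rw [map_smul]
      by_cases hb : b ∈ G
      · rw [hκ a b hb, if_neg hba, smul_zero]
      · rw [hc b hb, zero_smul]
    · intro h'
      exact absurd (Finset.mem_univ a) h'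
  have heq : {x | InC p G x} = ⋂ a ∈ G, (κ a) ⁻¹' Set.Ici 0 := by
    ext x
    rw [Set.mem_iInter₂]
    constructor
    · rintro ⟨m, hm, hm0, rfl⟩ a ha
      rw [Set.mem_preimage, hval m hm0 a ha]
      exact hm a
    · intro hx
      obtain ⟨c, hc, hxc⟩ := coords hP hv h hvG h4 x
      refine ⟨c, ?_, hc, hxc⟩
      intro a
      by_cases ha : a ∈ G
      · have := hx a ha
        rw [Set.mem_preimage, hxc, hval c hc a ha] at this
        exact this
      · rw [hc a ha]
  rw [heq]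
  apply isClosed_biInter
  intro a _
  exact isClosed_Ici.preimage (LinearMap.continuous_of_finiteDimensional (κ a))

theorem facet_interior {p : V → E} (hP : IsSimplicialPolytope p) {v : V} (hv : p v = 0)
    {F : Finset V} (h : IsFace p F) (hvF : v ∉ F) (h4 : F.card = 4) :
    ¬ IsFace p (insert v F) := by
  rintro ⟨hne, f, b, h1, h2⟩
  have hb : b = 0 := by
    have := h1 v (Finset.mem_insert_self _ _)
    rw [hv, map_zero] at this
    exact this.symm
  subst hb
  obtain ⟨a, ha⟩ : ∃ a, a ∉ insert v F := by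
    by_contra hcon
    push Not at hcon
    exact hne (Finset.eq_univ_iff_forall.mpr hcon)
  have h3 := h2 a ha
  obtain ⟨c, hc, hx⟩ := coords hP hv h hvF h4 (p a)
  rw [hx, map_sum] at h3
  have : ∑ x, f (c x • p x) = 0 := by
    apply Finset.sum_eq_zero
    intro x _
    rw [map_smul]
    by_cases hxF : x ∈ F
    · rw [h1 x (Finset.mem_insert_of_mem hxF), smul_zero]
    · rw [hc x hxF, zero_smul]
  rw [this] at h3
  exact lt_irrefl _ h3

theorem cone_convex (p : V → E) : Convex ℝ (cone p) := by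
  rintro x ⟨m, hm, rfl⟩ y ⟨m', hm', rfl⟩ a b ha hb hab
  refine ⟨fun i => a * m i + b * m' i, fun i => ?_, ?_⟩
  · have := hm i
    have := hm' i
    positivity
  · rw [Finset.smul_sum, Finset.smul_sum, ← Finset.sum_add_distrib]
    apply Finset.sum_congr rfl
    intro i _
    rw [add_smul, smul_smul, smul_smul]

/-- a generic interior point of the cone over a facet -/
theorem facet_point {p : V → E} (hP : IsSimplicialPolytope p) {v : V} (hv : p v = 0)
    {F : Finset V} (h : IsFace p F) (hvF : v ∉ F) (h4 : F.card = 4)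
    {ι : Type} [Fintype ι] [DecidableEq ι] (q : ι → E) :
    ∃ x : E, InC p F x ∧ x ∈ interior (cone p) ∧ ∀ S : Finset ι, S.card ≤ 3 →
      ∀ c : ι → ℝ, (∀ a, a ∉ S → c a = 0) → x ≠ ∑ a, c a • q a := by
  obtain ⟨ξ, hξ⟩ := generic_point q
  set x0 : E := ∑ a ∈ F, p a with hx0
  have hx0i : x0 ∈ interior (cone p) :=
    interior_face hP hv h hvF (facet_interior hP hv h hvF h4)
  obtain ⟨c, hc, hξc⟩ := coords hP hv h hvF h4 ξ
  -- small perturbations stay in the interior
  have hcont : Continuous (fun ε : ℝ => x0 + ε • ξ) := by fun_prop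
  have hev : ∀ᶠ ε : ℝ in nhds 0, x0 + ε • ξ ∈ interior (cone p) := by
    apply hcont.continuousAt.eventually_mem
    simp only [zero_smul, add_zero]
    exact isOpen_interior.mem_nhds hx0i
  obtain ⟨ε1, hε1, hball⟩ := Metric.eventually_nhds_iff.mp hev
  set T : ℝ := ∑ a, |c a| with hT
  have hT0 : 0 ≤ T := Finset.sum_nonneg fun _ _ => abs_nonneg _
  obtain ⟨ε, e0, e1, e2⟩ := perturb q ξ hξ x0 (min ε1 (1 / (1 + T))) (by positivity)
  refine ⟨x0 + ε • ξ, ?_, ?_, e2⟩
  · refine ⟨fun a => if a ∈ F then 1 + ε * c a else 0, ?_, ?_, ?_⟩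
    · intro a
      by_cases ha : a ∈ F
      · simp only [if_pos ha]
        have h1 : |c a| ≤ T := Finset.single_le_sum (f := fun a => |c a|)
          (fun i _ => abs_nonneg _) (Finset.mem_univ a)
        have h2 : ε < 1 / (1 + T) := e1.trans_le (min_le_right _ _)
        have h3 : ε * (1 + T) < 1 := by
          rw [lt_div_iff₀ (by positivity)] at h2
          exact h2
        have h4 : ε * |c a| ≤ ε * (1 + T) := by
          apply mul_le_mul_of_nonneg_left _ e0.le
          linarith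
        have h5 : -(ε * |c a|) ≤ ε * c a := by
          have := neg_abs_le (c a)
          nlinarith
        linarith
      · simp only [if_neg ha]; exact le_refl _
    · intro a ha
      exact if_neg ha
    · have h1 : ∀ a, (if a ∈ F then 1 + ε * c a else 0) • p a
          = (if a ∈ F then p a else 0) + ε • (c a • p a) := by
        intro a
        by_cases ha : a ∈ F
        · rw [if_pos ha, if_pos ha, add_smul, one_smul, smul_smul]
        · rw [if_neg ha, if_neg ha, hc a ha]; simp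
      simp only [h1]
      rw [Finset.sum_add_distrib, ← Finset.smul_sum, ← hξc, Finset.sum_ite_mem,
        Finset.univ_inter]
  · apply hball
    rw [Real.dist_eq, sub_zero, abs_of_pos e0]
    exact e1.trans_le (min_le_left _ _)

theorem facet_step {p : V → E} (hP : IsSimplicialPolytope p) {v : V} (hv : p v = 0)
    (z : V → ℝ)
    (hz : ∀ (τ : Finset V) (s s' : V), τ.card = 3 → v ∉ τ → s ≠ v → s' ≠ v → s ∉ τ → s' ∉ τ →
      s ≠ s' → IsFace p (insert s τ) → IsFace p (insert s' τ) → ¬ IsFace p (insert v τ) →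
      ∀ l : E →ₗ[ℝ] ℝ, (∀ a ∈ insert s τ, l (p a) = z a) → l (p s') = z s')
    {F F' : Finset V} (hF : IsFace p F) (hvF : v ∉ F) (h4 : F.card = 4)
    (hF' : IsFace p F') (hvF' : v ∉ F') (h4' : F'.card = 4) (l : E →ₗ[ℝ] ℝ)
    (hl : ∀ a ∈ F, l (p a) = z a) : ∀ a ∈ F', l (p a) = z a := by
  classical
  by_contra hcon
  obtain ⟨x, hx1, hx2, hx3⟩ := facet_point hP hv hF hvF h4 p
  obtain ⟨x', hx1', hx2', hx3'⟩ := facet_point hP hv hF' hvF' h4'
    (fun o : Option V => o.elim x p)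
  set γ : ℝ → E := fun s => (1 - s) • x + s • x' with hγ
  have hγc : Continuous γ := by rw [hγ]; fun_prop
  have hγi : ∀ s ∈ Set.Icc (0 : ℝ) 1, γ s ∈ interior (cone p) := by
    intro s hs
    apply (cone_convex p).interior hx2 hx2' (by linarith [hs.2]) hs.1
    ring
  have hγg : ∀ s, ∀ S : Finset V, S.card ≤ 2 → ∀ c : V → ℝ, (∀ a, a ∉ S → c a = 0) →
      γ s ≠ ∑ a, c a • p a := by
    intro s S hS c hc he
    by_cases hs : s = 0
    · apply hx3 S (by omega) c hc
      rw [← he, hγ, hs]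
      simp
    · apply hx3' (insert none (S.map Function.Embedding.some)) (by
          refine (Finset.card_insert_le _ _).trans ?_
          rw [Finset.card_map]; omega)
        (fun o => o.elim (-(s⁻¹ * (1 - s))) (fun a => s⁻¹ * c a))
      · intro o ho
        rw [Finset.mem_insert, not_or, Finset.mem_map] at ho
        rcases o with _ | a
        · exact absurd rfl ho.1
        · show s⁻¹ * c a = 0
          rw [hc a (fun ha => ho.2 ⟨a, ha, rfl⟩), mul_zero]
      · rw [Fintype.sum_option]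
        show x' = (-(s⁻¹ * (1 - s))) • x + ∑ a, (s⁻¹ * c a) • p a
        have h1 : ∑ a, (s⁻¹ * c a) • p a = s⁻¹ • ∑ a, c a • p a := by
          rw [Finset.smul_sum]
          apply Finset.sum_congr rfl
          intro a _
          rw [smul_smul]
        rw [h1, ← he, hγ]
        simp only [smul_add, smul_smul]
        rw [inv_mul_cancel₀ hs, one_smul, neg_smul, neg_add_cancel_left]
  -- the two closed sets
  set A : Set ℝ := ⋃ G : {G : Finset V // (IsFace p G ∧ v ∉ G ∧ G.card = 4) ∧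
    (∀ a ∈ G, l (p a) = z a)}, γ ⁻¹' {x | InC p G.1 x} with hA
  set B : Set ℝ := ⋃ G : {G : Finset V // (IsFace p G ∧ v ∉ G ∧ G.card = 4) ∧
    ¬ (∀ a ∈ G, l (p a) = z a)}, γ ⁻¹' {x | InC p G.1 x} with hB
  have hAc : IsClosed A := by
    apply isClosed_iUnion_of_finite
    rintro ⟨G, hG, -⟩
    exact (inC_closed hP hv hG.1 hG.2.1 hG.2.2).preimage hγc
  have hBc : IsClosed B := by
    apply isClosed_iUnion_of_finite
    rintro ⟨G, hG, -⟩
    exact (inC_closed hP hv hG.1 hG.2.1 hG.2.2).preimage hγc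
  have hcov : Set.Icc (0 : ℝ) 1 ⊆ A ∪ B := by
    intro s hs
    obtain ⟨σ, m, h1, h2, h3, h5, h6⟩ := cone_cover hP hv (hγi s hs)
    obtain ⟨G, g1, g2, g3, g4⟩ := extend_face hP hv h1 h2
    have hin : InC p G (γ s) := by
      refine ⟨m, ?_, ?_, h6⟩
      · intro a
        by_cases ha : a ∈ σ
        · exact (h3 a ha).le
        · rw [h5 a ha]
      · intro a ha
        exact h5 a (fun h => ha (g3 h))
    by_cases hlG : ∀ a ∈ G, l (p a) = z a
    · left
      rw [hA, Set.mem_iUnion]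
      exact ⟨⟨G, ⟨g1, g2, g4⟩, hlG⟩, hin⟩
    · right
      rw [hB, Set.mem_iUnion]
      exact ⟨⟨G, ⟨g1, g2, g4⟩, hlG⟩, hin⟩
  have h0A : (Set.Icc (0 : ℝ) 1 ∩ A).Nonempty := by
    refine ⟨0, by simp, ?_⟩
    rw [hA, Set.mem_iUnion]
    refine ⟨⟨F, ⟨hF, hvF, h4⟩, hl⟩, ?_⟩
    show InC p F (γ 0)
    rw [hγ]
    simpa using hx1
  have h1B : (Set.Icc (0 : ℝ) 1 ∩ B).Nonempty := by
    refine ⟨1, by simp, ?_⟩
    rw [hB, Set.mem_iUnion]
    refine ⟨⟨F', ⟨hF', hvF', h4'⟩, hcon⟩, ?_⟩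
    show InC p F' (γ 1)
    rw [hγ]
    simpa using hx1'
  obtain ⟨s, hs, hsA, hsB⟩ :=
    (isPreconnected_closed_iff.mp isPreconnected_Icc) A B hAc hBc hcov h0A h1B
  rw [hA, Set.mem_iUnion] at hsA
  rw [hB, Set.mem_iUnion] at hsB
  obtain ⟨⟨G, ⟨g1, g2, g4⟩, glz⟩, m, hm, hmG, hme⟩ := hsA
  obtain ⟨⟨G', ⟨g1', g2', g4'⟩, glz'⟩, m', hm', hmG', hme'⟩ := hsB
  set σ : Finset V := univ.filter (fun a => 0 < m a) with hσ
  set σ' : Finset V := univ.filter (fun a => 0 < m' a) with hσ'
  have hσG : σ ⊆ G := by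
    intro a ha
    rw [hσ, Finset.mem_filter] at ha
    by_contra haG
    have := hmG a haG
    rw [this] at ha
    exact lt_irrefl _ ha.2
  have hσG' : σ' ⊆ G' := by
    intro a ha
    rw [hσ', Finset.mem_filter] at ha
    by_contra haG
    have := hmG' a haG
    rw [this] at ha
    exact lt_irrefl _ ha.2
  have hmσ0 : ∀ a, a ∉ σ → m a = 0 := by
    intro a ha
    rw [hσ, Finset.mem_filter, not_and] at ha
    exact le_antisymm (not_lt.mp (ha (Finset.mem_univ a))) (hm a)
  have hmσ0' : ∀ a, a ∉ σ' → m' a = 0 := by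
    intro a ha
    rw [hσ', Finset.mem_filter, not_and] at ha
    exact le_antisymm (not_lt.mp (ha (Finset.mem_univ a))) (hm' a)
  have hmσ : ∀ a ∈ σ, 0 < m a := fun a ha => (Finset.mem_filter.mp ha).2
  have hmσ' : ∀ a ∈ σ', 0 < m' a := fun a ha => (Finset.mem_filter.mp ha).2
  have hσf := face_mono hP g1 hσG
  have hσf' := face_mono hP g1' hσG'
  have hvσ : v ∉ σ := fun h => g2 (hσG h)
  have hvσ' : v ∉ σ' := fun h => g2' (hσG' h)
  have heq : σ = σ' := cone_unique hv hσf hvσ hσf' hvσ' m m' hmσ hmσ0 hmσ' hmσ0'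
    (hme.symm.trans hme')
  have hσG2 : σ ⊆ G' := by rw [heq]; exact hσG'
  have hσ3 : 3 ≤ σ.card := by
    by_contra hlt
    exact hγg s σ (by omega) m hmσ0 hme
  have hσint : ¬ IsFace p (insert v σ) := by
    apply not_face_of_interior hP hv m hmσ hmσ0
    rw [← hme]
    exact hγi s hs
  have hσ4 : σ.card ≤ 4 := by
    rw [← g4]; exact Finset.card_le_card hσG
  by_cases hc4 : σ.card = 4
  · have e1 : σ = G := Finset.eq_of_subset_of_card_le hσG (by omega)
    have e2 : σ = G' := Finset.eq_of_subset_of_card_le hσG2 (by omega)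
    apply glz'
    rw [← e2, e1]
    exact glz
  · have hc3 : σ.card = 3 := by omega
    obtain ⟨s1, hs1G, hs1⟩ : ∃ s ∈ G, s ∉ σ := by
      by_contra hh
      push Not at hh
      have := Finset.card_le_card (show G ⊆ σ from hh)
      omega
    obtain ⟨s2, hs2G, hs2⟩ : ∃ s ∈ G', s ∉ σ := by
      by_contra hh
      push Not at hh
      have := Finset.card_le_card (show G' ⊆ σ from hh)
      omega
    have hG1 : insert s1 σ = G := by
      apply Finset.eq_of_subset_of_card_le (Finset.insert_subset hs1G hσG)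
      rw [Finset.card_insert_of_notMem hs1]; omega
    have hG2 : insert s2 σ = G' := by
      apply Finset.eq_of_subset_of_card_le (Finset.insert_subset hs2G hσG2)
      rw [Finset.card_insert_of_notMem hs2]; omega
    have hs12 : s1 ≠ s2 := by
      intro h
      apply glz'
      rw [← hG2, ← h, hG1]
      exact glz
    apply glz'
    rw [← hG2]
    intro a ha
    rw [Finset.mem_insert] at ha
    rcases ha with rfl | ha
    · exact hz σ s1 a hc3 hvσ (fun h => g2 (h ▸ hs1G)) (fun h => g2' (h ▸ hs2G)) hs1 hs2 hs12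
        (by rw [hG1]; exact g1) (by rw [hG2]; exact g1') hσint l (by rw [hG1]; exact glz)
    · exact glz a (hσG ha)

/-- zero bends at all interior walls imply linear -/
theorem linear_of_no_bends {p : V → E} (hP : IsSimplicialPolytope p) {v : V} (hv : p v = 0)
    (z : V → ℝ)
    (hz : ∀ (τ : Finset V) (s s' : V), τ.card = 3 → v ∉ τ → s ≠ v → s' ≠ v → s ∉ τ → s' ∉ τ →
      s ≠ s' → IsFace p (insert s τ) → IsFace p (insert s' τ) → ¬ IsFace p (insert v τ) →
      ∀ l : E →ₗ[ℝ] ℝ, (∀ a ∈ insert s τ, l (p a) = z a) → l (p s') = z s') :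
    ∃ l : E →ₗ[ℝ] ℝ, ∀ a, a ≠ v → z a = l (p a) := by
  obtain ⟨F, f1, f2, -, f4⟩ := extend_face hP hv
    (face_mono hP (hP.vertex v) (Finset.empty_subset _)) (Finset.notMem_empty v)
  obtain ⟨l, hl⟩ := interp hP hv f1 f2 z
  refine ⟨l, fun a ha => ?_⟩
  obtain ⟨F', g1, g2, g3, g4⟩ := extend_face hP hv (hP.vertex a) (by
    rw [Finset.mem_singleton]; exact ha.symm)
  exact (facet_step hP hv z hz f1 f2 f4 g1 g2 g4 l hl a (g3 (Finset.mem_singleton_self a))).symm

end Pool.Agent.TH47.Lev
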