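import Pool.Agent.TH47.Lev.J_A
import Pool.Agent.TH47.Lev.J_B
import Pool.Agent.TH47.Lev.J_F
import Pool.Agent.TH47.Lev.J_G

/-!
The degree functional (job J).
-/

namespace Pool.Agent.TH47.Lev

open MvPolynomial Finset

variable {V : Type} [Fintype V] [DecidableEq V]

namespace JJ

/-- the determinant form -/
noncomputable def dt : E [⋀^Fin 4]→ₗ[ℝ] ℝ := (Pi.basisFun ℝ (Fin 4)).det

/-- absolute volume of a set of four points -/
noncomputable def vol (p : V → E) (F : Finset V) : ℝ :=
  if h : F.card = 4 then |dt (fun i => p ((F.equivFinOfCardEq h).symm i))| else 0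

omit [Fintype V] in
theorem vol_eq (p : V → E) {F : Finset V} (e : Fin 4 → V) (he : Function.Injective e)
    (hF : Finset.univ.image e = F) : vol p F = |dt (fun i => p (e i))| := by
  have h : F.card = 4 := by rw [← hF, card_image_of_injective _ he]; simp
  unfold vol
  rw [dif_pos h]
  set e0 := (F.equivFinOfCardEq h).symm with he0
  have hm : ∀ i, e i ∈ F := fun i => hF ▸ mem_image_of_mem _ (mem_univ _)
  let e1 : Fin 4 → F := fun i => ⟨e i, hm i⟩
  have h1 : Function.Bijective e1 := (Fintype.bijective_iff_injective_and_card _).2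
    ⟨fun i j hij => he (congrArg Subtype.val hij), by simp [h]⟩
  let σ : Equiv.Perm (Fin 4) := (Equiv.ofBijective e1 h1).trans e0.symm
  have h2 : (fun i => p (e i)) = (fun i => p (e0 i)) ∘ σ := by
    funext i
    simp [σ, e1]
  rw [h2, AlternatingMap.map_perm]
  rcases Int.units_eq_one_or (Equiv.Perm.sign σ) with h | h <;> rw [h] <;> simp

theorem dt_ne {p : V → E} (hP : IsSimplicialPolytope p) {v : V} (hv : p v = 0) {F : Finset V}
    (hF : IsFace p F) (hvF : v ∉ F) (e : Fin 4 → V) (he : Function.Injective e)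
    (hi : Finset.univ.image e = F) : dt (fun i => p (e i)) ≠ 0 := by
  have hli : LinearIndependent ℝ (fun i => p (e i)) := by
    rw [Fintype.linearIndependent_iff]
    intro g hg i
    have h0 := lin_indep hP hv hF hvF (fun a => ∑ j, if e j = a then g j else 0) (by
      intro a ha
      refine Finset.sum_eq_zero fun j _ => if_neg ?_
      rintro rfl
      exact ha (hi ▸ mem_image_of_mem _ (mem_univ _))) (by
      simp_rw [Finset.sum_smul, ite_smul, zero_smul]
      rw [Finset.sum_comm]
      simpa using hg)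
    have h1 := congrFun h0 (e i)
    simp only [Pi.zero_apply] at h1
    rw [Finset.sum_eq_single i] at h1
    · simpa using h1
    · intro j _ hj
      exact if_neg fun h => hj (he h)
    · intro h
      exact absurd (mem_univ _) h
  let b := basisOfLinearIndependentOfCardEqFinrank hli (by simp)
  have hb : (fun i => p (e i)) = b := by simp [b]
  rw [hb]
  exact ((Pi.basisFun ℝ (Fin 4)).isUnit_det b).ne_zero

omit [Fintype V] in
/-- an enumeration -/
theorem enum4 {F : Finset V} (h : F.card = 4) : ∃ e : Fin 4 → V, Function.Injective e ∧ Finset.univ.image e = F := by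
  refine ⟨fun i => ((F.equivFinOfCardEq h).symm i : V), ?_, ?_⟩
  · intro i j hij
    exact (F.equivFinOfCardEq h).symm.injective (Subtype.ext hij)
  · ext a
    rw [mem_image]
    constructor
    · rintro ⟨i, _, rfl⟩
      exact ((F.equivFinOfCardEq h).symm i).2
    · intro ha
      exact ⟨F.equivFinOfCardEq h ⟨a, ha⟩, mem_univ _, by simp⟩

theorem vol_pos {p : V → E} (hP : IsSimplicialPolytope p) {v : V} (hv : p v = 0) {F : Finset V}
    (hF : IsFace p F) (hvF : v ∉ F) (h4 : F.card = 4) : 0 < vol p F := by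
  obtain ⟨e, he, hi⟩ := enum4 h4
  rw [vol_eq p e he hi]
  exact abs_pos.mpr (dt_ne hP hv hF hvF e he hi)

/-- the functional vanishing on a triangle -/
noncomputable def gf (p : V → E) (a b c : V) : E →ₗ[ℝ] ℝ :=
  dt.toMultilinearMap.toLinearMap ![p a, p b, p c, 0] 3

omit [Fintype V] [DecidableEq V] in
theorem gf_apply (p : V → E) (a b c : V) (x : E) : gf p a b c x = dt ![p a, p b, p c, x] := by
  unfold gf
  rw [MultilinearMap.toLinearMap_apply]
  have : Function.update ![p a, p b, p c, 0] (3 : Fin 4) x = ![p a, p b, p c, x] := by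
    funext i
    fin_cases i <;> simp [Function.update]
  rw [this]
  rfl

omit [Fintype V] [DecidableEq V] in
theorem gf_zero (p : V → E) (a b c : V) : gf p a b c (p a) = 0 ∧ gf p a b c (p b) = 0 ∧ gf p a b c (p c) = 0 := by
  refine ⟨?_, ?_, ?_⟩ <;> rw [gf_apply]
  · exact dt.map_eq_zero_of_eq _ (i := 0) (j := 3) (by simp) (by decide)
  · exact dt.map_eq_zero_of_eq _ (i := 1) (j := 3) (by simp) (by decide)
  · exact dt.map_eq_zero_of_eq _ (i := 2) (j := 3) (by simp) (by decide)

omit [Fintype V] in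
theorem enum_tri {a b c s : V} (hab : a ≠ b) (hac : a ≠ c) (hbc : b ≠ c) (hs : s ∉ ({a, b, c} : Finset V)) :
    Function.Injective ![a, b, c, s] ∧ Finset.univ.image ![a, b, c, s] = insert s {a, b, c} := by
  simp only [mem_insert, mem_singleton, not_or] at hs
  obtain ⟨h1, h2, h3⟩ := hs
  constructor
  · intro i j hij
    fin_cases i <;> fin_cases j <;> simp_all
  · ext x
    simp [Finset.mem_image, Fin.exists_fin_succ]
    tauto

omit [Fintype V] in
theorem vol_tri (p : V → E) {a b c s : V} (hab : a ≠ b) (hac : a ≠ c) (hbc : b ≠ c)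
    (hs : s ∉ ({a, b, c} : Finset V)) : vol p (insert s {a, b, c}) = |gf p a b c (p s)| := by
  obtain ⟨h1, h2⟩ := enum_tri hab hac hbc hs
  rw [vol_eq p _ h1 h2, gf_apply]
  congr 2
  funext i
  fin_cases i <;> rfl

/-- the data -/
structure Dat (p : V → E) (v : V) where
  ξ : E
  gen : ∀ S : Finset V, S.card ≤ 3 → ∀ c : V → ℝ, (∀ a, a ∉ S → c a = 0) → ξ ≠ ∑ a, c a • p a
  Fc : Finset (Finset V)
  memFc : ∀ F, F ∈ Fc ↔ IsFace p F ∧ v ∉ F ∧ F.card = 4
  lam : Finset V → V → ℝ
  out : ∀ F ∈ Fc, ∀ a, a ∉ F → lam F a = 0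
  rep : ∀ F ∈ Fc, ξ = ∑ a, lam F a • p a
  ne : ∀ F ∈ Fc, ∀ a ∈ F, lam F a ≠ 0

theorem exists_dat {p : V → E} (hP : IsSimplicialPolytope p) {v : V} (hv : p v = 0) : Nonempty (Dat p v) := by
  classical
  obtain ⟨ξ, hξ⟩ := generic_point p
  have h : ∀ F : Finset V, ∃ c : V → ℝ, (IsFace p F ∧ v ∉ F ∧ F.card = 4) →
      (∀ a, a ∉ F → c a = 0) ∧ ξ = ∑ a, c a • p a := by
    intro F
    by_cases hF : IsFace p F ∧ v ∉ F ∧ F.card = 4
    · obtain ⟨c, hc⟩ := coords hP hv hF.1 hF.2.1 hF.2.2 ξ
      exact ⟨c, fun _ => hc⟩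
    · exact ⟨0, fun h => absurd h hF⟩
  choose lam hlam using h
  refine ⟨{
    ξ := ξ
    gen := hξ
    Fc := Finset.univ.filter fun F => IsFace p F ∧ v ∉ F ∧ F.card = 4
    memFc := fun F => by simp
    lam := lam
    out := fun F hF => (hlam F (by simpa using hF)).1
    rep := fun F hF => (hlam F (by simpa using hF)).2
    ne := ?_ }⟩
  intro F hF a ha h0
  have hF' : IsFace p F ∧ v ∉ F ∧ F.card = 4 := by simpa using hF
  refine hξ (F.erase a) (by rw [card_erase_of_mem ha, hF'.2.2]) (lam F) ?_ (hlam F hF').2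
  intro b hb
  by_cases hba : b = a
  · rw [hba]; exact h0
  · exact (hlam F hF').1 b fun hbF => hb (mem_erase.mpr ⟨hba, hbF⟩)

section
variable {p : V → E} {v : V} (D : Dat p v)

/-- the coefficient of a facet -/
noncomputable def cof (F : Finset V) : ℝ := (vol p F)⁻¹ / ∏ a ∈ F, D.lam F a

/-- the functional -/
noncomputable def dg : MvPolynomial V ℝ →ₗ[ℝ] ℝ :=
  ∑ F ∈ D.Fc, cof D F • (MvPolynomial.aeval (D.lam F)).toLinearMap

theorem dg_apply (m : MvPolynomial V ℝ) : dg D m = ∑ F ∈ D.Fc, cof D F * MvPolynomial.aeval (D.lam F) m := by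
  unfold dg
  simp [LinearMap.sum_apply]

theorem aeval_L (F : Finset V) (f : V → ℝ) : MvPolynomial.aeval (D.lam F) (L f) = ∑ a, f a * D.lam F a := by
  rw [L_apply, map_sum]
  refine Finset.sum_congr rfl fun a _ => ?_
  rw [map_mul, MvPolynomial.aeval_X, MvPolynomial.aeval_C]
  rfl

theorem aeval_ev {F : Finset V} (hF : F ∈ D.Fc) (l : E →ₗ[ℝ] ℝ) :
    MvPolynomial.aeval (D.lam F) (L (ev p l)) = l D.ξ := by
  rw [aeval_L, D.rep F hF, map_sum]
  refine Finset.sum_congr rfl fun a _ => ?_
  rw [map_smul, smul_eq_mul, mul_comm]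
  rfl

theorem dg_L (l : E →ₗ[ℝ] ℝ) (m : MvPolynomial V ℝ) : dg D (L (ev p l) * m) = l D.ξ * dg D m := by
  rw [dg_apply, dg_apply, Finset.mul_sum]
  refine Finset.sum_congr rfl fun F hF => ?_
  rw [map_mul, aeval_ev D hF]
  ring

theorem dg_v (m : MvPolynomial V ℝ) : dg D (X v * m) = 0 := by
  rw [dg_apply]
  refine Finset.sum_eq_zero fun F hF => ?_
  rw [map_mul, MvPolynomial.aeval_X, D.out F hF v ((D.memFc F).1 hF).2.1]
  ring

theorem dg_SR (hP : IsSimplicialPolytope p) {m : MvPolynomial V ℝ} (hm : m ∈ SR p) : dg D m = 0 := by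
  rw [dg_apply]
  refine Finset.sum_eq_zero fun F hF => ?_
  have h : SR p ≤ RingHom.ker (MvPolynomial.aeval (D.lam F) : MvPolynomial V ℝ →ₐ[ℝ] ℝ) := by
    unfold SR
    rw [Ideal.span_le]
    rintro _ ⟨σ, hσ, rfl⟩
    rw [SetLike.mem_coe, RingHom.mem_ker, map_prod]
    have : ∃ a ∈ σ, a ∉ F := by
      by_contra hcon
      push Not at hcon
      exact hσ (face_mono hP ((D.memFc F).1 hF).1 hcon)
    obtain ⟨a, ha, haF⟩ := this
    refine Finset.prod_eq_zero ha ?_
    rw [MvPolynomial.aeval_X, D.out F hF a haF]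
  have h2 := h hm
  rw [RingHom.mem_ker] at h2
  rw [h2, mul_zero]

theorem dg_prod (σ : Finset V) : dg D (∏ a ∈ σ, X a) = ∑ F ∈ D.Fc, cof D F * ∏ a ∈ σ, D.lam F a := by
  rw [dg_apply]
  refine Finset.sum_congr rfl fun F _ => ?_
  rw [map_prod]
  simp_rw [MvPolynomial.aeval_X]

theorem dg_facet (hP : IsSimplicialPolytope p) (hv : p v = 0) {F : Finset V} (hF : IsFace p F)
    (hvF : v ∉ F) (h4 : F.card = 4) : 0 < dg D (∏ a ∈ F, X a) := by
  have hm := (D.memFc F).2 ⟨hF, hvF, h4⟩
  rw [dg_prod, Finset.sum_eq_single F]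
  · unfold cof
    have h0 : ∏ a ∈ F, D.lam F a ≠ 0 := Finset.prod_ne_zero_iff.mpr (D.ne F hm)
    rw [div_mul_cancel₀ _ h0]
    exact inv_pos.mpr (vol_pos hP hv hF hvF h4)
  · intro F' hF' hne
    have : ∃ a ∈ F, a ∉ F' := by
      by_contra hcon
      push Not at hcon
      have := Finset.eq_of_subset_of_card_le (s := F) (t := F') hcon (by rw [h4, ((D.memFc F').1 hF').2.2])
      exact hne this.symm
    obtain ⟨a, ha, haF⟩ := this
    rw [Finset.prod_eq_zero ha (D.out F' hF' a haF), mul_zero]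
  · intro h
    exact absurd hm h

/-- interior triangles -/
theorem dg_tri (hP : IsSimplicialPolytope p) (hv : p v = 0) {a b c : V} (hab : a ≠ b) (hac : a ≠ c) (hbc : b ≠ c)
    (h : IsFace p {a, b, c}) (hvτ : v ∉ ({a, b, c} : Finset V)) (hi : ¬ IsFace p (insert v {a, b, c})) :
    dg D (∏ x ∈ ({a, b, c} : Finset V), X x) = 0 := by
  set τ : Finset V := {a, b, c} with hτ
  have hτ3 : τ.card = 3 := by
    rw [hτ, card_eq_three]
    exact ⟨a, b, c, hab, hac, hbc, rfl⟩
  set g := gf p a b c with hg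
  obtain ⟨g1, g2, g3⟩ := gf_zero p a b c
  have hgτ : ∀ x ∈ τ, g (p x) = 0 := by
    intro x hx
    rw [hτ, mem_insert, mem_insert, mem_singleton] at hx
    rcases hx with rfl | rfl | rfl
    · exact g1
    · exact g2
    · exact g3
  have hg0 : g ≠ 0 := by
    obtain ⟨F, hF, hvF, hτF, hF4⟩ := extend_face hP hv h hvτ
    obtain ⟨s, hs⟩ : ∃ s, F \ τ = {s} := by
      rw [← card_eq_one, card_sdiff_of_subset hτF, hF4, hτ3]
    have hsF : s ∈ F \ τ := by rw [hs]; exact mem_singleton_self _
    rw [mem_sdiff] at hsF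
    have hFs : insert s τ = F := by
      rw [← sdiff_union_of_subset hτF, hs]
      rfl
    intro h0
    have h1 := vol_pos hP hv hF hvF hF4
    rw [← hFs, vol_tri p hab hac hbc hsF.2, ← hg, h0] at h1
    simp at h1
  obtain ⟨s, s', hsv, hsv', hsτ, hsτ', hgs, hgs', hFs, hFs', huniq⟩ := two_facets hP hv hτ3 h hvτ hi g hg0 hgτ
  have key : ∀ u, u ∉ τ → u ≠ v → IsFace p (insert u τ) → g (p u) ≠ 0 →
      insert u τ ∈ D.Fc ∧ cof D (insert u τ) * ∏ x ∈ τ, D.lam (insert u τ) x = (|g (p u)|)⁻¹ * (g (p u) / g D.ξ) := by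
    intro u hu huv hFu hgu
    have hm : insert u τ ∈ D.Fc := (D.memFc _).2 ⟨hFu, by
      rw [mem_insert, not_or]; exact ⟨huv.symm, hvτ⟩, by rw [card_insert_of_notMem hu, hτ3]⟩
    refine ⟨hm, ?_⟩
    have hne := D.ne _ hm
    have hprod : ∏ x ∈ τ, D.lam (insert u τ) x ≠ 0 :=
      Finset.prod_ne_zero_iff.mpr fun x hx => hne x (mem_insert_of_mem hx)
    have hu0 := hne u (mem_insert_self _ _)
    have hgξ : g D.ξ = D.lam (insert u τ) u * g (p u) := by
      conv_lhs => rw [D.rep _ hm]
      rw [map_sum, Finset.sum_eq_single u]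
      · rw [map_smul, smul_eq_mul]
      · intro x _ hxu
        rw [map_smul, smul_eq_mul]
        by_cases hx : x ∈ τ
        · rw [hgτ x hx, mul_zero]
        · rw [D.out _ hm x (by rw [mem_insert, not_or]; exact ⟨hxu, hx⟩), zero_mul]
      · intro h; exact absurd (mem_univ _) h
    unfold cof
    rw [prod_insert hu, vol_tri p hab hac hbc hu, ← hg, hgξ]
    field_simp
  obtain ⟨m1, k1⟩ := key s hsτ hsv hFs hgs.ne'
  obtain ⟨m2, k2⟩ := key s' hsτ' hsv' hFs' hgs'.ne
  have hss : s ≠ s' := by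
    rintro rfl
    linarith
  have hne : insert s τ ≠ insert s' τ := by
    intro h
    have : s ∈ insert s' τ := h ▸ mem_insert_self _ _
    rw [mem_insert] at this
    rcases this with h | h
    · exact hss h
    · exact hsτ h
  rw [dg_prod, Finset.sum_eq_add_of_mem _ _ m1 m2 hne, k1, k2, abs_of_pos hgs, abs_of_neg hgs']
  · have e1 := hgs.ne'
    have e2 := hgs'.ne
    have x1 : (g (p s))⁻¹ * (g (p s) / g D.ξ) = 1 / g D.ξ := by field_simp
    have x2 : (-(g (p s')))⁻¹ * (g (p s') / g D.ξ) = -(1 / g D.ξ) := by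
      rw [inv_neg]; field_simp
    rw [x1, x2]
    ring
  · intro F hF hneF
    obtain ⟨hF1, hF2, hF4⟩ := (D.memFc F).1 hF
    have : ∃ x ∈ τ, x ∉ F := by
      by_contra hcon
      push Not at hcon
      have hτF : τ ⊆ F := hcon
      obtain ⟨u, hu⟩ : ∃ u, F \ τ = {u} := by
        rw [← card_eq_one, card_sdiff_of_subset hτF, hF4, hτ3]
      have huF : u ∈ F \ τ := by rw [hu]; exact mem_singleton_self _
      rw [mem_sdiff] at huF
      have hFu : insert u τ = F := by
        rw [← sdiff_union_of_subset hτF, hu]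
        rfl
      rcases huniq u huF.2 (fun h => hF2 (h ▸ huF.1)) (hFu ▸ hF1) with h | h
      · exact hneF.1 (by rw [← hFu, h])
      · exact hneF.2 (by rw [← hFu, h])
    obtain ⟨x, hx, hxF⟩ := this
    rw [Finset.prod_eq_zero hx (D.out F hF x hxF), mul_zero]

/-- expansion of a linear form -/
theorem dg_expand (f : V → ℝ) (m : MvPolynomial V ℝ) : dg D (L f * m) = ∑ c, f c * dg D (X c * m) := by
  rw [L_apply, Finset.sum_mul, map_sum]
  refine Finset.sum_congr rfl fun c _ => ?_
  rw [mul_assoc, MvPolynomial.C_mul', map_smul, smul_eq_mul]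

/-- a functional vanishing on a small set and not at `ξ` -/
theorem exists_t (S : Finset V) (hS : S.card ≤ 3) :
    ∃ t : E →ₗ[ℝ] ℝ, (∀ a ∈ S, t (p a) = 0) ∧ t D.ξ ≠ 0 := by
  have hnot : D.ξ ∉ Submodule.span ℝ (p '' (S : Set V)) := by
    intro h
    rw [Submodule.mem_span_image_finset_iff_exists_fun] at h
    obtain ⟨c, hc⟩ := h
    refine D.gen S hS (fun a => if h : a ∈ S then c ⟨a, h⟩ else 0) (fun a ha => dif_neg ha) ?_
    rw [← hc, ← Finset.sum_subset (Finset.subset_univ S) (fun a _ ha => by rw [dif_neg ha, zero_smul]),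
      ← Finset.sum_coe_sort S]
    refine Finset.sum_congr rfl fun i _ => ?_
    rw [dif_pos i.2]
  obtain ⟨t, ht1, ht2⟩ := Submodule.exists_le_ker_of_notMem hnot
  refine ⟨t, fun a ha => ?_, ht1⟩
  exact ht2 (Submodule.subset_span ⟨a, ha, rfl⟩)

/-- interior edges, quadratic part and cubic parts -/
theorem dg_edge (hP : IsSimplicialPolytope p) (hv : p v = 0) {α β : V} (hαβ : α ≠ β) (hα : α ≠ v) (hβ : β ≠ v)
    (he : IsFace p {α, β}) (hi : ¬ IsFace p {v, α, β}) :
    dg D (X α * X β) = 0 ∧ ∀ c, dg D (X c * (X α * X β)) = 0 := by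
  have hvαβ : v ∉ ({α, β} : Finset V) := by
    rw [mem_insert, mem_singleton, not_or]; exact ⟨hα.symm, hβ.symm⟩
  have hoff : ∀ c, c ≠ α → c ≠ β → dg D (X c * (X α * X β)) = 0 := by
    intro c hcα hcβ
    by_cases hcv : c = v
    · rw [hcv]; exact dg_v D _
    have hprod : (∏ x ∈ ({c, α, β} : Finset V), (X x : MvPolynomial V ℝ)) = X c * (X α * X β) := by
      rw [prod_insert (by simp [hcα, hcβ]), prod_pair hαβ]
    by_cases hf : IsFace p {c, α, β}
    · rw [← hprod]
      refine dg_tri D hP hv hcα hcβ hαβ hf (by simp [Ne.symm hcv, hα.symm, hβ.symm]) ?_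
      intro h
      refine hi (face_mono hP h ?_)
      intro x hx
      simp only [mem_insert, mem_singleton] at hx ⊢
      tauto
    · refine dg_SR D hP ?_
      rw [← hprod]
      exact Ideal.subset_span ⟨_, hf, rfl⟩
  have h2 : dg D (X α * X β) = 0 := by
    obtain ⟨t, ht, htξ⟩ := exists_t D {α, β} ((card_le_two).trans (by norm_num))
    have h3 := dg_L D t (X α * X β)
    rw [dg_expand, Finset.sum_eq_zero] at h3
    · rcases mul_eq_zero.mp h3.symm with h | h
      · exact absurd h htξ
      · exact h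
    · intro c _
      by_cases hcα : c = α
      · rw [hcα]; unfold ev; rw [ht α (by simp), zero_mul]
      by_cases hcβ : c = β
      · rw [hcβ]; unfold ev; rw [ht β (by simp), zero_mul]
      rw [hoff c hcα hcβ, mul_zero]
  refine ⟨h2, fun c => ?_⟩
  by_cases hcα : c = α
  · obtain ⟨k, hk⟩ := interp hP hv he hvαβ (fun x => if x = α then 1 else 0)
    have h3 := dg_L D k (X α * X β)
    rw [dg_expand, h2, mul_zero, Finset.sum_eq_single α] at h3
    · unfold ev at h3
      rw [hk α (by simp), if_pos rfl, one_mul] at h3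
      rw [hcα]; exact h3
    · intro x _ hx
      by_cases hxβ : x = β
      · unfold ev; rw [hxβ, hk β (by simp), if_neg hαβ.symm, zero_mul]
      · rw [hoff x hx hxβ, mul_zero]
    · intro h; exact absurd (mem_univ _) h
  by_cases hcβ : c = β
  · obtain ⟨k, hk⟩ := interp hP hv he hvαβ (fun x => if x = β then 1 else 0)
    have h3 := dg_L D k (X α * X β)
    rw [dg_expand, h2, mul_zero, Finset.sum_eq_single β] at h3
    · unfold ev at h3
      rw [hk β (by simp), if_pos rfl, one_mul] at h3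
      rw [hcβ]; exact h3
    · intro x _ hx
      by_cases hxα : x = α
      · unfold ev; rw [hxα, hk α (by simp), if_neg hαβ, zero_mul]
      · rw [hoff x hxα hx, mul_zero]
    · intro h; exact absurd (mem_univ _) h
  exact hoff c hcα hcβ

/-- interior vertices -/
theorem dg_vert (hP : IsSimplicialPolytope p) (hv : p v = 0) {w : V} (hw : w ≠ v) (hi : ¬ IsFace p {v, w}) :
    ∀ c d, dg D (X d * (X c * X w)) = 0 := by
  have hwf : IsFace p {w} := hP.vertex w
  have hvw : v ∉ ({w} : Finset V) := by rw [mem_singleton]; exact hw.symm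
  -- products with other vertices
  have hoff : ∀ c, c ≠ w → dg D (X c * X w) = 0 ∧ ∀ d, dg D (X d * (X c * X w)) = 0 := by
    intro c hc
    by_cases hcv : c = v
    · rw [hcv]
      refine ⟨dg_v D _, fun d => ?_⟩
      have : (X d * (X v * X w) : MvPolynomial V ℝ) = X v * (X d * X w) := by ring
      rw [this]; exact dg_v D _
    by_cases hf : IsFace p {c, w}
    · refine dg_edge D hP hv hc hcv hw hf ?_
      intro h
      refine hi (face_mono hP h ?_)
      intro x hx
      simp only [mem_insert, mem_singleton] at hx ⊢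
      tauto
    · have hm : (X c * X w : MvPolynomial V ℝ) ∈ SR p := by
        rw [← prod_pair hc]
        exact Ideal.subset_span ⟨_, hf, rfl⟩
      exact ⟨dg_SR D hP hm, fun d => dg_SR D hP (Ideal.mul_mem_left _ _ hm)⟩
  obtain ⟨t, ht, htξ⟩ := exists_t D {w} (by simp)
  have h1 : dg D (X w) = 0 := by
    have h3 := dg_L D t (X w)
    rw [dg_expand, Finset.sum_eq_zero] at h3
    · rcases mul_eq_zero.mp h3.symm with h | h
      · exact absurd h htξ
      · exact h
    · intro c _
      by_cases hcw : c = w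
      · rw [hcw]; unfold ev; rw [ht w (by simp), zero_mul]
      rw [(hoff c hcw).1, mul_zero]
  obtain ⟨k, hk⟩ := interp hP hv hwf hvw (fun _ => 1)
  have h2 : dg D (X w * X w) = 0 := by
    have h3 := dg_L D k (X w)
    rw [dg_expand, h1, mul_zero, Finset.sum_eq_single w] at h3
    · unfold ev at h3
      rw [hk w (by simp), one_mul] at h3
      exact h3
    · intro x _ hx
      rw [(hoff x hx).1, mul_zero]
    · intro h; exact absurd (mem_univ _) h
  intro c d
  by_cases hc : c = w
  · rw [hc]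
    by_cases hd : d = w
    · rw [hd]
      have h3 := dg_L D k (X w * X w)
      rw [dg_expand, h2, mul_zero, Finset.sum_eq_single w] at h3
      · unfold ev at h3
        rw [hk w (by simp), one_mul] at h3
        exact h3
      · intro x _ hx
        have : (X x * (X w * X w) : MvPolynomial V ℝ) = X w * (X x * X w) := by ring
        rw [this, (hoff x hx).2, mul_zero]
      · intro h; exact absurd (mem_univ _) h
    · have : (X d * (X w * X w) : MvPolynomial V ℝ) = X w * (X d * X w) := by ring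
      rw [this]
      exact (hoff d hd).2 w
  · exact (hoff c hc).2 d

end

end JJ

open JJ in
theorem exists_degFun {p : V → E} (hP : IsSimplicialPolytope p) {v : V} (hv : p v = 0) :
    Nonempty (DegFun p v) := by
  obtain ⟨D⟩ := exists_dat hP hv
  exact ⟨{
    deg := dg D
    d1 := dg_v D
    d2 := fun m hm => dg_SR D hP hm
    d3 := by
      intro α β hαβ hα hβ he hi l a
      have e1 : L (ev p l) * X α * X β * L a = L (ev p l) * (L a * (X α * X β)) := by ring
      rw [e1, dg_L, dg_expand, Finset.sum_eq_zero, mul_zero]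
      intro c _
      rw [(dg_edge D hP hv hαβ hα hβ he hi).2 c, mul_zero]
    d4 := by
      intro w hw hi l a b
      have e1 : L (ev p l) * X w * L a * L b = L (ev p l) * (L a * (L b * X w)) := by ring
      rw [e1, dg_L, dg_expand, Finset.sum_eq_zero, mul_zero]
      intro c _
      have e2 : (X c * (L b * X w) : MvPolynomial V ℝ) = L b * (X c * X w) := by ring
      rw [e2, dg_expand, Finset.sum_eq_zero, mul_zero]
      intro d _
      rw [dg_vert D hP hv hw hi c d, mul_zero]
    d5 := fun F hF hvF h4 => dg_facet D hP hv hF hvF h4 }⟩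

end Pool.Agent.TH47.Lev
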