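import Pool.Agent.TH47.Lev.J_A
import Pool.Agent.TH47.Lev.J_F

namespace Pool.Agent.TH47.Lev

open MvPolynomial Finset

variable {V : Type} [Fintype V] [DecidableEq V]

theorem deg_expand {p : V → E} {v : V} (D : DegFun p v) (l : E →ₗ[ℝ] ℝ)
    (m : MvPolynomial V ℝ) : D.deg (L (fun _ => 1) * m)
      = D.deg (L (ev p l) * m) + ∑ u, (1 - l (p u)) * D.deg (X u * m) := by
  have h1 : L (fun _ : V => (1 : ℝ)) = L (ev p l) + ∑ u, C (1 - l (p u)) * X u := by
    rw [L_apply, L_apply, ← Finset.sum_add_distrib]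
    apply Finset.sum_congr rfl
    intro u _
    rw [← add_mul, ← C_add]
    congr 2
    simp [ev]
  rw [h1, add_mul, map_add, Finset.sum_mul, map_sum]
  congr 1
  apply Finset.sum_congr rfl
  intro u _
  rw [mul_assoc, ← smul_eq_C_mul, map_smul, smul_eq_mul]

theorem deg_pos_tri {p : V → E} (hP : IsSimplicialPolytope p) {v : V} (hv : p v = 0)
    (D : DegFun p v) {α β γ : V} (hαβ : α ≠ β) (hαγ : α ≠ γ) (hβγ : β ≠ γ)
    (hα : α ≠ v) (hβ : β ≠ v) (hγ : γ ≠ v)
    (ht : IsFace p {α, β, γ}) (hi : ¬ IsFace p {v, α, β}) :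
    0 < D.deg (L (fun _ => 1) * X α * X β * X γ) := by
  have hvτ : v ∉ ({α, β, γ} : Finset V) := by
    simp only [Finset.mem_insert, Finset.mem_singleton, not_or]
    exact ⟨hα.symm, hβ.symm, hγ.symm⟩
  obtain ⟨l, l1, l2⟩ := supp_functional hv ht hvτ
  have hab : IsFace p {α, β} := face_mono hP ht (by
    intro x hx
    simp only [Finset.mem_insert, Finset.mem_singleton] at hx ⊢
    tauto)
  have e0 : (L (fun _ : V => (1 : ℝ)) * X α * X β * X γ : MvPolynomial V ℝ)
      = L (fun _ => 1) * (X α * X β * X γ) := by ring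
  rw [e0, deg_expand D l]
  have z1 : D.deg (L (ev p l) * (X α * X β * X γ)) = 0 := by
    have := D.d3 α β hαβ hα hβ hab hi l (dl γ)
    rw [L_dl] at this
    rw [← this]
    congr 1
    ring
  rw [z1, zero_add]
  -- the value of a term
  have hterm : ∀ u, u ∉ ({α, β, γ} : Finset V) → u ≠ v →
      (IsFace p (insert u {α, β, γ}) → 0 < D.deg (X u * (X α * X β * X γ))) ∧
      (¬ IsFace p (insert u {α, β, γ}) → D.deg (X u * (X α * X β * X γ)) = 0) := by
    intro u hu huv
    have hprod : (X u * (X α * X β * X γ) : MvPolynomial V ℝ)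
        = ∏ a ∈ insert u ({α, β, γ} : Finset V), X a := by
      rw [Finset.prod_insert hu, Finset.prod_insert (by simp [hαβ, hαγ]),
        Finset.prod_insert (by simp [hβγ]), Finset.prod_singleton]
      ring
    constructor
    · intro hF
      rw [hprod]
      apply D.d5 _ hF
      · rw [Finset.mem_insert, not_or]
        exact ⟨huv.symm, hvτ⟩
      · rw [Finset.card_insert_of_notMem hu, Finset.card_eq_three.mpr ⟨α, β, γ, hαβ, hαγ, hβγ, rfl⟩]
    · intro hF
      apply D.d2
      rw [hprod]
      exact Ideal.subset_span ⟨_, hF, rfl⟩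
  have hnn : ∀ u, 0 ≤ (1 - l (p u)) * D.deg (X u * (X α * X β * X γ)) := by
    intro u
    by_cases hu : u ∈ ({α, β, γ} : Finset V)
    · rw [l1 u hu]; simp
    by_cases huv : u = v
    · subst huv
      rw [D.d1]; simp
    have hl := l2 u hu
    apply mul_nonneg (by linarith)
    by_cases hF : IsFace p (insert u {α, β, γ})
    · exact ((hterm u hu huv).1 hF).le
    · exact ((hterm u hu huv).2 hF).ge
  obtain ⟨F, hF, hvF, hsub, hcard⟩ := extend_face hP hv ht hvτ
  have hτc : ({α, β, γ} : Finset V).card = 3 := Finset.card_eq_three.mpr ⟨α, β, γ, hαβ, hαγ, hβγ, rfl⟩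
  obtain ⟨u, huF, hu⟩ : ∃ u ∈ F, u ∉ ({α, β, γ} : Finset V) := by
    by_contra hcon
    push Not at hcon
    have := Finset.card_le_card (show F ⊆ {α, β, γ} from hcon)
    omega
  have huv : u ≠ v := fun h => hvF (h ▸ huF)
  have hFu : IsFace p (insert u {α, β, γ}) := face_mono hP hF (Finset.insert_subset huF hsub)
  have hpos : 0 < (1 - l (p u)) * D.deg (X u * (X α * X β * X γ)) := by
    apply mul_pos
    · have := l2 u hu; linarith
    · exact (hterm u hu huv).1 hFu
  exact lt_of_lt_of_le hpos (Finset.single_le_sum (fun i _ => hnn i) (Finset.mem_univ u))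

theorem deg_pos_edge {p : V → E} (hP : IsSimplicialPolytope p) {v : V} (hv : p v = 0)
    (D : DegFun p v) {α β : V} (hαβ : α ≠ β) (hα : α ≠ v) (hβ : β ≠ v)
    (he : IsFace p {α, β}) (hi : ¬ IsFace p {v, α, β}) :
    0 < D.deg (L (fun _ => 1) * L (fun _ => 1) * X α * X β) := by
  have hve : v ∉ ({α, β} : Finset V) := by
    simp only [Finset.mem_insert, Finset.mem_singleton, not_or]
    exact ⟨hα.symm, hβ.symm⟩
  obtain ⟨l, l1, l2⟩ := supp_functional hv he hve
  have e0 : (L (fun _ : V => (1 : ℝ)) * L (fun _ => 1) * X α * X β : MvPolynomial V ℝ)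
      = L (fun _ => 1) * (L (fun _ => 1) * X α * X β) := by ring
  rw [e0, deg_expand D l]
  have z1 : D.deg (L (ev p l) * (L (fun _ => 1) * X α * X β)) = 0 := by
    have := D.d3 α β hαβ hα hβ he hi l (fun _ => 1)
    rw [← this]
    congr 1
    ring
  rw [z1, zero_add]
  have hterm : ∀ u, u ∉ ({α, β} : Finset V) → u ≠ v →
      (IsFace p {α, β, u} → 0 < D.deg (X u * (L (fun _ => 1) * X α * X β))) ∧
      (¬ IsFace p {α, β, u} → D.deg (X u * (L (fun _ => 1) * X α * X β)) = 0) := by
    intro u hu huv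
    simp only [Finset.mem_insert, Finset.mem_singleton, not_or] at hu
    obtain ⟨huα, huβ⟩ := hu
    constructor
    · intro hF
      have := deg_pos_tri hP hv D hαβ (Ne.symm huα) (Ne.symm huβ) hα hβ huv hF hi
      convert this using 2
      ring
    · intro hF
      apply D.d2
      have hprod : (X u * (L (fun _ => 1) * X α * X β) : MvPolynomial V ℝ)
          = L (fun _ => 1) * ∏ a ∈ ({α, β, u} : Finset V), X a := by
        rw [Finset.prod_insert (by simp [hαβ, Ne.symm huα]),
          Finset.prod_insert (by simp [Ne.symm huβ]), Finset.prod_singleton]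
        ring
      rw [hprod]
      exact Ideal.mul_mem_left _ _ (Ideal.subset_span ⟨_, hF, rfl⟩)
  have hnn : ∀ u, 0 ≤ (1 - l (p u)) * D.deg (X u * (L (fun _ => 1) * X α * X β)) := by
    intro u
    by_cases hu : u ∈ ({α, β} : Finset V)
    · rw [l1 u hu]; simp
    by_cases huv : u = v
    · subst huv
      rw [D.d1]; simp
    have hl := l2 u hu
    apply mul_nonneg (by linarith)
    by_cases hF : IsFace p {α, β, u}
    · exact ((hterm u hu huv).1 hF).le
    · exact ((hterm u hu huv).2 hF).ge
  obtain ⟨F, hF, hvF, hsub, hcard⟩ := extend_face hP hv he hve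
  obtain ⟨u, huF, hu⟩ : ∃ u ∈ F, u ∉ ({α, β} : Finset V) := by
    by_contra hcon
    push Not at hcon
    have := Finset.card_le_card (show F ⊆ {α, β} from hcon)
    have := Finset.card_le_two (a := α) (b := β)
    omega
  have huv : u ≠ v := fun h => hvF (h ▸ huF)
  have hFu : IsFace p {α, β, u} := face_mono hP hF (by
    intro x hx
    simp only [Finset.mem_insert, Finset.mem_singleton] at hx
    rcases hx with rfl | rfl | rfl
    · exact hsub (by simp)
    · exact hsub (by simp)
    · exact huF)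
  have hpos : 0 < (1 - l (p u)) * D.deg (X u * (L (fun _ => 1) * X α * X β)) := by
    apply mul_pos
    · have := l2 u hu; linarith
    · exact (hterm u hu huv).1 hFu
  exact lt_of_lt_of_le hpos (Finset.single_le_sum (fun i _ => hnn i) (Finset.mem_univ u))

end Pool.Agent.TH47.Lev
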