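import Pool.Agent.TH47.Lev.Defs
import Pool.Agent.TH47.Lev.J_A
import Pool.Agent.TH47.Lev.J_B
import Pool.Agent.TH47.Lev.J_E
import Pool.Agent.TH47.Lev.J_F

/-!
The polygon lemma, job LEV-L (helper298)
-/

set_option autoImplicit false

namespace Pool.Agent.TH47.Lev

open MvPolynomial Finset

variable {V : Type} [Fintype V] [DecidableEq V]

private theorem poly_sum (B : (V → ℝ) →ₗ[ℝ] (V → ℝ) →ₗ[ℝ] ℝ) (x y : V → ℝ) :
    B x y = ∑ u, x u * B (dl u) y := by
  have e : x = ∑ u, x u • dl u := by
    funext w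
    rw [Finset.sum_apply]
    simp [dl, Pi.single_apply]
  conv_lhs => rw [e, map_sum, LinearMap.sum_apply]
  refine Finset.sum_congr rfl fun u _ => ?_
  rw [map_smul, LinearMap.smul_apply, smul_eq_mul]

private theorem sum_dl (p : V → E) (u : V) (c : ℝ) : ∑ a, (c • dl u : V → ℝ) a • p a = c • p u := by
  rw [Finset.sum_eq_single u]
  · simp [dl]
  · intro b _ hb
    simp [dl, hb]
  · intro h; exact absurd (Finset.mem_univ u) h

omit [DecidableEq V] in
private theorem sum_add_smul (p : V → E) (m m' : V → ℝ) :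
    ∑ a, (m + m') a • p a = ∑ a, m a • p a + ∑ a, m' a • p a := by
  rw [← Finset.sum_add_distrib]
  exact Finset.sum_congr rfl fun a _ => by rw [Pi.add_apply, add_smul]

/-- uniqueness modulo the span of an edge -/
private theorem cone_unique_mod {p : V → E} {v : V} (hv : p v = 0) {α β : V} {σ σ' : Finset V}
    (h : IsFace p σ) (hvσ : v ∉ σ) (h' : IsFace p σ') (hvσ' : v ∉ σ')
    (hα : α ∈ σ) (hβ : β ∈ σ) (hα' : α ∈ σ') (hβ' : β ∈ σ')
    (m m' : V → ℝ) (hm : ∀ a ∈ σ, a ≠ α → a ≠ β → 0 < m a) (hm0 : ∀ a, a ∉ σ → m a = 0)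
    (hm' : ∀ a ∈ σ', a ≠ α → a ≠ β → 0 < m' a) (hm0' : ∀ a, a ∉ σ' → m' a = 0)
    (he : ∑ a, m a • p a = ∑ a, m' a • p a) : σ = σ' := by
  set K : ℝ := |m α| + |m β| + |m' α| + |m' β| + 1 with hK
  set d : V → ℝ := K • dl α + K • dl β with hd
  have hK0 : 0 < K := by positivity
  have hd0 : ∀ a, 0 ≤ d a := by
    intro a
    have h1 : 0 ≤ dl α a := by unfold dl; by_cases h : a = α <;> simp [h]
    have h2 : 0 ≤ dl β a := by unfold dl; by_cases h : a = β <;> simp [h]
    simp only [hd, Pi.add_apply, Pi.smul_apply, smul_eq_mul]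
    positivity
  have hdα : K ≤ d α := by
    have h2 : 0 ≤ dl β α := by unfold dl; by_cases h : α = β <;> simp [h]
    simp only [hd, Pi.add_apply, Pi.smul_apply, smul_eq_mul]
    have : dl α α = 1 := by simp [dl]
    rw [this]
    nlinarith
  have hdβ : K ≤ d β := by
    have h2 : 0 ≤ dl α β := by unfold dl; by_cases h : β = α <;> simp [h]
    simp only [hd, Pi.add_apply, Pi.smul_apply, smul_eq_mul]
    have : dl β β = 1 := by simp [dl]
    rw [this]
    nlinarith
  have hd' : ∀ a, a ≠ α → a ≠ β → d a = 0 := by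
    intro a h1 h2
    simp [hd, dl, h1, h2]
  have b1 := neg_abs_le (m α)
  have b2 := neg_abs_le (m β)
  have b3 := neg_abs_le (m' α)
  have b4 := neg_abs_le (m' β)
  have c1 := abs_nonneg (m α)
  have c2 := abs_nonneg (m β)
  have c3 := abs_nonneg (m' α)
  have c4 := abs_nonneg (m' β)
  refine cone_unique hv h hvσ h' hvσ' (m + d) (m' + d) ?_ ?_ ?_ ?_ ?_
  · intro a ha
    rw [Pi.add_apply]
    by_cases h1 : a = α
    · rw [h1]; linarith
    by_cases h2 : a = β
    · rw [h2]; linarith
    have := hm a ha h1 h2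
    have := hd0 a
    linarith
  · intro a ha
    have h1 : a ≠ α := by rintro rfl; exact ha hα
    have h2 : a ≠ β := by rintro rfl; exact ha hβ
    rw [Pi.add_apply, hm0 a ha, hd' a h1 h2, add_zero]
  · intro a ha
    rw [Pi.add_apply]
    by_cases h1 : a = α
    · rw [h1]; linarith
    by_cases h2 : a = β
    · rw [h2]; linarith
    have := hm' a ha h1 h2
    have := hd0 a
    linarith
  · intro a ha
    have h1 : a ≠ α := by rintro rfl; exact ha hα'
    have h2 : a ≠ β := by rintro rfl; exact ha hβ'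
    rw [Pi.add_apply, hm0' a ha, hd' a h1 h2, add_zero]
  · rw [sum_add_smul p m d, sum_add_smul p m' d, he]

private theorem lin_eq_zero {p : V → E} (hP : IsSimplicialPolytope p) {v : V} (hv : p v = 0)
    {σ : Finset V} (h : IsFace p σ) (hvσ : v ∉ σ) (h4 : σ.card = 4) (l : E →ₗ[ℝ] ℝ)
    (hl : ∀ a ∈ σ, l (p a) = 0) : l = 0 := by
  ext x
  simp only [LinearMap.zero_comp, LinearMap.coe_comp, Function.comp_apply, LinearMap.zero_apply]
  obtain ⟨c, hc, hx⟩ := coords hP hv h hvσ h4 (LinearMap.single ℝ (fun _ : Fin 4 => ℝ) x 1)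
  rw [hx, map_sum]
  refine Finset.sum_eq_zero fun a _ => ?_
  rw [map_smul]
  by_cases ha : a ∈ σ
  · rw [hl a ha, smul_zero]
  · rw [hc a ha, zero_smul]

/-- polygon lemma, abstract form -/
theorem polygon {p : V → E} (hP : IsSimplicialPolytope p) {v : V} (hv : p v = 0)
    {α β : V} (hαβ : α ≠ β) (hα : α ≠ v) (hβ : β ≠ v)
    (he : IsFace p {α, β}) (hi : ¬ IsFace p {v, α, β})
    (B : (V → ℝ) →ₗ[ℝ] (V → ℝ) →ₗ[ℝ] ℝ) (hB : ∀ a b, B a b = B b a)
    (h2 : ∀ (l : E →ₗ[ℝ] ℝ) (a : V → ℝ), B (ev p l) a = 0)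
    (h3 : ∀ u, u ≠ α → u ≠ β → ¬ IsFace p {α, β, u} → ∀ a, B (dl u) a = 0)
    (h3v : ∀ a, B (dl v) a = 0)
    (h4 : ∀ u w, u ≠ w → u ≠ α → u ≠ β → w ≠ α → w ≠ β → ¬ IsFace p {α, β, u, w} →
      B (dl u) (dl w) = 0)
    (h5 : ∀ u w, u ≠ w → u ≠ α → u ≠ β → w ≠ α → w ≠ β → u ≠ v → w ≠ v →
      IsFace p {α, β, u, w} → 0 < B (dl u) (dl w))
    (h6 : ∀ u, u ≠ α → u ≠ β → u ≠ v → IsFace p {α, β, u} → 0 < B (fun _ => 1) (dl u))
    (a : V → ℝ) (ha : B (fun _ => 1) a = 0) (haa : 0 ≤ B a a) (b : V → ℝ) : B a b = 0 := by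
  classical
  have hsum := poly_sum B
  have hve : v ∉ ({α, β} : Finset V) := by
    simp only [Finset.mem_insert, Finset.mem_singleton, not_or]
    exact ⟨hα.symm, hβ.symm⟩
  -- the radical
  have hrad : ∀ u, u ≠ α → u ≠ β → ¬ (u ≠ v ∧ IsFace p {α, β, u}) → ∀ y, B (dl u) y = 0 := by
    intro u hu1 hu2 hu3 y
    by_cases huv : u = v
    · rw [huv]; exact h3v y
    · exact h3 u hu1 hu2 (fun h => hu3 ⟨huv, h⟩) y
  -- (1)
  have key : ∀ y, (∀ u, u ≠ α → u ≠ β → u ≠ v → IsFace p {α, β, u} → B (dl u) y = 0) →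
      ∀ x, B x y = 0 := by
    intro y hy x
    have h7 : ∀ u, u ≠ α → u ≠ β → B (dl u) y = 0 := by
      intro u hu1 hu2
      by_cases hu : u ≠ v ∧ IsFace p {α, β, u}
      · exact hy u hu1 hu2 hu.1 hu.2
      · exact hrad u hu1 hu2 hu y
    have h8 : ∀ l : E →ₗ[ℝ] ℝ, l (p α) * B (dl α) y + l (p β) * B (dl β) y = 0 := by
      intro l
      have h9 := h2 l y
      rw [hsum, Finset.sum_eq_add α β hαβ] at h9
      · exact h9
      · intro c _ hc
        rw [h7 c hc.1 hc.2, mul_zero]
      · intro h; exact absurd (Finset.mem_univ _) h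
      · intro h; exact absurd (Finset.mem_univ _) h
    have hα0 : B (dl α) y = 0 := by
      obtain ⟨l, hl⟩ := interp hP hv he hve (dl α)
      have h9 := h8 l
      rw [hl α (by simp), hl β (by simp)] at h9
      simpa [dl, hαβ.symm] using h9
    have hβ0 : B (dl β) y = 0 := by
      obtain ⟨l, hl⟩ := interp hP hv he hve (dl β)
      have h9 := h8 l
      rw [hl α (by simp), hl β (by simp)] at h9
      simpa [dl, hαβ] using h9
    rw [hsum]
    refine Finset.sum_eq_zero fun u _ => ?_
    by_cases hu1 : u = α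
    · rw [hu1, hα0, mul_zero]
    by_cases hu2 : u = β
    · rw [hu2, hβ0, mul_zero]
    rw [h7 u hu1 hu2, mul_zero]
  -- (2)
  obtain ⟨l0, hl0, hl0'⟩ := supp_functional hv he hve
  have hc : ∀ y, B (fun _ => 1) y = ∑ u, (1 - l0 (p u)) * B (dl u) y := by
    intro y
    have h9 := h2 l0 y
    rw [hsum] at h9
    rw [hsum]
    have : ∑ u, (1 - l0 (p u)) * B (dl u) y = ∑ u, 1 * B (dl u) y - ∑ u, ev p l0 u * B (dl u) y := by
      rw [← Finset.sum_sub_distrib]
      refine Finset.sum_congr rfl fun u _ => ?_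
      rw [sub_mul]; rfl
    rw [this, h9, sub_zero]
  have hw0 : ∀ u, u ≠ α → u ≠ β → 0 < 1 - l0 (p u) := by
    intro u hu1 hu2
    have := hl0' u (by simp [hu1, hu2])
    linarith
  have hw1 : ∀ u, (u = α ∨ u = β) → 1 - l0 (p u) = 0 := by
    intro u hu
    rw [hl0 u (by rcases hu with h | h <;> simp [h])]
    ring
  -- the facet
  obtain ⟨F', hF', hvF', heF', hF'4⟩ := extend_face hP hv he hve
  have hαF' : α ∈ F' := heF' (by simp)
  have hβF' : β ∈ F' := heF' (by simp)
  have hcard2 : (F' \ {α, β}).card = 2 := by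
    rw [Finset.card_sdiff_of_subset heF', hF'4, Finset.card_pair hαβ]
  obtain ⟨r, s', hrs, hrs'⟩ := Finset.card_eq_two.mp hcard2
  have hr : r ∈ F' \ {α, β} := by rw [hrs']; simp
  have hs' : s' ∈ F' \ {α, β} := by rw [hrs']; simp
  simp only [Finset.mem_sdiff, Finset.mem_insert, Finset.mem_singleton, not_or] at hr hs'
  obtain ⟨hrF, hrα0, hrβ0⟩ := hr
  obtain ⟨hsF, hsα0, hsβ0⟩ := hs'
  have hrα : r ≠ α := hrα0
  have hrβ : r ≠ β := hrβ0
  have hsα : s' ≠ α := hsα0
  have hsβ : s' ≠ β := hsβ0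
  have hF'eq : ∀ x, x ∈ F' → x = α ∨ x = β ∨ x = r ∨ x = s' := by
    intro x hx
    by_cases h1 : x = α
    · exact Or.inl h1
    by_cases h7 : x = β
    · exact Or.inr (Or.inl h7)
    have : x ∈ F' \ {α, β} := by simp [hx, h1, h7]
    rw [hrs'] at this
    simp only [Finset.mem_insert, Finset.mem_singleton] at this
    tauto
  have hrv : r ≠ v := by rintro rfl; exact hvF' hrF
  have hrN : IsFace p {α, β, r} := face_mono hP hF' (by
    intro x hx
    simp only [Finset.mem_insert, Finset.mem_singleton] at hx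
    rcases hx with rfl | rfl | rfl <;> assumption)
  have hvr : v ∉ ({α, β, r} : Finset V) := by
    simp only [Finset.mem_insert, Finset.mem_singleton, not_or]
    exact ⟨hα.symm, hβ.symm, hrv.symm⟩
  obtain ⟨g, hg⟩ := interp hP hv hF' hvF' (dl s')
  obtain ⟨k, hk⟩ := interp hP hv hF' hvF' (dl r)
  have hgα : g (p α) = 0 := by rw [hg α hαF']; simp [dl, hsα.symm]
  have hgβ : g (p β) = 0 := by rw [hg β hβF']; simp [dl, hsβ.symm]
  have hgr : g (p r) = 0 := by rw [hg r hrF]; simp [dl, hrs]
  have hgs : g (p s') = 1 := by rw [hg s' hsF]; simp [dl]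
  have hkα : k (p α) = 0 := by rw [hk α hαF']; simp [dl, hrα.symm]
  have hkβ : k (p β) = 0 := by rw [hk β hβF']; simp [dl, hrβ.symm]
  have hkr : k (p r) = 1 := by rw [hk r hrF]; simp [dl]
  have hks : k (p s') = 0 := by rw [hk s' hsF]; simp [dl, hrs.symm]
  -- coordinates on the kernel of `g`
  have hker : ∀ x : E, g x = 0 → ∃ xα xβ : ℝ, x = k x • p r + xα • p α + xβ • p β := by
    intro x hx
    obtain ⟨c, hc0, hcx⟩ := coords hP hv hF' hvF' hF'4 x
    have e : ∀ l : E →ₗ[ℝ] ℝ, l x = c α * l (p α) + c β * l (p β) + c r * l (p r) + c s' * l (p s') := by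
      intro l
      rw [hcx, map_sum]
      have : ∑ a, l (c a • p a) = ∑ a ∈ ({α, β, r, s'} : Finset V), l (c a • p a) := by
        symm
        refine Finset.sum_subset (Finset.subset_univ _) fun x _ hx => ?_
        have hxF : x ∉ F' := by
          intro h
          apply hx
          simp only [Finset.mem_insert, Finset.mem_singleton]
          exact hF'eq x h
        rw [hc0 x hxF, zero_smul, map_zero]
      rw [this, Finset.sum_insert, Finset.sum_insert, Finset.sum_insert, Finset.sum_singleton]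
      · simp only [map_smul, smul_eq_mul]; ring
      · simp [hrs]
      · simp [hrβ.symm, hsβ.symm]
      · simp [hαβ, hrα.symm, hsα.symm]
    have e1 := e g
    rw [hgα, hgβ, hgr, hgs, hx] at e1
    have e2 := e k
    rw [hkα, hkβ, hkr, hks] at e2
    have hcs : c s' = 0 := by linarith
    have hck : c r = k x := by linarith
    refine ⟨c α, c β, ?_⟩
    have e3 : ∑ a, c a • p a = ∑ a ∈ ({α, β, r, s'} : Finset V), c a • p a := by
      symm
      refine Finset.sum_subset (Finset.subset_univ _) fun x _ hx => ?_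
      have hxF : x ∉ F' := by
        intro h
        apply hx
        simp only [Finset.mem_insert, Finset.mem_singleton]
        exact hF'eq x h
      rw [hc0 x hxF, zero_smul]
    rw [e3, Finset.sum_insert, Finset.sum_insert, Finset.sum_insert, Finset.sum_singleton, hcs, hck] at hcx
    · conv_lhs => rw [hcx]
      rw [zero_smul]
      abel
    · simp [hrs]
    · simp [hrβ.symm, hsβ.symm]
    · simp [hαβ, hrα.symm, hsα.symm]
  -- the opposite cone
  obtain ⟨F, m, hF, hvF, heF, hm, hm0, hmr⟩ := link_cover' hP hv he hve (by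
    intro h; exact hi h) (-p r)
  have hαF : α ∈ F := heF (by simp)
  have hβF : β ∈ F := heF (by simp)
  have hmF : ∀ a ∈ F, a ≠ α → a ≠ β → 0 < m a := by
    intro a ha h7 h8
    exact hm a ha (by simp [h7, h8])
  -- general comparison
  have hcmp : ∀ (σ : Finset V) (μ : V → ℝ), IsFace p σ → v ∉ σ → α ∈ σ → β ∈ σ →
      (∀ a ∈ σ, a ≠ α → a ≠ β → 0 < μ a) → (∀ a, a ∉ σ → μ a = 0) → g (∑ a, μ a • p a) = 0 →
      σ = {α, β, r} ∨ σ = {α, β} ∨ (σ = F ∧ k (∑ a, μ a • p a) < 0) := by
    intro σ μ hσ hvσ hασ hβσ hμ hμ0 hgμ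
    obtain ⟨xα, xβ, hx⟩ := hker _ hgμ
    set K := k (∑ a, μ a • p a) with hK
    rcases lt_trichotomy K 0 with hneg | hzero | hpos
    · right; right
      refine ⟨?_, hneg⟩
      refine cone_unique_mod hv hσ hvσ hF hvF hασ hβσ hαF hβF μ ((-K) • m + (xα • dl α + xβ • dl β)) hμ hμ0 ?_ ?_ ?_
      · intro a ha h7 h8
        have h9 := hmF a ha h7 h8
        simp only [Pi.add_apply, Pi.smul_apply, smul_eq_mul, dl, Pi.single_apply, h7, h8, if_false, mul_zero,
          add_zero]
        exact mul_pos (by linarith) h9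
      · intro a ha
        have h7 : a ≠ α := by rintro rfl; exact ha hαF
        have h8 : a ≠ β := by rintro rfl; exact ha hβF
        simp [dl, h7, h8, hm0 a ha]
      · rw [hx, sum_add_smul, sum_add_smul, sum_dl, sum_dl]
        have e1 : ∑ a, ((-K) • m) a • p a = K • p r := by
          have : ∑ a, ((-K) • m) a • p a = (-K) • ∑ a, m a • p a := by
            rw [Finset.smul_sum]
            exact Finset.sum_congr rfl fun a _ => by rw [Pi.smul_apply, smul_eq_mul, mul_smul]
          rw [this, ← hmr, smul_neg, neg_smul, neg_neg]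
        rw [e1, add_assoc]
    · right; left
      refine cone_unique_mod hv hσ hvσ he hve hασ hβσ (by simp) (by simp) μ (xα • dl α + xβ • dl β) hμ hμ0 ?_ ?_ ?_
      · intro a ha h7 h8
        simp only [Finset.mem_insert, Finset.mem_singleton] at ha
        rcases ha with h | h
        · exact absurd h h7
        · exact absurd h h8
      · intro a ha
        simp only [Finset.mem_insert, Finset.mem_singleton, not_or] at ha
        simp [dl, ha.1, ha.2]
      · rw [hx, sum_add_smul, sum_dl, sum_dl, hzero, zero_smul, zero_add]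
    · left
      refine cone_unique_mod hv hσ hvσ hrN hvr hασ hβσ (by simp) (by simp) μ (K • dl r + (xα • dl α + xβ • dl β))
        hμ hμ0 ?_ ?_ ?_
      · intro a ha h7 h8
        simp only [Finset.mem_insert, Finset.mem_singleton] at ha
        rcases ha with h | h | h
        · exact absurd h h7
        · exact absurd h h8
        · rw [h]
          simp [dl, hrα, hrβ, hpos]
      · intro a ha
        simp only [Finset.mem_insert, Finset.mem_singleton, not_or] at ha
        simp [dl, ha.1, ha.2.1, ha.2.2]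
      · rw [hx, sum_add_smul, sum_add_smul, sum_dl, sum_dl, sum_dl, add_assoc]
  -- (A)
  have hA : ∀ u, u ≠ α → u ≠ β → u ≠ v → IsFace p {α, β, u} → g (p u) = 0 → u ≠ r →
      ({α, β, u} : Finset V) = F ∧ k (p u) < 0 := by
    intro u hu1 hu2 huv hu hgu hur
    have hvu : v ∉ ({α, β, u} : Finset V) := by
      simp only [Finset.mem_insert, Finset.mem_singleton, not_or]
      exact ⟨hα.symm, hβ.symm, huv.symm⟩
    have hsu : ∑ a, (dl u) a • p a = p u := by
      have := sum_dl p u 1
      simpa using this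
    rcases hcmp {α, β, u} (dl u) hu hvu (by simp) (by simp) (by
      intro x hx h7 h8
      simp only [Finset.mem_insert, Finset.mem_singleton] at hx
      rcases hx with h | h | h
      · exact absurd h h7
      · exact absurd h h8
      · rw [h]; simp [dl]) (by
      intro x hx
      simp only [Finset.mem_insert, Finset.mem_singleton, not_or] at hx
      simp [dl, hx.2.2]) (by rw [hsu]; exact hgu) with h | h | h
    · exfalso
      have : u ∈ ({α, β, r} : Finset V) := by rw [← h]; simp
      simp only [Finset.mem_insert, Finset.mem_singleton] at this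
      tauto
    · exfalso
      have : u ∈ ({α, β} : Finset V) := by rw [← h]; simp
      simp only [Finset.mem_insert, Finset.mem_singleton] at this
      tauto
    · rw [hsu] at h; exact h
  -- (B)
  have hBc : ∀ u w, u ≠ α → u ≠ β → u ≠ v → w ≠ α → w ≠ β → w ≠ v → IsFace p {α, β, u, w} →
      0 < g (p u) → g (p w) < 0 → u ∈ F ∧ w ∈ F := by
    intro u w hu1 hu2 huv hw1' hw2 hwv huw hgu hgw
    have hne : u ≠ w := by rintro rfl; linarith
    have hvu : v ∉ ({α, β, u, w} : Finset V) := by
      simp only [Finset.mem_insert, Finset.mem_singleton, not_or]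
      exact ⟨hα.symm, hβ.symm, huv.symm, hwv.symm⟩
    have hsu : ∑ a, ((-g (p w)) • dl u + g (p u) • dl w) a • p a = (-g (p w)) • p u + g (p u) • p w := by
      rw [sum_add_smul, sum_dl, sum_dl]
    rcases hcmp {α, β, u, w} ((-g (p w)) • dl u + g (p u) • dl w) huw hvu (by simp) (by simp) (by
      intro x hx h7 h8
      simp only [Finset.mem_insert, Finset.mem_singleton] at hx
      rcases hx with h | h | h | h
      · exact absurd h h7
      · exact absurd h h8
      · rw [h]; simp [dl, hne, hgw]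
      · rw [h]; simp [dl, hne.symm, hgu]) (by
      intro x hx
      simp only [Finset.mem_insert, Finset.mem_singleton, not_or] at hx
      simp [dl, hx.2.2.1, hx.2.2.2]) (by
        rw [hsu, map_add, map_smul, map_smul, smul_eq_mul, smul_eq_mul]; ring) with h | h | h
    · exfalso
      have : u ∈ ({α, β, r} : Finset V) := by rw [← h]; simp
      simp only [Finset.mem_insert, Finset.mem_singleton] at this
      rcases this with h7 | h7 | h7
      · exact hu1 h7
      · exact hu2 h7
      · rw [h7, hgr] at hgu; exact lt_irrefl _ hgu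
    · exfalso
      have : u ∈ ({α, β} : Finset V) := by rw [← h]; simp
      simp only [Finset.mem_insert, Finset.mem_singleton] at this
      tauto
    · rw [← h.1]; simp
  -- the set of vanishing
  obtain ⟨Z, hZ5, hFZ, hrZ, hZ0⟩ : ∃ Z : Finset V, Z.card ≤ 5 ∧ F ⊆ Z ∧ r ∈ Z ∧
      ∀ l : E →ₗ[ℝ] ℝ, (∀ z ∈ Z, l (p z) = 0) → l = 0 := by
    by_cases hF4 : F.card = 4
    · refine ⟨insert r F, ?_, Finset.subset_insert _ _, Finset.mem_insert_self _ _, fun l hl => ?_⟩
      · have := Finset.card_insert_le r F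
        omega
      · exact lin_eq_zero hP hv hF hvF hF4 l fun z hz => hl z (Finset.mem_insert_of_mem hz)
    · refine ⟨F' ∪ F, ?_, Finset.subset_union_right, Finset.mem_union_left _ hrF, fun l hl => ?_⟩
      · have h7 := face_card_le hP hv hF hvF
        have h8 := Finset.card_union_add_card_inter F' F
        have h9 : ({α, β} : Finset V) ⊆ F' ∩ F := Finset.subset_inter heF' heF
        have h10 := Finset.card_le_card h9
        rw [Finset.card_pair hαβ] at h10
        omega
      · exact lin_eq_zero hP hv hF' hvF' hF'4 l fun z hz => hl z (Finset.mem_union_left _ hz)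
  -- the test vector
  obtain ⟨s1, s2, l, hne, hvan⟩ : ∃ (s1 s2 : ℝ) (l : E →ₗ[ℝ] ℝ), ¬ (s1 = 0 ∧ s2 = 0) ∧
      ∀ z ∈ Z, s1 + s2 * a z + l (p z) = 0 := by
    let T : (ℝ × ℝ × (E →ₗ[ℝ] ℝ)) →ₗ[ℝ] ({x // x ∈ Z} → ℝ) :=
      { toFun := fun q z => q.1 + q.2.1 * a z + q.2.2 (p z)
        map_add' := by
          intro q q'
          funext z
          simp only [Prod.fst_add, Prod.snd_add, LinearMap.add_apply, Pi.add_apply]
          ring
        map_smul' := by
          intro c q
          funext z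
          simp only [Prod.smul_fst, Prod.smul_snd, LinearMap.smul_apply, Pi.smul_apply, smul_eq_mul,
            RingHom.id_apply]
          ring }
    have hker' : LinearMap.ker T ≠ ⊥ := by
      apply LinearMap.ker_ne_bot_of_finrank_lt
      rw [Module.finrank_prod, Module.finrank_prod, Module.finrank_linearMap]
      simp only [Module.finrank_fintype_fun_eq_card, Fintype.card_coe, Module.finrank_self, Fintype.card_fin]
      omega
    obtain ⟨q, hq, hq0⟩ := (Submodule.ne_bot_iff _).mp hker'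
    rw [LinearMap.mem_ker] at hq
    have hq' : ∀ z ∈ Z, q.1 + q.2.1 * a z + q.2.2 (p z) = 0 := by
      intro z hz
      exact congrFun hq ⟨z, hz⟩
    refine ⟨q.1, q.2.1, q.2.2, ?_, hq'⟩
    rintro ⟨h7, h8⟩
    have h9 := hZ0 q.2.2 (fun z hz => by
      have := hq' z hz
      rw [h7, h8] at this
      simpa using this)
    exact hq0 (Prod.ext h7 (Prod.ext h8 h9))
  set y : V → ℝ := s1 • (fun _ => 1) + s2 • a + ev p l with hy
  have hyZ : ∀ z ∈ Z, y z = 0 := by
    intro z hz
    simp only [hy, Pi.add_apply, Pi.smul_apply, smul_eq_mul, mul_one, ev]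
    exact hvan z hz
  have hyF : ∀ z ∈ F, y z = 0 := fun z hz => hyZ z (hFZ hz)
  have hyr : y r = 0 := hyZ r hrZ
  have hyB : ∀ x, B x y = s1 * B x (fun _ => 1) + s2 * B x a := by
    intro x
    rw [hy, map_add, map_add, map_smul, map_smul, hB x (ev p l), h2 l x, smul_eq_mul, smul_eq_mul, add_zero]
  -- positivity of B(c,c)
  have hcc : 0 < B (fun _ => 1) (fun _ => 1) := by
    rw [hc]
    refine Finset.sum_pos' (fun u _ => ?_) ⟨r, Finset.mem_univ _, ?_⟩
    · by_cases hu1 : u = α
      · rw [hw1 u (Or.inl hu1), zero_mul]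
      by_cases hu2 : u = β
      · rw [hw1 u (Or.inr hu2), zero_mul]
      by_cases hu : u ≠ v ∧ IsFace p {α, β, u}
      · have := h6 u hu1 hu2 hu.1 hu.2
        rw [hB (dl u)]
        exact (mul_pos (hw0 u hu1 hu2) this).le
      · rw [hrad u hu1 hu2 hu, mul_zero]
    · rw [hB (dl r)]
      exact mul_pos (hw0 r hrα hrβ) (h6 r hrα hrβ hrv hrN)
  have hyy : B y y = s1 ^ 2 * B (fun _ => 1) (fun _ => 1) + s2 ^ 2 * B a a := by
    rw [hyB y, hB y (fun _ => 1), hB y a, hyB (fun _ => 1), hyB a, ha, hB a (fun _ => 1), ha]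
    ring
  have hyy0 : 0 ≤ B y y := by
    rw [hyy]
    positivity
  -- Picone
  set G : V → ℝ := ev p g with hG
  have hGα : G α = 0 := hgα
  have hGβ : G β = 0 := hgβ
  have hyα : y α = 0 := hyF α hαF
  have hyβ : y β = 0 := hyF β hβF
  set h : V → ℝ := fun u => y u / G u with hh
  have hin : ∀ u, (∃ w, B (dl u) (dl w) ≠ 0) → u = α ∨ u = β ∨ (u ≠ α ∧ u ≠ β ∧ u ≠ v ∧ IsFace p {α, β, u}) := by
    rintro u ⟨w, hw⟩
    by_cases hu1 : u = α
    · exact Or.inl hu1
    by_cases hu2 : u = β
    · exact Or.inr (Or.inl hu2)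
    right; right
    by_contra hcon
    exact hw (hrad u hu1 hu2 (fun h => hcon ⟨hu1, hu2, h.1, h.2⟩) (dl w))
  have hyG : ∀ u w, B (dl u) (dl w) ≠ 0 → y u = h u * G u := by
    intro u w hw
    by_cases hGu : G u = 0
    · rw [hGu, mul_zero]
      rcases hin u ⟨w, hw⟩ with h7 | h7 | ⟨hu1, hu2, huv, hu⟩
      · rw [h7, hyα]
      · rw [h7, hyβ]
      · by_cases hur : u = r
        · rw [hur, hyr]
        · have := hA u hu1 hu2 huv hu hGu hur
          exact hyF u (by rw [← this.1]; simp)
    · rw [hh]; field_simp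
  have hexp : ∀ x z : V → ℝ, B x z = ∑ u, ∑ w, x u * z w * B (dl u) (dl w) := by
    intro x z
    rw [hsum x z]
    refine Finset.sum_congr rfl fun u _ => ?_
    rw [hB (dl u) z, hsum z (dl u), Finset.mul_sum]
    refine Finset.sum_congr rfl fun w _ => ?_
    rw [hB (dl w) (dl u)]
    ring
  have hrow : ∀ u, ∑ w, G w * B (dl u) (dl w) = 0 := by
    intro u
    have h7 := h2 g (dl u)
    rw [hsum] at h7
    rw [← h7]
    exact Finset.sum_congr rfl fun w _ => by rw [hB (dl u) (dl w)]
  have hPic : ∑ u, ∑ w, B (dl u) (dl w) * G u * G w * (h u - h w) ^ 2 = - 2 * B y y := by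
    have e1 : ∑ u, ∑ w, B (dl u) (dl w) * G u * G w * (h u - h w) ^ 2 =
        ∑ u, ∑ w, (h u ^ 2 * G u * (G w * B (dl u) (dl w))) +
        ∑ u, ∑ w, (h w ^ 2 * G w * (G u * B (dl w) (dl u))) -
        2 * ∑ u, ∑ w, y u * y w * B (dl u) (dl w) := by
      rw [Finset.mul_sum, ← Finset.sum_add_distrib, ← Finset.sum_sub_distrib]
      refine Finset.sum_congr rfl fun u _ => ?_
      rw [Finset.mul_sum, ← Finset.sum_add_distrib, ← Finset.sum_sub_distrib]
      refine Finset.sum_congr rfl fun w _ => ?_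
      by_cases h0 : B (dl u) (dl w) = 0
      · rw [hB (dl w) (dl u), h0]; ring
      · rw [hyG u w h0, hyG w u (by rw [hB]; exact h0), hB (dl w) (dl u)]
        ring
    have e2 : ∑ u, ∑ w, (h u ^ 2 * G u * (G w * B (dl u) (dl w))) = 0 := by
      refine Finset.sum_eq_zero fun u _ => ?_
      rw [← Finset.mul_sum, hrow, mul_zero]
    have e3 : ∑ u, ∑ w, (h w ^ 2 * G w * (G u * B (dl w) (dl u))) = 0 := by
      rw [Finset.sum_comm]
      exact e2
    rw [e1, e2, e3, ← hexp y y]
    ring
  have hh0 : ∀ u ∈ F, h u = 0 := by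
    intro u hu
    rw [hh]; simp [hyF u hu]
  have hterm : ∀ u w, 0 ≤ B (dl u) (dl w) * G u * G w * (h u - h w) ^ 2 := by
    intro u w
    by_cases huw : u = w
    · rw [huw]; simp
    by_cases h0 : B (dl u) (dl w) = 0
    · rw [h0]; simp
    rcases hin u ⟨w, h0⟩ with h7 | h7 | ⟨hu1, hu2, huv, hu⟩
    · rw [h7, hGα]; simp
    · rw [h7, hGβ]; simp
    rcases hin w ⟨u, by rw [hB]; exact h0⟩ with h7 | h7 | ⟨hw1', hw2, hwv, hw⟩
    · rw [h7, hGα]; simp
    · rw [h7, hGβ]; simp
    have hface : IsFace p {α, β, u, w} := by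
      by_contra hcon
      exact h0 (h4 u w huw hu1 hu2 hw1' hw2 hcon)
    have hpos := h5 u w huw hu1 hu2 hw1' hw2 huv hwv hface
    rcases lt_trichotomy (G u) 0 with g1 | g1 | g1
    · rcases lt_trichotomy (G w) 0 with g2 | g2 | g2
      · have : 0 < G u * G w := mul_pos_of_neg_of_neg g1 g2
        have e : B (dl u) (dl w) * G u * G w * (h u - h w) ^ 2 =
          B (dl u) (dl w) * (G u * G w) * (h u - h w) ^ 2 := by ring
        rw [e]; positivity
      · rw [g2]; simp
      · have hface' : IsFace p {α, β, w, u} := by rwa [Finset.pair_comm w u]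
        have := hBc w u hw1' hw2 hwv hu1 hu2 huv hface' g2 g1
        rw [hh0 u this.2, hh0 w this.1]; simp
    · rw [g1]; simp
    · rcases lt_trichotomy (G w) 0 with g2 | g2 | g2
      · have := hBc u w hu1 hu2 huv hw1' hw2 hwv hface g1 g2
        rw [hh0 u this.1, hh0 w this.2]; simp
      · rw [g2]; simp
      · positivity
  have hSum0 : 0 ≤ ∑ u, ∑ w, B (dl u) (dl w) * G u * G w * (h u - h w) ^ 2 :=
    Finset.sum_nonneg fun u _ => Finset.sum_nonneg fun w _ => hterm u w
  have hByy : B y y = 0 := by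
    rw [hPic] at hSum0
    linarith
  have hs1 : s1 = 0 := by
    rw [hyy] at hByy
    have h7 : 0 ≤ s2 ^ 2 * B a a := by positivity
    have h8 : 0 ≤ s1 ^ 2 * B (fun _ => 1) (fun _ => 1) := by positivity
    have h9 : s1 ^ 2 * B (fun _ => 1) (fun _ => 1) = 0 := by linarith
    rcases mul_eq_zero.mp h9 with h10 | h10
    · exact pow_eq_zero_iff (two_ne_zero) |>.mp h10
    · exact absurd h10 hcc.ne'
  have hs2 : s2 ≠ 0 := fun h7 => hne ⟨hs1, h7⟩
  have hzero : ∀ u w, B (dl u) (dl w) * G u * G w * (h u - h w) ^ 2 = 0 := by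
    intro u w
    have hPic0 : ∑ u, ∑ w, B (dl u) (dl w) * G u * G w * (h u - h w) ^ 2 = 0 := by
      rw [hPic, hByy, mul_zero]
    have h7 := (Finset.sum_eq_zero_iff_of_nonneg (fun u _ => Finset.sum_nonneg fun w _ => hterm u w)).mp hPic0 u
      (Finset.mem_univ u)
    exact (Finset.sum_eq_zero_iff_of_nonneg (fun w _ => hterm u w)).mp h7 w (Finset.mem_univ w)
  -- values at the vertices off the kernel of `g`
  have hoff : ∀ u, u ≠ α → u ≠ β → u ≠ v → IsFace p {α, β, u} → G u ≠ 0 → B (dl u) y = 0 := by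
    intro u hu1 hu2 huv hu hGu
    have e : ∀ w, B (dl u) (dl w) * y w = h u * (G w * B (dl u) (dl w)) := by
      intro w
      by_cases h0 : B (dl u) (dl w) = 0
      · rw [h0]; ring
      have hyw := hyG w u (by rw [hB]; exact h0)
      by_cases huw : u = w
      · rw [← huw] at hyw ⊢
        rw [hyw]; ring
      by_cases hGw : G w = 0
      · rw [hyw, hGw]; ring
      have h7 := hzero u w
      have h8 : h u - h w = 0 := by
        have h9 : B (dl u) (dl w) * G u * G w ≠ 0 := mul_ne_zero (mul_ne_zero h0 hGu) hGw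
        exact pow_eq_zero_iff (two_ne_zero) |>.mp ((mul_eq_zero.mp h7).resolve_left h9)
      have h9 : h w = h u := by linarith
      rw [hyw, h9]; ring
    rw [hB, hsum]
    have : ∑ w, y w * B (dl w) (dl u) = h u * ∑ w, G w * B (dl u) (dl w) := by
      rw [Finset.mul_sum]
      refine Finset.sum_congr rfl fun w _ => ?_
      rw [← e w, hB (dl w) (dl u)]; ring
    rw [this, hrow, mul_zero]
  -- all values
  have hBcy : B (fun _ => 1) y = 0 := by rw [hyB, hs1, ha]; ring
  have hBky : B (ev p k) y = 0 := h2 k y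
  have hall : ∀ u, u ≠ α → u ≠ β → u ≠ v → IsFace p {α, β, u} → B (dl u) y = 0 := by
    by_cases hQ : ∃ s, s ≠ α ∧ s ≠ β ∧ s ≠ v ∧ IsFace p {α, β, s} ∧ G s = 0 ∧ s ≠ r
    · obtain ⟨s, hs1', hs2', hsv, hs, hGs, hsr⟩ := hQ
      have hsA := hA s hs1' hs2' hsv hs hGs hsr
      have huniq : ∀ u, u ≠ α → u ≠ β → u ≠ v → IsFace p {α, β, u} → u ≠ r → u ≠ s → B (dl u) y = 0 := by
        intro u hu1 hu2 huv hu hur hus
        by_cases hGu : G u = 0
        · exfalso
          have h7 := hA u hu1 hu2 huv hu hGu hur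
          have : u ∈ ({α, β, s} : Finset V) := by rw [hsA.1, ← h7.1]; simp
          simp only [Finset.mem_insert, Finset.mem_singleton] at this
          tauto
        · exact hoff u hu1 hu2 huv hu hGu
      have hred : ∀ t : V → ℝ, t α = 0 → t β = 0 → ∑ u, t u * B (dl u) y = t r * B (dl r) y + t s * B (dl s) y := by
        intro t ht1 ht2
        rw [Finset.sum_eq_add r s (Ne.symm hsr)]
        · intro u _ hu
          by_cases hu1 : u = α
          · rw [hu1, ht1, zero_mul]
          by_cases hu2 : u = β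
          · rw [hu2, ht2, zero_mul]
          by_cases hu3 : u ≠ v ∧ IsFace p {α, β, u}
          · rw [huniq u hu1 hu2 hu3.1 hu3.2 hu.1 hu.2, mul_zero]
          · rw [hrad u hu1 hu2 hu3, mul_zero]
        · intro h; exact absurd (Finset.mem_univ _) h
        · intro h; exact absurd (Finset.mem_univ _) h
      have e1 := hBky
      rw [hsum, hred (ev p k) hkα hkβ] at e1
      have e2 := hBcy
      rw [hc, hred (fun u => 1 - l0 (p u)) (hw1 α (Or.inl rfl)) (hw1 β (Or.inr rfl))] at e2
      have e3 : ev p k r = 1 := hkr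
      rw [e3, one_mul] at e1
      have e4 : ev p k s < 0 := hsA.2
      have w1 := hw0 r hrα hrβ
      have w2 := hw0 s hs1' hs2'
      have hsy : B (dl s) y = 0 := by
        have h7 : ((1 - l0 (p r)) * (-(ev p k s)) + (1 - l0 (p s))) * B (dl s) y = 0 := by
          have : B (dl r) y = -(ev p k s) * B (dl s) y := by linarith
          rw [this] at e2
          linarith
        have h8 : 0 < (1 - l0 (p r)) * (-(ev p k s)) + (1 - l0 (p s)) :=
          add_pos (mul_pos w1 (by linarith)) w2
        exact (mul_eq_zero.mp h7).resolve_left h8.ne'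
      have hry : B (dl r) y = 0 := by
        rw [hsy, mul_zero, add_zero] at e1
        exact e1
      intro u hu1 hu2 huv hu
      by_cases hur : u = r
      · rw [hur]; exact hry
      by_cases hus : u = s
      · rw [hus]; exact hsy
      exact huniq u hu1 hu2 huv hu hur hus
    · push Not at hQ
      have huniq : ∀ u, u ≠ α → u ≠ β → u ≠ v → IsFace p {α, β, u} → u ≠ r → B (dl u) y = 0 := by
        intro u hu1 hu2 huv hu hur
        by_cases hGu : G u = 0
        · exact absurd (hQ u hu1 hu2 huv hu hGu) hur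
        · exact hoff u hu1 hu2 huv hu hGu
      have hry : B (dl r) y = 0 := by
        have e1 := hBky
        rw [hsum, Finset.sum_eq_single r] at e1
        · have e3 : ev p k r = 1 := hkr
          rwa [e3, one_mul] at e1
        · intro u _ hur
          by_cases hu1 : u = α
          · rw [hu1]; show k (p α) * _ = 0; rw [hkα, zero_mul]
          by_cases hu2 : u = β
          · rw [hu2]; show k (p β) * _ = 0; rw [hkβ, zero_mul]
          by_cases hu3 : u ≠ v ∧ IsFace p {α, β, u}
          · rw [huniq u hu1 hu2 hu3.1 hu3.2 hur, mul_zero]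
          · rw [hrad u hu1 hu2 hu3, mul_zero]
        · intro h; exact absurd (Finset.mem_univ _) h
      intro u hu1 hu2 huv hu
      by_cases hur : u = r
      · rw [hur]; exact hry
      exact huniq u hu1 hu2 huv hu hur
  have hfin := key y hall b
  rw [hyB, hs1, zero_mul, zero_add] at hfin
  rw [hB]
  exact (mul_eq_zero.mp hfin).resolve_left hs2

end Pool.Agent.TH47.Lev
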