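import Pool.Agent.TH47.Lev.Defs
import Pool.Agent.TH47.Lev.J_A
import Pool.Agent.TH47.Lev.J_H

/-!
Negative definiteness (Picone), job LEV-M (helper298)
-/

set_option autoImplicit false

namespace Pool.Agent.TH47.Lev

open MvPolynomial Finset

variable {V : Type} [Fintype V] [DecidableEq V]

private theorem negdef_sum (B : (V → ℝ) →ₗ[ℝ] (V → ℝ) →ₗ[ℝ] ℝ) (x y : V → ℝ) :
    B x y = ∑ u, x u * B (dl u) y := by
  have e : x = ∑ u, x u • dl u := by
    funext w
    rw [Finset.sum_apply]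
    simp [dl, Pi.single_apply]
  conv_lhs => rw [e, map_sum, LinearMap.sum_apply]
  refine Finset.sum_congr rfl fun u _ => ?_
  rw [map_smul, LinearMap.smul_apply, smul_eq_mul]

private theorem negdef_expand (B : (V → ℝ) →ₗ[ℝ] (V → ℝ) →ₗ[ℝ] ℝ) (hB : ∀ a b, B a b = B b a) (f g : V → ℝ) :
    B f g = ∑ u, ∑ w, f u * g w * B (dl u) (dl w) := by
  rw [negdef_sum B f g]
  refine Finset.sum_congr rfl fun u _ => ?_
  rw [hB (dl u) g, negdef_sum B g (dl u), Finset.mul_sum]
  refine Finset.sum_congr rfl fun w _ => ?_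
  rw [hB (dl w) (dl u)]
  ring

/-- negative definiteness (Picone) -/
theorem neg_def {p : V → E} (hP : IsSimplicialPolytope p) {v : V} (hv : p v = 0)
    (B : (V → ℝ) →ₗ[ℝ] (V → ℝ) →ₗ[ℝ] ℝ) (hB : ∀ a b, B a b = B b a)
    (h1 : ∀ w, w ≠ v → ¬ IsFace p {v, w} → ∀ l : E →ₗ[ℝ] ℝ, B (ev p l) (dl w) = 0)
    (h2 : ∀ u w, u ≠ w → ¬ IsFace p {u, w} → B (dl u) (dl w) = 0)
    (h2v : ∀ a, B (dl v) a = 0)
    (h3 : ∀ u w, u ≠ w → u ≠ v → w ≠ v → ¬ IsFace p {v, w} → IsFace p {u, w} →
      0 < B (dl u) (dl w))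
    (f : V → ℝ) (hfv : f v = 0) (hf : ∀ u, u ≠ v → IsFace p {v, u} → f u = 0)
    (hff : ∀ w, w ≠ v → ¬ IsFace p {v, w} → B f (dl w) = 0) : f = 0 := by
  obtain ⟨l, hl⟩ := vertex_functional hP hv
  set g : V → ℝ := ev p l with hg
  have hgp : ∀ u, u ≠ v → 0 < g u := hl
  have hgv : g v = 0 := by simp [hg, ev, hv]
  set h : V → ℝ := fun u => f u / g u with hh
  have hfg : ∀ u, f u = h u * g u := by
    intro u
    by_cases hu : u = v
    · rw [hu, hgv, hfv, mul_zero]
    · rw [hh]; field_simp [(hgp u hu).ne']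
  -- the value on the unit vectors
  have hsum := negdef_sum B
  have hint : ∀ u, f u ≠ 0 → u ≠ v ∧ ¬ IsFace p {v, u} := by
    intro u hu
    have huv : u ≠ v := by rintro rfl; exact hu hfv
    exact ⟨huv, fun hF => hu (hf u huv hF)⟩
  have hBff : B f f = 0 := by
    rw [hB, hsum]
    refine Finset.sum_eq_zero fun u _ => ?_
    by_cases hu : f u = 0
    · rw [hu, zero_mul]
    · obtain ⟨h4, h5⟩ := hint u hu
      rw [hB, hff u h4 h5, mul_zero]
  have hrow : ∀ u, h u ^ 2 * g u * (∑ w, g w * B (dl u) (dl w)) = 0 := by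
    intro u
    by_cases hu : f u = 0
    · have : h u = 0 := by rw [hh]; simp [hu]
      rw [this]; ring
    · obtain ⟨h4, h5⟩ := hint u hu
      have e : ∑ w, g w * B (dl u) (dl w) = B g (dl u) := by
        rw [hsum g (dl u)]
        exact Finset.sum_congr rfl fun w _ => by rw [hB (dl u) (dl w)]
      rw [e, h1 u h4 h5 l, mul_zero]
  -- Picone
  have hPic : ∑ u, ∑ w, B (dl u) (dl w) * g u * g w * (h u - h w) ^ 2 = 0 := by
    have e1 : ∑ u, ∑ w, B (dl u) (dl w) * g u * g w * (h u - h w) ^ 2 =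
        ∑ u, ∑ w, (h u ^ 2 * g u * (g w * B (dl u) (dl w))) +
        ∑ u, ∑ w, (h w ^ 2 * g w * (g u * B (dl w) (dl u))) -
        2 * ∑ u, ∑ w, f u * f w * B (dl u) (dl w) := by
      rw [Finset.mul_sum, ← Finset.sum_add_distrib, ← Finset.sum_sub_distrib]
      refine Finset.sum_congr rfl fun u _ => ?_
      rw [Finset.mul_sum, ← Finset.sum_add_distrib, ← Finset.sum_sub_distrib]
      refine Finset.sum_congr rfl fun w _ => ?_
      rw [hfg u, hfg w, hB (dl w) (dl u)]
      ring
    have e2 : ∑ u, ∑ w, (h u ^ 2 * g u * (g w * B (dl u) (dl w))) = 0 := by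
      refine Finset.sum_eq_zero fun u _ => ?_
      rw [← Finset.mul_sum]
      exact hrow u
    have e3 : ∑ u, ∑ w, (h w ^ 2 * g w * (g u * B (dl w) (dl u))) = 0 := by
      rw [Finset.sum_comm]
      exact e2
    rw [e1, e2, e3, ← negdef_expand B hB f f, hBff]
    ring
  have hterm : ∀ u w, 0 ≤ B (dl u) (dl w) * g u * g w * (h u - h w) ^ 2 := by
    intro u w
    by_cases huw : u = w
    · rw [huw]; simp
    by_cases hu : u = v
    · rw [hu, h2v]; simp
    by_cases hw : w = v
    · rw [hw, hB, h2v]; simp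
    have hgu := hgp u hu
    have hgw := hgp w hw
    have hpos : 0 ≤ B (dl u) (dl w) → 0 ≤ B (dl u) (dl w) * g u * g w * (h u - h w) ^ 2 := by
      intro h4; positivity
    by_cases hF : IsFace p {u, w}
    · by_cases hwi : IsFace p {v, w}
      · by_cases hui : IsFace p {v, u}
        · have e1 : h u = 0 := by rw [hh]; simp [hf u hu hui]
          have e2 : h w = 0 := by rw [hh]; simp [hf w hw hwi]
          rw [e1, e2]; simp
        · apply hpos
          rw [hB]
          exact (h3 w u (Ne.symm huw) hw hu hui (by rwa [Finset.pair_comm])).le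
      · exact hpos (h3 u w huw hu hw hwi hF).le
    · exact hpos (h2 u w huw hF).ge
  have hzero : ∀ u w, B (dl u) (dl w) * g u * g w * (h u - h w) ^ 2 = 0 := by
    intro u w
    have h4 := (Finset.sum_eq_zero_iff_of_nonneg (fun u _ => Finset.sum_nonneg fun w _ => hterm u w)).mp hPic u
      (Finset.mem_univ u)
    exact (Finset.sum_eq_zero_iff_of_nonneg (fun w _ => hterm u w)).mp h4 w (Finset.mem_univ w)
  classical
  have hS := graph_connected hP (Finset.univ.filter (fun u => f u = 0)) ⟨v, by simp [hfv]⟩ (by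
    intro u hu w huw hF
    rw [Finset.mem_filter] at hu ⊢
    refine ⟨Finset.mem_univ _, ?_⟩
    by_contra hw
    obtain ⟨hwv, hwi⟩ := hint w hw
    have huv : u ≠ v := by rintro rfl; exact hwi hF
    have h4 := h3 u w huw huv hwv hwi hF
    have h5 := hzero u w
    have h6 : h u - h w = 0 := by
      have h7 : B (dl u) (dl w) * g u * g w ≠ 0 :=
        (mul_pos (mul_pos h4 (hgp u huv)) (hgp w hwv)).ne'
      exact pow_eq_zero_iff (two_ne_zero) |>.mp ((mul_eq_zero.mp h5).resolve_left h7)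
    have h8 : h u = 0 := by rw [hh]; simp [hu.2]
    have h9 : h w = 0 := by linarith
    exact hw (by rw [hfg w, h9, zero_mul]))
  funext u
  have : u ∈ Finset.univ.filter (fun u => f u = 0) := by rw [hS]; exact Finset.mem_univ u
  exact (Finset.mem_filter.mp this).2

end Pool.Agent.TH47.Lev
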