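import Pool.Agent.TH47.Lev.Defs

set_option autoImplicit false

namespace Pool.Agent.TH47.Lev

open MvPolynomial Finset

variable {V : Type} [Fintype V] [DecidableEq V]

/-- The quadratic relations. -/
def Rel (p : V → E) (y : V → ℝ) : Prop :=
  ∀ u : V, ∃ (t : V → ℝ) (w : Fin 4 → V → ℝ),
    L y * X u - L (fun _ => 1) * L t - ∑ j, L (fun a => p a j) * L (w j) ∈ SR p

namespace JN

/-- the quadratic elements of the ideal -/
def M2 (p : V → E) : Submodule ℝ (MvPolynomial V ℝ) where
  carrier := {q | ∃ (t : V → ℝ) (w : Fin 4 → V → ℝ),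
    q - L (fun _ => 1) * L t - ∑ j, L (fun a => p a j) * L (w j) ∈ SR p}
  zero_mem' := ⟨0, 0, by simp⟩
  add_mem' := by
    rintro a b ⟨t, w, h⟩ ⟨t', w', h'⟩
    refine ⟨t + t', w + w', ?_⟩
    have e : a + b - L (fun _ => 1) * L (t + t') - ∑ j, L (fun a => p a j) * L ((w + w') j) =
        (a - L (fun _ => 1) * L t - ∑ j, L (fun a => p a j) * L (w j)) +
        (b - L (fun _ => 1) * L t' - ∑ j, L (fun a => p a j) * L (w' j)) := by
      simp only [map_add, Pi.add_apply, mul_add, sum_add_distrib]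
      ring
    rw [e]
    exact (SR p).add_mem h h'
  smul_mem' := by
    rintro c a ⟨t, w, h⟩
    refine ⟨c • t, c • w, ?_⟩
    have e : c • a - L (fun _ => 1) * L (c • t) - ∑ j, L (fun a => p a j) * L ((c • w) j) =
        C c * (a - L (fun _ => 1) * L t - ∑ j, L (fun a => p a j) * L (w j)) := by
      simp only [map_smul, Pi.smul_apply, MvPolynomial.smul_eq_C_mul]
      rw [mul_sub, mul_sub, mul_sum]
      congr 1
      · ring
      · refine sum_congr rfl fun j _ => ?_
        ring
    rw [e]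
    exact (SR p).mul_mem_left _ h

theorem mem_M2 {p : V → E} {q : MvPolynomial V ℝ} : q ∈ M2 p ↔ ∃ (t : V → ℝ) (w : Fin 4 → V → ℝ),
    q - L (fun _ => 1) * L t - ∑ j, L (fun a => p a j) * L (w j) ∈ SR p := Iff.rfl

theorem SR_M2 {p : V → E} {q : MvPolynomial V ℝ} (h : q ∈ SR p) : q ∈ M2 p :=
  ⟨0, 0, by simpa using h⟩

theorem L_hom (f : V → ℝ) : (L f).IsHomogeneous 1 := by
  rw [L_apply]
  refine IsHomogeneous.sum _ _ _ fun a _ => ?_
  have := (isHomogeneous_C V (f a)).mul (isHomogeneous_X ℝ a)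
  simpa using this

theorem deg_one {u : V →₀ ℕ} (h : u.degree = 1) : ∃ i, u = Finsupp.single i 1 := by
  have h1 : u ≠ 0 := by rintro rfl; simp at h
  obtain ⟨i, hi⟩ := Finsupp.ne_iff.1 h1
  rw [Finsupp.zero_apply] at hi
  refine ⟨i, ?_⟩
  have h2 : ∑ a, u a = 1 := by rw [← Finsupp.degree_eq_sum]; exact h
  rw [← Finset.add_sum_erase _ _ (mem_univ i)] at h2
  have h3 : u i = 1 ∧ ∑ a ∈ univ.erase i, u a = 0 := by omega
  ext a
  by_cases ha : a = i
  · subst ha; simp [h3.1]
  · rw [Finsupp.single_eq_of_ne ha]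
    exact (Finset.sum_eq_zero_iff.1 h3.2) a (mem_erase.2 ⟨ha, mem_univ _⟩)

theorem L_coeff (f : V → ℝ) (d : V →₀ ℕ) (i : V) (hd : d = Finsupp.single i 1) :
    coeff d (L f) = f i := by
  subst hd
  rw [L_apply, coeff_sum, Finset.sum_eq_single i]
  · simp
  · intro b _ hb
    rw [coeff_C_mul, coeff_X, if_neg, mul_zero]
    intro h
    exact hb (Finsupp.single_left_injective one_ne_zero h)
  · intro h
    exact absurd (mem_univ i) h

theorem hc_one (y : MvPolynomial V ℝ) :
    homogeneousComponent 1 y = L (fun a => coeff (Finsupp.single a 1) y) := by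
  ext d
  rw [coeff_homogeneousComponent]
  by_cases hd : d.degree = 1
  · obtain ⟨i, hi⟩ := deg_one hd
    rw [if_pos hd, L_coeff _ d i hi, hi]
  · rw [if_neg hd]
    exact ((L_hom (fun a => coeff (Finsupp.single a 1) y)).coeff_eq_zero hd).symm

theorem mono_one (u : V →₀ ℕ) (a : ℝ) (hu : u.degree = 1) :
    ∃ f : V → ℝ, monomial u a = L f := by
  obtain ⟨i, rfl⟩ := deg_one hu
  refine ⟨a • dl i, ?_⟩
  rw [map_smul, L_dl, MvPolynomial.smul_eq_C_mul, C_mul_X_eq_monomial]

/-- generators times monomials -/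
theorem key_mono {p : V → E} {g : MvPolynomial V ℝ}
    (hg : (∃ σ : Finset V, ¬ IsFace p σ ∧ g = ∏ a ∈ σ, X a) ∨
      (g ∈ Set.range (fun j : Fin 4 => L (fun a => p a j)) ∪ {L (fun _ => 1)}))
    (m : MvPolynomial V ℝ) : homogeneousComponent 2 (m * g) ∈ M2 p := by
  have hghom : ∃ k, g.IsHomogeneous k ∧ (g ∈ SR p ∨ (k = 1 ∧
      (g ∈ Set.range (fun j : Fin 4 => L (fun a => p a j)) ∪ {L (fun _ => 1)}))) := by
    rcases hg with ⟨σ, hσ, rfl⟩ | hg
    · refine ⟨∑ a ∈ σ, 1, IsHomogeneous.prod _ _ _ fun a _ => isHomogeneous_X ℝ a, Or.inl ?_⟩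
      exact Ideal.subset_span ⟨σ, hσ, rfl⟩
    · refine ⟨1, ?_, Or.inr ⟨rfl, hg⟩⟩
      rcases hg with ⟨j, rfl⟩ | rfl
      · exact L_hom _
      · exact L_hom _
  obtain ⟨k, hk, hg'⟩ := hghom
  induction m using MvPolynomial.induction_on' with
  | monomial u a =>
    have h1 : (monomial u a * g).IsHomogeneous (u.degree + k) :=
      (isHomogeneous_monomial a rfl).mul hk
    rw [homogeneousComponent_of_mem (m := 2) (n := u.degree + k) h1]
    by_cases h2 : 2 = u.degree + k
    · rw [if_pos h2]
      rcases hg' with h3 | ⟨rfl, h3⟩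
      · exact SR_M2 ((SR p).mul_mem_left _ h3)
      · obtain ⟨f, hf⟩ := mono_one u a (by omega)
        rw [hf]
        rcases h3 with ⟨j, rfl⟩ | rfl
        · refine ⟨0, Pi.single j f, ?_⟩
          have e : L f * L (fun a => p a j) - L (fun _ => 1) * L 0 -
              ∑ i, L (fun a => p a i) * L ((Pi.single j f : Fin 4 → V → ℝ) i) = 0 := by
            rw [Finset.sum_eq_single j]
            · simp only [map_zero, mul_zero, sub_zero, Pi.single_eq_same]
              ring
            · intro b _ hb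
              rw [Pi.single_eq_of_ne hb, map_zero, mul_zero]
            · intro h
              exact absurd (mem_univ j) h
          rw [show (fun j => L (fun a => p a j)) j = L (fun a => p a j) from rfl, e]
          exact (SR p).zero_mem
        · refine ⟨f, 0, ?_⟩
          have e : L f * L (fun _ => 1) - L (fun _ => 1) * L f -
              ∑ i, L (fun a => p a i) * L ((0 : Fin 4 → V → ℝ) i) = 0 := by
            simp only [Pi.zero_apply, map_zero, mul_zero, sum_const_zero, sub_zero]
            ring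
          rw [e]
          exact (SR p).zero_mem
    · rw [if_neg h2]
      exact (M2 p).zero_mem
  | add m m' hm hm' =>
    rw [add_mul, map_add]
    exact (M2 p).add_mem hm hm'

theorem hc_mem {p : V → E} {f : MvPolynomial V ℝ} (hf : f ∈ natIdeal p) :
    homogeneousComponent 2 f ∈ M2 p := by
  have key : ∀ x ∈ Ideal.span ({m | ∃ σ : Finset V, ¬ IsFace p σ ∧ m = ∏ a ∈ σ, X a} ∪
      (Set.range (fun j : Fin 4 => L (fun a => p a j)) ∪ {L (fun _ => 1)})),
      ∀ m : MvPolynomial V ℝ, homogeneousComponent 2 (m * x) ∈ M2 p := by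
    intro x hx
    induction hx using Submodule.span_induction with
    | mem g hg => exact key_mono hg
    | zero => intro m; rw [mul_zero, map_zero]; exact (M2 p).zero_mem
    | add x y _ _ hx hy =>
      intro m
      rw [mul_add, map_add]
      exact (M2 p).add_mem (hx m) (hy m)
    | smul a x _ hx =>
      intro m
      rw [smul_eq_mul, ← mul_assoc]
      exact hx (m * a)
  have h1 : f ∈ Ideal.span ({m | ∃ σ : Finset V, ¬ IsFace p σ ∧ m = ∏ a ∈ σ, X a} ∪
      (Set.range (fun j : Fin 4 => L (fun a => p a j)) ∪ {L (fun _ => 1)})) := by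
    rw [Ideal.span_union]
    exact hf
  have := key f h1 1
  rwa [one_mul] at this

theorem hc_X_mul (u : V) (y : MvPolynomial V ℝ) :
    homogeneousComponent 2 (X u * y) = X u * homogeneousComponent 1 y := by
  ext d
  rw [coeff_homogeneousComponent, coeff_X_mul', coeff_X_mul', coeff_homogeneousComponent]
  by_cases hu : u ∈ d.support
  · rw [if_pos hu, if_pos hu]
    have h1 : (d - Finsupp.single u 1) + Finsupp.single u 1 = d := by
      apply tsub_add_cancel_of_le
      rw [Finsupp.single_le_iff]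
      exact Nat.one_le_iff_ne_zero.2 (Finsupp.mem_support_iff.1 hu)
    have h2 : d.degree = (d - Finsupp.single u 1).degree + 1 := by
      conv_lhs => rw [← h1]
      rw [map_add, Finsupp.degree_single]
    by_cases hd : d.degree = 2
    · rw [if_pos hd, if_pos (by omega)]
    · rw [if_neg hd, if_neg (by omega)]
  · rw [if_neg hu, if_neg hu]
    simp

end JN

theorem rel_of_mem {p : V → E} (y : MvPolynomial V ℝ)
    (hy : ∀ u, X u * y ∈ natIdeal p) : Rel p (fun a => coeff (Finsupp.single a 1) y) := by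
  intro u
  have h := JN.hc_mem (hy u)
  rw [JN.hc_X_mul, JN.hc_one, mul_comm] at h
  exact h

end Pool.Agent.TH47.Lev
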