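import Pool.Agent.TH47.Lev.Final

/-!
# Affine 2-stresses of a prime simplicial 4-polytope determine it up to affine equivalence
-/

namespace Pool.Agent.TH47.Lev

open MvPolynomial Finset

variable {V : Type} [Fintype V] [DecidableEq V]

/-- `u` is an affine `i`-stress of the simplicial polytope with vertices `p v`: a homogeneous
polynomial of degree `i`, all of whose monomials are supported on faces of the boundary complex,
annihilated by `∑ ∂/∂x_v` and by `∑ p(v)_k ∂/∂x_v`, `k = 1, ..., 4`. -/
def IsAffineStress (i : ℕ) (p : V → E) (u : MvPolynomial V ℝ) : Prop :=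
  u.IsHomogeneous i ∧ (∀ m ∈ u.support, IsFace p m.support) ∧
    ∑ v, pderiv v u = 0 ∧ ∀ k : Fin 4, ∑ v, C (p v k) * pderiv v u = 0

/-- The quadratic form of a functional. -/
noncomputable def qf (T : MvPolynomial V ℝ →ₗ[ℝ] ℝ) : MvPolynomial V ℝ :=
  ∑ a, ∑ b, C (T (X a * X b)) * (X a * X b)

theorem L_injective' {f : V → ℝ} (h : (L f : MvPolynomial V ℝ) = 0) : f = 0 := by
  funext v
  have h1 := eval_L (dl v) f
  rw [h, map_zero, Finset.sum_eq_single v] at h1
  · simpa [dl] using h1.symm
  · intro b _ hb
    simp [dl, hb]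
  · intro hh
    exact absurd (Finset.mem_univ v) hh

theorem pderiv_qf (T : MvPolynomial V ℝ →ₗ[ℝ] ℝ) (v : V) :
    pderiv v (qf T) = 2 * ∑ b, C (T (X v * X b)) * X b := by
  unfold qf
  have e : ∀ a b : V, pderiv v (C (T (X a * X b)) * (X a * X b) : MvPolynomial V ℝ)
      = (if a = v then C (T (X a * X b)) * X b else 0)
        + (if b = v then C (T (X a * X b)) * X a else 0) := by
    intro a b
    rw [pderiv_C_mul, Derivation.leibniz, pderiv_X, pderiv_X, smul_eq_mul, smul_eq_mul]
    by_cases hav : a = v
    · subst hav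
      by_cases hbv : b = a
      · subst hbv
        simp
        ring
      · simp [hbv]
    · by_cases hbv : b = v
      · subst hbv
        simp [hav]
      · simp [hav, hbv]
  simp only [map_sum, e, Finset.sum_add_distrib]
  rw [two_mul]
  congr 1
  · rw [Finset.sum_eq_single v]
    · simp
    · intro a _ ha
      simp [ha]
    · intro hh
      exact absurd (Finset.mem_univ v) hh
  · refine Finset.sum_congr rfl fun a _ => ?_
    rw [Finset.sum_ite_eq' Finset.univ v, if_pos (Finset.mem_univ v), mul_comm (X a) (X v)]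

theorem sum_pderiv_qf (T : MvPolynomial V ℝ →ₗ[ℝ] ℝ) (g : V → ℝ) :
    ∑ v, C (g v) * pderiv v (qf T) = 2 * L (fun b => T (L g * X b)) := by
  simp only [pderiv_qf, L_apply (fun b => T (L g * X b))]
  have e : ∀ b, T (L g * X b) = ∑ v, g v * T (X v * X b) := fun b => deg_L_mul' T g (X b)
  simp only [e, map_sum, Finset.sum_mul, Finset.mul_sum, map_mul]
  rw [Finset.sum_comm]
  exact Finset.sum_congr rfl fun v _ => Finset.sum_congr rfl fun b _ => by ring

theorem qf_stress {p : V → E} (T : MvPolynomial V ℝ →ₗ[ℝ] ℝ)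
    (hT : ∀ f ∈ natIdeal p, T f = 0) : IsAffineStress 2 p (qf T) := by
  have hs : Ideal.span (Set.range (fun j : Fin 4 => (L (fun a => p a j) : MvPolynomial V ℝ)) ∪
      {L (fun _ => 1)}) ≤ natIdeal p := le_sup_right
  have hSR : SR p ≤ natIdeal p := le_sup_left
  have hzero : ∀ g : V → ℝ, (L g : MvPolynomial V ℝ) ∈ natIdeal p →
      ∑ v, C (g v) * pderiv v (qf T) = 0 := by
    intro g hg
    rw [sum_pderiv_qf]
    have : (fun b => T (L g * X b)) = 0 := by
      funext b
      exact hT _ (Ideal.mul_mem_right _ _ hg)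
    rw [this, map_zero, mul_zero]
  refine ⟨?_, ?_, ?_, ?_⟩
  · refine IsHomogeneous.sum _ _ _ fun a _ => IsHomogeneous.sum _ _ _ fun b _ => ?_
    have := (isHomogeneous_C V (T (X a * X b))).mul
      ((isHomogeneous_X ℝ a).mul (isHomogeneous_X ℝ b))
    simpa using this
  · intro m hm
    obtain ⟨a, b, hab⟩ : ∃ a b, coeff m (C (T (X a * X b)) * (X a * X b) : MvPolynomial V ℝ) ≠ 0 := by
      by_contra hcon
      push Not at hcon
      rw [mem_support_iff] at hm
      apply hm
      unfold qf
      rw [coeff_sum]
      refine Finset.sum_eq_zero fun a _ => ?_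
      rw [coeff_sum]
      exact Finset.sum_eq_zero fun b _ => hcon a b
    rw [coeff_C_mul] at hab
    have h1 : T (X a * X b) ≠ 0 := left_ne_zero_of_mul hab
    have h2 := right_ne_zero_of_mul hab
    have h3 : m = Finsupp.single a 1 + Finsupp.single b 1 := by
      have : (X a * X b : MvPolynomial V ℝ)
          = monomial (Finsupp.single a 1 + Finsupp.single b 1) 1 := by
        rw [X, X, monomial_mul, one_mul]
      rw [this, coeff_monomial] at h2
      by_contra hne
      rw [if_neg (Ne.symm hne)] at h2
      exact h2 rfl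
    by_contra hnf
    apply h1
    apply hT
    apply hSR
    have h4 : m.support = {a, b} := by
      rw [h3]
      ext c
      simp only [Finsupp.mem_support_iff, Finsupp.add_apply, Finsupp.single_apply,
        Finset.mem_insert, Finset.mem_singleton]
      constructor
      · intro h
        by_contra hc
        push Not at hc
        apply h
        rw [if_neg (Ne.symm hc.1), if_neg (Ne.symm hc.2), add_zero]
      · rintro (rfl | rfl)
        · simp
        · simp
    rw [h4] at hnf
    have h5 := SR_prod hnf
    by_cases hab' : a = b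
    · subst hab'
      simp only [Finset.insert_eq_of_mem, Finset.mem_singleton, Finset.prod_singleton] at h5
      exact Ideal.mul_mem_left _ _ h5
    · rwa [Finset.prod_pair hab'] at h5
  · have := hzero (fun _ => 1) (hs (Ideal.subset_span (Or.inr rfl)))
    simpa using this
  · intro k
    exact hzero _ (hs (Ideal.subset_span (Or.inl ⟨k, rfl⟩)))

/-- A function in equilibrium with all affine 2-stresses is affine. -/
theorem affine_of_stress {p : V → E} (hP : IsSimplicialPolytope p)
    (hmiss : ∀ S, IsMissingFace p S → S.card ≤ 3) (g : V → ℝ)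
    (hg : ∀ u, IsAffineStress 2 p u → ∑ v, C (g v) * pderiv v u = 0) :
    ∃ (l : E →ₗ[ℝ] ℝ) (b : ℝ), ∀ u, g u = l (p u) + b := by
  have h1 : ∀ v, X v * L g ∈ natIdeal p := by
    intro v
    by_contra hv
    obtain ⟨T, hT1, hT2⟩ := Submodule.exists_le_ker_of_notMem
      (p := (natIdeal p).restrictScalars ℝ) (v := (X v * L g : MvPolynomial V ℝ)) hv
    have hT : ∀ f ∈ natIdeal p, T f = 0 := fun f hf => hT2 hf
    have h2 := hg _ (qf_stress T hT)
    rw [sum_pderiv_qf] at h2
    have h3 : (L (fun b => T (L g * X b)) : MvPolynomial V ℝ) = 0 := by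
      rcases mul_eq_zero.mp h2 with h | h
      · exact absurd h two_ne_zero
      · exact h
    have h4 := congrFun (L_injective' h3) v
    simp only [Pi.zero_apply] at h4
    rw [mul_comm] at h4
    exact hT1 h4
  have h2 := (level_main hP hmiss (L g) h1).2
  rw [homogeneousComponent_of_mem ((mem_homogeneousSubmodule 1 _).mpr (JN.L_hom g)),
    if_pos rfl] at h2
  exact natIdeal_lin hP g h2

theorem affine_map_of_stress {p : V → E} (hP : IsSimplicialPolytope p)
    (hmiss : ∀ S, IsMissingFace p S → S.card ≤ 3) {m : ℕ} (q : V → Fin m → ℝ)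
    (hq : ∀ u, IsAffineStress 2 p u → ∀ k, ∑ v, C (q v k) * pderiv v u = 0) :
    ∃ A : E →ᵃ[ℝ] (Fin m → ℝ), ∀ v, A (p v) = q v := by
  have h := fun k => affine_of_stress hP hmiss (fun v => q v k) (fun u hu => hq u hu k)
  choose l b h using h
  refine ⟨(LinearMap.pi l).toAffineMap + AffineMap.const ℝ E b, fun v => ?_⟩
  funext k
  simp [h k v]

theorem affine_equiv_of_stress {p q : V → E} (hP : IsSimplicialPolytope p)
    (hQ : IsSimplicialPolytope q) (hmiss : ∀ S, IsMissingFace p S → S.card ≤ 3)
    (hq : ∀ u, IsAffineStress 2 p u → IsAffineStress 2 q u) :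
    ∃ A : E ≃ᵃ[ℝ] E, ∀ v, A (p v) = q v := by
  obtain ⟨A, hA⟩ := affine_map_of_stress hP hmiss q (fun u hu k => (hq u hu).2.2.2 k)
  have himg : A '' Set.range p = Set.range q := by
    rw [← Set.range_comp]
    congr 1
    funext v
    exact hA v
  have hmap := AffineSubspace.map_span A (Set.range p)
  rw [himg, hP.spans, hQ.spans] at hmap
  have hsurj : Function.Surjective A := by
    intro x
    have hx : x ∈ AffineSubspace.map A ⊤ := by
      rw [hmap]
      exact AffineSubspace.mem_top ℝ E x
    obtain ⟨y, _, hy⟩ := (AffineSubspace.mem_map).mp hx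
    exact ⟨y, hy⟩
  have hls : Function.Surjective A.linear := (AffineMap.linear_surjective_iff A).mpr hsurj
  have hli : Function.Injective A.linear := LinearMap.injective_iff_surjective.mpr hls
  have hinj : Function.Injective A := (AffineMap.linear_injective_iff A).mp hli
  exact ⟨AffineEquiv.ofBijective ⟨hinj, hsurj⟩, fun v => hA v⟩

end Pool.Agent.TH47.Lev
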