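import Pool.Agent.TH47.Lev.J_A
import Pool.Agent.TH47.Lev.J_B
import Pool.Agent.TH47.Lev.J_G
import Pool.Agent.TH47.Lev.J_I
import Pool.Agent.TH47.Lev.J_J
import Pool.Agent.TH47.Lev.J_K
import Pool.Agent.TH47.Lev.J_L
import Pool.Agent.TH47.Lev.J_M
import Pool.Agent.TH47.Lev.J_N

namespace Pool.Agent.TH47.Lev

open MvPolynomial Finset

variable {V : Type} [Fintype V] [DecidableEq V]

omit [DecidableEq V] in
theorem deg_L_mul' (T : MvPolynomial V ℝ →ₗ[ℝ] ℝ) (f : V → ℝ) (m : MvPolynomial V ℝ) :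
    T (L f * m) = ∑ u, f u * T (X u * m) := by
  rw [L_apply, Finset.sum_mul, map_sum]
  refine Finset.sum_congr rfl fun u _ => ?_
  rw [mul_assoc, ← MvPolynomial.smul_eq_C_mul, map_smul, smul_eq_mul]

theorem eval_SR {p : V → E} (hP : IsSimplicialPolytope p) {f : MvPolynomial V ℝ}
    (hf : f ∈ SR p) {S : Finset V} (hS : IsFace p S) (δ : V → ℝ) (hδ : ∀ a, a ∉ S → δ a = 0) :
    eval δ f = 0 := by
  have : SR p ≤ RingHom.ker (eval δ) := by
    unfold SR
    rw [Ideal.span_le]
    rintro m ⟨σ, hσ, rfl⟩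
    simp only [SetLike.mem_coe, RingHom.mem_ker, map_prod, eval_X]
    have : ¬ σ ⊆ S := fun h => hσ (face_mono hP hS h)
    obtain ⟨a, ha, haS⟩ := Finset.not_subset.mp this
    exact Finset.prod_eq_zero ha (hδ a haS)
  exact this hf

omit [DecidableEq V] in
theorem eval_L (δ f : V → ℝ) : eval δ (L f) = ∑ a, f a * δ a := by
  rw [L_apply, map_sum]
  simp

theorem eval_L_two (f : V → ℝ) (s r : ℝ) (v u : V) :
    eval (s • dl v + r • dl u) (L f) = s * f v + r * f u := by
  rw [eval_L]
  simp only [Pi.add_apply, Pi.smul_apply, smul_eq_mul, dl, mul_add, Finset.sum_add_distrib]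
  congr 1
  · rw [Finset.sum_eq_single v]
    · simp; ring
    · intro b _ hb; simp [hb]
    · intro h; exact absurd (Finset.mem_univ v) h
  · rw [Finset.sum_eq_single u]
    · simp; ring
    · intro b _ hb; simp [hb]
    · intro h; exact absurd (Finset.mem_univ u) h

/-- extracting coefficients -/
theorem rel_coeff {p : V → E} (hP : IsSimplicialPolytope p) {v : V} (hv : p v = 0)
    {y a q : V → ℝ} {w : Fin 4 → V → ℝ}
    (h : L y * L a - L (fun _ => 1) * L q - ∑ j, L (fun a => p a j) * L (w j) ∈ SR p)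
    (hy : y v = 0) :
    q v = 0 ∧ ∀ u, u ≠ v → IsFace p {v, u} → y u * a v = q u + ∑ j, p u j * w j v := by
  have key : ∀ s r : ℝ, ∀ u, IsFace p {v, u} →
      (s * y v + r * y u) * (s * a v + r * a u) - (s + r) * (s * q v + r * q u)
        - ∑ j, (r * p u j) * (s * w j v + r * w j u) = 0 := by
    intro s r u hu
    have h1 := eval_SR hP h hu (s • dl v + r • dl u) (by
      intro b hb
      simp only [Finset.mem_insert, Finset.mem_singleton, not_or] at hb
      simp [dl, hb.1, hb.2])
    simp only [map_sub, map_mul, map_sum, eval_L_two] at h1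
    have hv' : ∀ j, p v j = 0 := fun j => by rw [hv]; rfl
    simp only [hv', mul_zero, zero_add, mul_one] at h1
    exact h1
  have hq : q v = 0 := by
    have hvv : IsFace p {v, v} := by
      have := hP.vertex v
      simpa using this
    have h1 := key 1 0 v hvv
    simp [hy] at h1
    exact h1
  refine ⟨hq, ?_⟩
  intro u huv hu
  have h1 := key 1 1 u hu
  have h2 := key (-1) 1 u hu
  have e1 : ∑ j, (1 * p u j) * (1 * w j v + 1 * w j u)
      = ∑ j, p u j * w j v + ∑ j, p u j * w j u := by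
    rw [← Finset.sum_add_distrib]
    exact Finset.sum_congr rfl fun j _ => by ring
  have e2 : ∑ j, (1 * p u j) * (-1 * w j v + 1 * w j u)
      = - ∑ j, p u j * w j v + ∑ j, p u j * w j u := by
    rw [← Finset.sum_neg_distrib, ← Finset.sum_add_distrib]
    exact Finset.sum_congr rfl fun j _ => by ring
  rw [e1] at h1
  rw [e2] at h2
  rw [hy, hq] at h1 h2
  linarith

/-- `Rel` for all linear forms. -/
theorem rel_ext {p : V → E} {y : V → ℝ} (hy : Rel p y) (a : V → ℝ) :
    ∃ (t : V → ℝ) (w : Fin 4 → V → ℝ),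
      L y * L a - L (fun _ => 1) * L t - ∑ j, L (fun a => p a j) * L (w j) ∈ SR p := by
  choose t w h using hy
  refine ⟨∑ u, a u • t u, fun j => ∑ u, a u • w u j, ?_⟩
  have e : L y * L a - L (fun _ => 1) * L (∑ u, a u • t u)
      - ∑ j, L (fun a => p a j) * L (∑ u, a u • w u j)
      = ∑ u, C (a u) * (L y * X u - L (fun _ => 1) * L (t u)
        - ∑ j, L (fun a => p a j) * L (w u j)) := by
    simp only [mul_sub, Finset.sum_sub_distrib, map_sum, map_smul, Finset.mul_sum,
      MvPolynomial.smul_eq_C_mul]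
    congr 1
    · congr 1
      · rw [L_apply a, Finset.mul_sum]
        exact Finset.sum_congr rfl fun u _ => by ring
      · exact Finset.sum_congr rfl fun u _ => by ring
    · rw [Finset.sum_comm]
      exact Finset.sum_congr rfl fun u _ => Finset.sum_congr rfl fun j _ => by ring
  rw [e]
  exact Ideal.sum_mem _ fun u _ => Ideal.mul_mem_left _ _ (h u)

/-- a linear functional in coordinates -/
theorem L_ev_eq (p : V → E) (l : E →ₗ[ℝ] ℝ) :
    L (ev p l) = ∑ j, C (l (Pi.single j 1)) * L (fun a => p a j) := by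
  have : ev p l = ∑ j, l (Pi.single j 1) • (fun a => p a j) := by
    funext a
    simp only [ev, Finset.sum_apply, Pi.smul_apply, smul_eq_mul]
    conv_lhs => rw [LinearMap.pi_apply_eq_sum_univ l (p a)]
    refine Finset.sum_congr rfl fun j _ => ?_
    rw [smul_eq_mul, mul_comm]
    congr 2
    funext i
    simp [Pi.single_apply, eq_comm]
  rw [this, map_sum]
  refine Finset.sum_congr rfl fun j _ => ?_
  rw [map_smul, MvPolynomial.smul_eq_C_mul]

/-- Subtracting an affine function does not change the relation; `t` changes only by the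
constant. -/
theorem rel_sub_step {p : V → E} {y a t : V → ℝ} {w : Fin 4 → V → ℝ}
    (h : L y * L a - L (fun _ => 1) * L t - ∑ j, L (fun a => p a j) * L (w j) ∈ SR p)
    (l : E →ₗ[ℝ] ℝ) (b : ℝ) :
    L (y - ev p l - b • (fun _ => 1)) * L a - L (fun _ => 1) * L (t - b • a)
      - ∑ j, L (fun a => p a j) * L (w j - l (Pi.single j 1) • a) ∈ SR p := by
  have e : L (y - ev p l - b • (fun _ => 1)) * L a - L (fun _ => 1) * L (t - b • a)
      - ∑ j, L (fun a => p a j) * L (w j - l (Pi.single j 1) • a)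
      = L y * L a - L (fun _ => 1) * L t - ∑ j, L (fun a => p a j) * L (w j) := by
    simp only [map_sub, map_smul, L_ev_eq, MvPolynomial.smul_eq_C_mul, mul_sub,
      Finset.sum_sub_distrib, sub_mul, Finset.sum_mul]
    have : ∑ j, L (fun a => p a j) * (C (l (Pi.single j 1)) * L a)
        = ∑ j, C (l (Pi.single j 1)) * L (fun a => p a j) * L a :=
      Finset.sum_congr rfl fun j _ => by ring
    rw [this]
    ring
  rw [e]
  exact h

theorem rel_sub {p : V → E} {y : V → ℝ} (hy : Rel p y) (l : E →ₗ[ℝ] ℝ) (b : ℝ) :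
    Rel p (y - ev p l - b • (fun _ => 1)) := by
  intro u
  obtain ⟨t, w, h⟩ := hy u
  rw [← L_dl] at h
  refine ⟨t - b • dl u, fun j => w j - l (Pi.single j 1) • dl u, ?_⟩
  rw [← L_dl]
  exact rel_sub_step h l b

theorem SR_prod {p : V → E} {σ : Finset V} (h : ¬ IsFace p σ) :
    ∏ a ∈ σ, (X a : MvPolynomial V ℝ) ∈ SR p := Ideal.subset_span ⟨σ, h, rfl⟩

theorem deg_rel {p : V → E} {v : V} (D : DegFun p v) {y a q : V → ℝ} {w : Fin 4 → V → ℝ}
    (h : L y * L a - L (fun _ => 1) * L q - ∑ j, L (fun a => p a j) * L (w j) ∈ SR p)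
    (m : MvPolynomial V ℝ)
    (hm : ∀ (l : E →ₗ[ℝ] ℝ) (b : V → ℝ), D.deg (L (ev p l) * L b * m) = 0) :
    D.deg (L (fun _ => 1) * L q * m) = D.deg (L y * L a * m) := by
  have h1 := D.d2 _ (Ideal.mul_mem_right m _ h)
  have h2 : D.deg (∑ j, L (fun a => p a j) * L (w j) * m) = 0 := by
    rw [map_sum]
    exact Finset.sum_eq_zero fun j _ => hm (LinearMap.proj j) (w j)
  rw [sub_mul, sub_mul, Finset.sum_mul, map_sub, map_sub, h2] at h1
  linarith

theorem deg_nonface2 {p : V → E} {v : V} (D : DegFun p v) {u w : V} (huw : u ≠ w)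
    (h : ¬ IsFace p {u, w}) (m : MvPolynomial V ℝ) : D.deg (X u * X w * m) = 0 := by
  have := SR_prod h
  rw [Finset.prod_pair huw] at this
  exact D.d2 _ (Ideal.mul_mem_right m _ this)

/-- splitting off a supporting functional -/
theorem deg_split {p : V → E} {v : V} (D : DegFun p v) (l : E →ₗ[ℝ] ℝ)
    (m : MvPolynomial V ℝ) (hm : D.deg (L (ev p l) * m) = 0) :
    D.deg (L (fun _ => 1) * m) = ∑ u, (1 - l (p u)) * D.deg (X u * m) := by
  have e : L (fun _ => 1) * m = L (ev p l) * m + L ((fun _ => 1) - ev p l) * m := by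
    rw [map_sub]; ring
  rw [e, map_add, hm, zero_add, deg_L_mul']
  rfl

/-- the form of an edge -/
noncomputable def form (T : MvPolynomial V ℝ →ₗ[ℝ] ℝ) (m : MvPolynomial V ℝ) :
    (V → ℝ) →ₗ[ℝ] (V → ℝ) →ₗ[ℝ] ℝ :=
  LinearMap.mk₂ ℝ (fun a b => T (L a * L b * m))
    (fun a a' b => by simp only [map_add, add_mul])
    (fun c a b => by simp only [map_smul, smul_mul_assoc])
    (fun a b b' => by simp only [map_add, add_mul, mul_add])
    (fun c a b => by simp only [map_smul, smul_mul_assoc, mul_smul_comm])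

theorem form_apply (T : MvPolynomial V ℝ →ₗ[ℝ] ℝ) (m : MvPolynomial V ℝ) (a b : V → ℝ) :
    form T m a b = T (L a * L b * m) := rfl

/-- polygon lemma for the edge form -/
theorem polygon_deg {p : V → E} (hP : IsSimplicialPolytope p) {v : V} (hv : p v = 0)
    (D : DegFun p v) {α β : V} (hαβ : α ≠ β) (hα : α ≠ v) (hβ : β ≠ v)
    (he : IsFace p {α, β}) (hi : ¬ IsFace p {v, α, β})
    (a : V → ℝ) (ha : D.deg (L (fun _ => 1) * L a * (X α * X β)) = 0)
    (haa : 0 ≤ D.deg (L a * L a * (X α * X β))) (b : V → ℝ) :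
    D.deg (L a * L b * (X α * X β)) = 0 := by
  refine polygon hP hv hαβ hα hβ he hi (form D.deg (X α * X β)) ?_ ?_ ?_ ?_ ?_ ?_ ?_ a ha haa b
  · intro a b
    rw [form_apply, form_apply, mul_comm (L a)]
  · intro l a
    rw [form_apply]
    refine (congrArg D.deg ?_).trans (D.d3 α β hαβ hα hβ he hi l a)
    ring
  · intro u hu1 hu2 hf a
    rw [form_apply, L_dl]
    have h1 := SR_prod hf
    rw [Finset.prod_insert (by simp [hαβ, Ne.symm hu1]), Finset.prod_pair (Ne.symm hu2)] at h1
    refine (congrArg D.deg ?_).trans (D.d2 _ (Ideal.mul_mem_right (L a) _ h1))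
    ring
  · intro a
    rw [form_apply, L_dl, mul_assoc]
    exact D.d1 _
  · intro u w huw hu1 hu2 hw1 hw2 hf
    rw [form_apply, L_dl, L_dl]
    have h1 := SR_prod hf
    rw [Finset.prod_insert (by simp [hαβ, Ne.symm hu1, Ne.symm hw1]),
      Finset.prod_insert (by simp [Ne.symm hu2, Ne.symm hw2]), Finset.prod_pair huw] at h1
    refine (congrArg D.deg ?_).trans (D.d2 _ h1)
    ring
  · intro u w huw hu1 hu2 hw1 hw2 huv hwv hf
    rw [form_apply, L_dl, L_dl]
    have h1 := D.d5 _ hf (by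
      simp only [Finset.mem_insert, Finset.mem_singleton, not_or]
      exact ⟨Ne.symm hα, Ne.symm hβ, Ne.symm huv, Ne.symm hwv⟩) (by
      rw [Finset.card_insert_of_notMem (by simp [hαβ, Ne.symm hu1, Ne.symm hw1]),
        Finset.card_insert_of_notMem (by simp [Ne.symm hu2, Ne.symm hw2]),
        Finset.card_pair huw])
    rw [Finset.prod_insert (by simp [hαβ, Ne.symm hu1, Ne.symm hw1]),
      Finset.prod_insert (by simp [Ne.symm hu2, Ne.symm hw2]), Finset.prod_pair huw] at h1
    have e : (X u * X w * (X α * X β) : MvPolynomial V ℝ) = X α * (X β * (X u * X w)) := by ring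
    rw [e]
    exact h1
  · intro u hu1 hu2 huv hf
    rw [form_apply, L_dl]
    have h1 := deg_pos_tri hP hv D hαβ (Ne.symm hu1) (Ne.symm hu2) hα hβ huv hf hi
    have e : (L (fun _ => 1) * X u * (X α * X β) : MvPolynomial V ℝ)
      = L (fun _ => 1) * X α * X β * X u := by ring
    rw [e]
    exact h1

end Pool.Agent.TH47.Lev
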